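import Pool.Agent.H838R2.SL.T2

/-!
# Labels of string link diagrams in abelian groups

The strands of a diagram get labels in an abelian group; the labels do not change at crossings, the
two strands below a maximum have opposite labels.  For string links (no closed components) the values
at the maxima are determined by, and can be solved for, the sums of the labels at the minima.
-/

set_option autoImplicit false

namespace Pool.Agent.Y510.SL

open Pool.Agent.H835R2.Knot (Piece Word Front Fits run comps up dn sw)
open Pool.Agent.H835R2.Knot.Piece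
open Pool.Agent.H838R2.SL

section Ab

variable {K : Type*} [AddCommGroup K]

/-- labels below a piece, with labels in an abelian group -/
def ast : Piece → K → (ℕ → K) → ℕ → K
  | .birth i _, b, m => fun p => if p < i then m p else if p = i then b
      else if p = i + 1 then -b else m (p - 2)
  | .death i, _, m => fun p => m (up i p)
  | .pos i, _, m => fun p => m (sw i p)
  | .neg i, _, m => fun p => m (sw i p)

/-- the sum of the two labels at a minimum -/
def ad : Piece → (ℕ → K) → K
  | .death i, m => m i + m (i + 1)
  | _, _ => 0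

/-- labels at the bottom of a word; `l` is the place of its first piece, `b n` is the label of the
left strand below the maximum at place `n` -/
def arun : Word → ℕ → (ℕ → K) → (ℕ → K) → ℕ → K
  | [], _, _, m => m
  | p :: w, l, b, m => arun w (l + 1) b (ast p (b l) m)

/-- the sums of the labels at the minima -/
def adv : Word → ℕ → (ℕ → K) → (ℕ → K) → ℕ → K
  | [], _, _, _ => fun _ => 0
  | p :: w, l, b, m => fun n => if n = l then ad p m else adv w (l + 1) b (ast p (b l) m) n

end Ab

/-- is there a maximum at place `n`? -/
def IsB : Word → ℕ → ℕ → Prop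
  | [], _, _ => False
  | p :: w, l, n => (n = l ∧ ∃ i b, p = birth i b) ∨ IsB w (l + 1) n

/-- is there a minimum at place `n`? -/
def IsD : Word → ℕ → ℕ → Prop
  | [], _, _ => False
  | p :: w, l, n => (n = l ∧ ∃ i, p = death i) ∨ IsD w (l + 1) n

theorem IsB.le {w : Word} {l n : ℕ} (h : IsB w l n) : l ≤ n := by
  induction w generalizing l with
  | nil => exact h.elim
  | cons p w ih =>
    rcases h with ⟨rfl, _⟩ | h
    · exact le_rfl
    · have := ih h; omega

theorem IsD.le {w : Word} {l n : ℕ} (h : IsD w l n) : l ≤ n := by
  induction w generalizing l with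
  | nil => exact h.elim
  | cons p w ih =>
    rcases h with ⟨rfl, _⟩ | h
    · exact le_rfl
    · have := ih h; omega

/-! ### arithmetic of positions -/

theorem up_dn (i p : ℕ) (h : p ≠ i) (h' : p ≠ i + 1) : up i (dn i p) = p := by
  unfold up dn; split_ifs <;> omega

theorem dn_up (i p : ℕ) : dn i (up i p) = p := by
  unfold up dn; split_ifs <;> omega

theorem up_ne (i p : ℕ) : up i p ≠ i := by unfold up; split_ifs <;> omega

theorem up_ne' (i p : ℕ) : up i p ≠ i + 1 := by unfold up; split_ifs <;> omega

theorem up_inj (i p q : ℕ) (h : up i p = up i q) : p = q := by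
  have := congrArg (dn i) h
  rwa [dn_up, dn_up] at this

theorem sw_sw (i p : ℕ) : sw i (sw i p) = p := by unfold sw; split_ifs <;> omega

theorem sw_lt {i n : ℕ} (h : i + 2 ≤ n) (p : ℕ) : sw i p < n ↔ p < n := by
  unfold sw; split_ifs <;> omega

theorem up_lt {i n : ℕ} (h : i ≤ n) (p : ℕ) : up i p < n + 2 ↔ p < n := by
  unfold up; split_ifs <;> omega

theorem up_lt' {i n : ℕ} (h : i + 2 ≤ n) (p : ℕ) : up i p < n ↔ p < n - 2 := by
  unfold up; split_ifs <;> omega

theorem act_dir_birth (i : ℕ) (b : Bool) (F : Front) (p : ℕ) :
    ((birth i b).act F).dir (up i p) = F.dir p := by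
  simp only [Piece.act]
  unfold up
  split_ifs <;> first | rfl | (exfalso; omega) | (congr 1)

theorem ast_birth_up {K : Type*} [AddCommGroup K] (i : ℕ) (b : Bool) (x : K) (m : ℕ → K) (p : ℕ) :
    ast (birth i b) x m (up i p) = m p := by
  simp only [ast]
  unfold up
  split_ifs <;> first | rfl | (exfalso; omega) | (congr 1)

theorem act_fin_birth (i : ℕ) (b : Bool) (F : Front) (p : ℕ) :
    ((birth i b).act F).fin (up i p) = up i (F.fin p) := by
  simp only [Piece.act]
  unfold up
  by_cases h : p < i
  · simp [h]
  · rw [if_neg h, if_neg (by omega), if_neg (by omega)]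
    simp

/-- the ends of arcs are directed downwards -/
structure FGd (k : ℕ) (F : Front) (T : ℕ → ℕ) : Prop where
  hT : ∀ j < k, F.dir (T j) = true
  hfin : ∀ q < F.n, F.dir q = false → F.dir (F.fin q) = true

theorem fgd_start (k : ℕ) : FGd k (start k) (fun j => j) := ⟨fun _ _ => rfl, fun _ _ h => by simp [start] at h⟩

/-- a position is either old or one of the two new ones -/
theorem pos_cases (i p : ℕ) : p = i ∨ p = i + 1 ∨ ∃ q, p = up i q := by
  by_cases h1 : p = i
  · exact Or.inl h1
  by_cases h2 : p = i + 1
  · exact Or.inr (Or.inl h2)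
  exact Or.inr (Or.inr ⟨dn i p, (up_dn i p h1 h2).symm⟩)

theorem out_inn (F : Front) (i : ℕ) (h : F.dir (i + 1) = !F.dir i) :
    F.dir (F.out i) = true ∧ F.dir (F.inn i) = false ∧
      ((F.out i = i ∧ F.inn i = i + 1) ∨ (F.out i = i + 1 ∧ F.inn i = i)) := by
  unfold Front.out Front.inn
  cases hd : F.dir i <;> simp [hd] at h ⊢ <;> exact h

theorem fgd_step (k : ℕ) (F : Front) (T : ℕ → ℕ) (p : Piece) (h : FGd k F T) (hp : p.Fits F)
    (hc : p.closes F = false) : FGd k (p.act F) (exitP p F T) := by
  cases p with
  | birth i b =>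
    refine ⟨fun j hj => ?_, fun q hq hd => ?_⟩
    · simp only [exitP]
      rw [act_dir_birth]
      exact h.hT j hj
    · simp only [Piece.Fits] at hp
      rcases pos_cases i q with rfl | rfl | ⟨q', rfl⟩
      · simp [Piece.act] at hd ⊢
        simp [hd]
      · simp [Piece.act] at hd ⊢
        simp [hd]
      · rw [act_dir_birth] at hd
        rw [act_fin_birth, act_dir_birth]
        have hq' : q' < F.n := (up_lt hp q').1 hq
        exact h.hfin q' hq' hd
  | death i =>
    simp only [Piece.Fits] at hp
    obtain ⟨hn, hdd⟩ := hp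
    obtain ⟨ho, hi, hoi⟩ := out_inn F i hdd
    simp only [Piece.closes, decide_eq_false_iff_not] at hc
    have hin : F.inn i < F.n := by rcases hoi with h | h <;> omega
    have hfi := h.hfin _ hin hi
    have key : ∀ x, F.dir x = true → x ≠ F.out i → up i (dn i x) = x := by
      intro x hx hxo
      apply up_dn
      · rintro rfl
        rcases hoi with h | h
        · exact hxo h.1.symm
        · rw [h.2, hx] at hi; cases hi
      · rintro rfl
        rcases hoi with h | h
        · rw [h.2, hx] at hi; cases hi
        · exact hxo h.1.symm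
    refine ⟨fun j hj => ?_, fun q hq hd => ?_⟩
    · simp only [exitP, Piece.act]
      split_ifs with hT
      · rw [key _ hfi hc]; exact hfi
      · rw [key _ (h.hT j hj) hT]; exact h.hT j hj
    · simp only [Piece.act] at hq hd ⊢
      have hq' : up i q < F.n := (up_lt' hn q).2 hq
      split_ifs with hT
      · rw [key _ hfi hc]; exact hfi
      · rw [key _ (h.hfin _ hq' hd) hT]; exact h.hfin _ hq' hd
  | pos i =>
    simp only [Piece.Fits] at hp
    refine ⟨fun j hj => ?_, fun q hq hd => ?_⟩
    · simp only [exitP, Piece.act, sw_sw]; exact h.hT j hj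
    · simp only [Piece.act, sw_sw] at hq hd ⊢
      exact h.hfin _ ((sw_lt hp q).2 hq) hd
  | neg i =>
    simp only [Piece.Fits] at hp
    refine ⟨fun j hj => ?_, fun q hq hd => ?_⟩
    · simp only [exitP, Piece.act, sw_sw]; exact h.hT j hj
    · simp only [Piece.act, sw_sw] at hq hd ⊢
      exact h.hfin _ ((sw_lt hp q).2 hq) hd

end Pool.Agent.Y510.SL
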