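import Pool.Agent.Y510.SL.Ab

/-!
# Solving for the labels at the maxima
-/

set_option autoImplicit false

namespace Pool.Agent.Y510.SL

open Pool.Agent.H835R2.Knot (Piece Word Front Fits run comps up dn sw)
open Pool.Agent.H835R2.Knot.Piece
open Pool.Agent.H838R2.SL

variable {K : Type*} [AddCommGroup K]

theorem arun_congr (w : Word) : ∀ (l : ℕ) (b b' m : ℕ → K), (∀ n, l ≤ n → b n = b' n) →
    arun w l b m = arun w l b' m ∧ adv w l b m = adv w l b' m := by
  induction w with
  | nil => intro l b b' m _; exact ⟨rfl, rfl⟩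
  | cons p w ih =>
    intro l b b' m h
    simp only [arun, adv]
    rw [h l le_rfl]
    obtain ⟨h1, h2⟩ := ih (l + 1) b b' (ast p (b' l) m) (fun n hn => h n (by omega))
    rw [h1, h2]
    exact ⟨rfl, rfl⟩

/-- `P` is the set of labelings of the strands of the front `F` which extend to the part of the
diagram above it: the labels of the strands directed upwards are free, the other ones are determined
by them. -/
structure HF (k : ℕ) (F : Front) (T : ℕ → ℕ) (P : (ℕ → K) → Prop) : Prop where
  ex : ∀ z : ℕ → K, ∃ m, P m ∧ ∀ q < F.n, F.dir q = false → m q = z q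
  un : ∀ m m', P m → P m' → ∀ p < F.n, F.dir p = true →
    (∃ j < k, T j = p ∧ m p = m' p) ∨
      (∃ q < F.n, F.dir q = false ∧ F.fin q = p ∧ m p - m' p = -(m q - m' q))

/-- one step -/
def Nx (p : Piece) (r : K) (P : (ℕ → K) → Prop) (m' : ℕ → K) : Prop :=
  ∃ m x, P m ∧ ((∃ i, p = death i) → ad p m = r) ∧ m' = ast p x m

theorem hf_birth (k : ℕ) (F : Front) (T : ℕ → ℕ) (i : ℕ) (b : Bool) (r : K) (P : (ℕ → K) → Prop)
    (h : HF k F T P) (hp : (birth i b).Fits F) :
    HF k ((birth i b).act F) (exitP (birth i b) F T) (Nx (birth i b) r P) := by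
  simp only [Piece.Fits] at hp
  have hn : ((birth i b).act F).n = F.n + 2 := rfl
  constructor
  · intro z
    obtain ⟨m, hm, hz⟩ := h.ex (fun q => z (up i q))
    refine ⟨_, ⟨m, if b then -z (i + 1) else z i, hm, by simp, rfl⟩, fun q hq hd => ?_⟩
    rcases pos_cases i q with rfl | rfl | ⟨q', rfl⟩
    · have hb : b = false := by simpa [Piece.act] using hd
      subst hb
      simp [ast]
    · have hb : b = true := by simpa [Piece.act] using hd
      subst hb
      simp [ast]
    · rw [act_dir_birth] at hd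
      rw [ast_birth_up]
      rw [hn] at hq
      exact hz q' ((up_lt hp q').1 hq) hd
  · rintro m m' ⟨m1, x1, h1, _, rfl⟩ ⟨m2, x2, h2, _, rfl⟩ p hpn hd
    rw [hn] at hpn
    rcases pos_cases i p with rfl | rfl | ⟨q', rfl⟩
    · right
      have hb : b = true := by simpa [Piece.act] using hd
      subst hb
      refine ⟨p + 1, by rw [hn]; omega, by simp [Piece.act], by simp [Piece.act], ?_⟩
      simp [ast]
      abel
    · right
      have hb : b = false := by simpa [Piece.act] using hd
      subst hb
      refine ⟨i, by rw [hn]; omega, by simp [Piece.act], by simp [Piece.act], ?_⟩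
      simp only [ast]
      simp
      abel
    · rw [act_dir_birth] at hd
      have hq' := (up_lt hp q').1 hpn
      rw [ast_birth_up, ast_birth_up]
      rcases h.un m1 m2 h1 h2 q' hq' hd with ⟨j, hj, hT, he⟩ | ⟨q, hq, hdq, hf, he⟩
      · left
        exact ⟨j, hj, by simp only [exitP, hT], he⟩
      · right
        refine ⟨up i q, by rw [hn]; exact (up_lt hp q).2 hq, ?_, ?_, ?_⟩
        · rw [act_dir_birth]; exact hdq
        · rw [act_fin_birth, hf]
        · rw [ast_birth_up, ast_birth_up]; exact he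

theorem hf_cross (k : ℕ) (F F' : Front) (T T' : ℕ → ℕ) (i : ℕ) (P P' : (ℕ → K) → Prop)
    (h : HF k F T P) (hp : i + 2 ≤ F.n) (hn : F'.n = F.n)
    (hdir : ∀ p, F'.dir p = F.dir (sw i p)) (hfin : ∀ p, F'.fin p = sw i (F.fin (sw i p)))
    (hT : ∀ j, T' j = sw i (T j))
    (hP : ∀ m', P' m' ↔ ∃ m, P m ∧ m' = fun p => m (sw i p)) :
    HF k F' T' P' := by
  constructor
  · intro z
    obtain ⟨m, hm, hz⟩ := h.ex (fun q => z (sw i q))
    refine ⟨_, (hP _).2 ⟨m, hm, rfl⟩, fun q hq hd => ?_⟩
    rw [hn] at hq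
    rw [hdir] at hd
    have := hz (sw i q) ((sw_lt hp q).2 hq) hd
    rw [sw_sw] at this
    exact this
  · intro m m' hm hm' p hpn hd
    obtain ⟨m1, h1, rfl⟩ := (hP m).1 hm
    obtain ⟨m2, h2, rfl⟩ := (hP m').1 hm'
    rw [hn] at hpn
    rw [hdir] at hd
    rcases h.un m1 m2 h1 h2 (sw i p) ((sw_lt hp p).2 hpn) hd with ⟨j, hj, hTj, he⟩ | ⟨q, hq, hdq, hf, he⟩
    · left
      exact ⟨j, hj, by rw [hT, hTj, sw_sw], he⟩
    · right
      refine ⟨sw i q, by rw [hn]; exact (sw_lt hp q).2 hq, ?_, ?_, ?_⟩
      · rw [hdir, sw_sw]; exact hdq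
      · rw [hfin, sw_sw, hf, sw_sw]
      · simp only [sw_sw]; exact he

theorem hf_death (k : ℕ) (F : Front) (T : ℕ → ℕ) (i : ℕ) (r : K) (P : (ℕ → K) → Prop)
    (h : HF k F T P) (hp : (death i).Fits F) (hc : (death i).closes F = false) :
    HF k ((death i).act F) (exitP (death i) F T) (Nx (death i) r P) := by
  simp only [Piece.Fits] at hp
  obtain ⟨hn, hdd⟩ := hp
  obtain ⟨ho, hi, hoi⟩ := out_inn F i hdd
  simp only [Piece.closes, decide_eq_false_iff_not] at hc
  have hin : F.inn i < F.n := by rcases hoi with h | h <;> omega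
  have hon : F.out i < F.n := by rcases hoi with h | h <;> omega
  have hne : F.out i ≠ F.inn i := by intro e; rw [e, hi] at ho; cases ho
  have hsum : ∀ m : ℕ → K, ad (death i) m = m (F.out i) + m (F.inn i) := by
    intro m
    simp only [ad]
    rcases hoi with ⟨h1, h2⟩ | ⟨h1, h2⟩
    · rw [h1, h2]
    · rw [h1, h2, add_comm]
  have hn' : ((death i).act F).n = F.n - 2 := rfl
  have hold : ∀ q, q ≠ F.out i → q ≠ F.inn i → up i (dn i q) = q := by
    intro q h1 h2
    apply up_dn
    · rintro rfl
      rcases hoi with h | h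
      · exact h1 h.1.symm
      · exact h2 h.2.symm
    · rintro rfl
      rcases hoi with h | h
      · exact h2 h.2.symm
      · exact h1 h.1.symm
  constructor
  · intro z
    -- first try
    obtain ⟨m0, hm0, hz0⟩ := h.ex (fun q => if q = F.inn i then 0 else z (dn i q))
    obtain ⟨m, hm, hz⟩ := h.ex (fun q => if q = F.inn i then r - m0 (F.out i) else z (dn i q))
    have hout : m (F.out i) = m0 (F.out i) := by
      rcases h.un m m0 hm hm0 (F.out i) hon ho with ⟨j, hj, hT, he⟩ | ⟨q, hq, hdq, hf, he⟩
      · exact he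
      · have hqi : q ≠ F.inn i := by rintro rfl; exact hc hf
        have e1 := hz q hq hdq
        have e2 := hz0 q hq hdq
        rw [if_neg hqi] at e1 e2
        rw [e1, e2, sub_self, neg_zero] at he
        exact sub_eq_zero.1 he
    have hinn : m (F.inn i) = r - m0 (F.out i) := by
      have := hz _ hin hi
      rwa [if_pos rfl] at this
    refine ⟨_, ⟨m, 0, hm, fun _ => ?_, rfl⟩, fun q hq hd => ?_⟩
    · rw [hsum, hout, hinn]; abel
    · rw [hn'] at hq
      simp only [Piece.act] at hd
      simp only [ast]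
      have hq' : up i q < F.n := (up_lt' hn q).2 hq
      have := hz (up i q) hq' hd
      rw [this, if_neg, dn_up]
      rcases hoi with h | h
      · rw [h.2]; exact up_ne' i q
      · rw [h.2]; exact up_ne i q
  · rintro m m' ⟨m1, x1, h1, hr1, rfl⟩ ⟨m2, x2, h2, hr2, rfl⟩ p hpn hd
    have hr1 := hr1 ⟨i, rfl⟩
    have hr2 := hr2 ⟨i, rfl⟩
    rw [hsum] at hr1 hr2
    rw [hn'] at hpn
    simp only [Piece.act] at hd
    have hp' : up i p < F.n := (up_lt' hn p).2 hpn
    have hpo : up i p ≠ F.out i := by
      rcases hoi with h | h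
      · rw [h.1]; exact up_ne i p
      · rw [h.1]; exact up_ne' i p
    have hio : m1 (F.inn i) - m2 (F.inn i) = -(m1 (F.out i) - m2 (F.out i)) := by
      have e1 : m1 (F.inn i) = r - m1 (F.out i) := by rw [← hr1]; abel
      have e2 : m2 (F.inn i) = r - m2 (F.out i) := by rw [← hr2]; abel
      rw [e1, e2]; abel
    rcases h.un m1 m2 h1 h2 (up i p) hp' hd with ⟨j, hj, hT, he⟩ | ⟨q, hq, hdq, hf, he⟩
    · left
      refine ⟨j, hj, ?_, he⟩
      simp only [exitP]
      rw [if_neg (by rw [hT]; exact hpo), hT, dn_up]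
    · by_cases hqi : q = F.inn i
      · subst hqi
        rcases h.un m1 m2 h1 h2 (F.out i) hon ho with ⟨j, hj, hT, he'⟩ | ⟨q2, hq2, hdq2, hf2, he'⟩
        · left
          refine ⟨j, hj, ?_, ?_⟩
          · simp only [exitP]
            rw [if_pos hT, hf, dn_up]
          · simp only [ast]
            rw [hio, he', sub_self, neg_zero, neg_zero] at he
            exact sub_eq_zero.1 he
        · right
          have hq2i : q2 ≠ F.inn i := by
            rintro rfl
            exact hpo (hf.symm.trans hf2)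
          have hq2o : q2 ≠ F.out i := by
            rintro rfl
            rw [ho] at hdq2; cases hdq2
          have hu := hold q2 hq2o hq2i
          refine ⟨dn i q2, ?_, ?_, ?_, ?_⟩
          · rw [hn']; rw [← up_lt' hn, hu]; exact hq2
          · simp only [Piece.act]; rw [hu]; exact hdq2
          · simp only [Piece.act]; rw [hu, if_pos hf2, hf, dn_up]
          · simp only [ast]; rw [hu, he, hio, he']; abel
      · right
        have hqo : q ≠ F.out i := by
          rintro rfl
          rw [ho] at hdq; cases hdq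
        have hu := hold q hqo hqi
        refine ⟨dn i q, ?_, ?_, ?_, ?_⟩
        · rw [hn']; rw [← up_lt' hn, hu]; exact hq
        · simp only [Piece.act]; rw [hu]; exact hdq
        · simp only [Piece.act]; rw [hu, hf, if_neg hpo, dn_up]
        · simp only [ast]; rw [hu]; exact he

theorem hf_step (k : ℕ) (F : Front) (T : ℕ → ℕ) (p : Piece) (r : K) (P : (ℕ → K) → Prop)
    (h : HF k F T P) (hp : p.Fits F) (hc : p.closes F = false) :
    HF k (p.act F) (exitP p F T) (Nx p r P) := by
  cases p with
  | birth i b => exact hf_birth k F T i b r P h hp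
  | death i => exact hf_death k F T i r P h hp hc
  | pos i =>
    refine hf_cross k F _ T _ i P _ h hp rfl (fun _ => rfl) (fun _ => rfl) (fun _ => rfl) ?_
    intro m'
    constructor
    · rintro ⟨m, x, hm, _, rfl⟩; exact ⟨m, hm, rfl⟩
    · rintro ⟨m, hm, rfl⟩; exact ⟨m, 0, hm, by simp, rfl⟩
  | neg i =>
    refine hf_cross k F _ T _ i P _ h hp rfl (fun _ => rfl) (fun _ => rfl) (fun _ => rfl) ?_
    intro m'
    constructor
    · rintro ⟨m, x, hm, _, rfl⟩; exact ⟨m, hm, rfl⟩
    · rintro ⟨m, hm, rfl⟩; exact ⟨m, 0, hm, by simp, rfl⟩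

/-- labelings below a word which extend to the part above, with prescribed sums at the minima -/
def Att (w : Word) (l : ℕ) (r : ℕ → K) (P : (ℕ → K) → Prop) (m' : ℕ → K) : Prop :=
  ∃ m b, P m ∧ (∀ n, IsD w l n → adv w l b m n = r n) ∧ m' = arun w l b m

theorem att_cons (p : Piece) (w : Word) (l : ℕ) (r : ℕ → K) (P : (ℕ → K) → Prop) (m' : ℕ → K) :
    Att (p :: w) l r P m' ↔ Att w (l + 1) r (Nx p (r l) P) m' := by
  constructor
  · rintro ⟨m, b, hm, hr, rfl⟩
    refine ⟨ast p (b l) m, b, ⟨m, b l, hm, ?_, rfl⟩, ?_, rfl⟩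
    · intro hi
      have := hr l (Or.inl ⟨rfl, hi⟩)
      simpa [adv] using this
    · intro n hn
      have := hr n (Or.inr hn)
      have h1 := hn.le
      simp only [adv] at this
      rwa [if_neg (by omega)] at this
  · rintro ⟨_, b, ⟨m, x, hm, hx, rfl⟩, hr, rfl⟩
    have hcg := arun_congr w (l + 1) b (fun n => if n = l then x else b n) (ast p x m)
      (fun n hn => by rw [if_neg (by omega)])
    refine ⟨m, fun n => if n = l then x else b n, hm, ?_, ?_⟩
    · intro n hn
      simp only [adv]
      rcases hn with ⟨rfl, hi⟩ | hn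
      · rw [if_pos rfl]; exact hx hi
      · have h1 := hn.le
        rw [if_neg (by omega), if_pos trivial, ← hcg.2]
        exact hr n hn
    · simp only [arun]
      rw [if_pos trivial, ← hcg.1]

theorem hf_word (k : ℕ) (w : Word) : ∀ (l : ℕ) (F : Front) (T : ℕ → ℕ) (r : ℕ → K)
    (P : (ℕ → K) → Prop), HF k F T P → Fits w F → comps w F = 0 →
    HF k (run w F) (exits w F T) (Att w l r P) := by
  induction w with
  | nil =>
    intro l F T r P h _ _
    have : Att [] l r P = P := by
      funext m'
      apply propext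
      constructor
      · rintro ⟨m, b, hm, _, rfl⟩; exact hm
      · intro hm; exact ⟨m', fun _ => 0, hm, fun n hn => hn.elim, rfl⟩
    rw [this]
    exact h
  | cons p w ih =>
    intro l F T r P h hf hc
    simp only [comps] at hc
    have hcl : p.closes F = false := by
      by_contra hne
      rw [Bool.not_eq_false] at hne
      rw [if_pos hne] at hc
      omega
    have hc' : comps w (p.act F) = 0 := by
      rw [hcl] at hc; simpa using hc
    have := ih (l + 1) (p.act F) (exitP p F T) r _ (hf_step k F T p (r l) P h hf.1 hcl) hf.2 hc'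
    have he : Att (p :: w) l r P = Att w (l + 1) r (Nx p (r l) P) :=
      funext fun m' => propext (att_cons p w l r P m')
    rw [he]
    exact this

/-- The values at the maxima can be chosen such that the sums at the minima are prescribed. -/
theorem ab_solve {k : ℕ} {D : Word} (h : IsStringLink k D) (t r : ℕ → K) :
    ∃ b : ℕ → K, ∀ n, IsD D 0 n → adv D 0 b t n = r n := by
  have h0 : HF k (start k) (fun j => j) (fun m => m = t) := by
    constructor
    · intro z
      exact ⟨t, rfl, fun q _ hd => by simp [start] at hd⟩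
    · rintro m m' rfl rfl p hp _
      exact Or.inl ⟨p, hp, rfl, rfl⟩
  obtain ⟨m, ⟨m', b, rfl, hb, _⟩, _⟩ := (hf_word k D 0 _ _ r _ h0 h.fits h.no_closed).ex (fun _ => 0)
  exact ⟨b, hb⟩

end Pool.Agent.Y510.SL
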