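import Pool.Agent.Y510.SL.AbSolve

/-!
# Uniqueness of the labels at the maxima
-/

set_option autoImplicit false

namespace Pool.Agent.Y510.SL

open Pool.Agent.H835R2.Knot (Piece Word Front Fits run comps up dn sw)
open Pool.Agent.H835R2.Knot.Piece
open Pool.Agent.H838R2.SL

variable {K : Type*} [AddCommGroup K]

def Zs (k : ℕ) (F : Front) (T : ℕ → ℕ) (m : ℕ → K) : Prop :=
  ∀ p < F.n, F.dir p = true → (∃ j < k, T j = p ∧ m p = 0) ∨
    (∃ q < F.n, F.dir q = false ∧ F.fin q = p ∧ m p = -(m q))

def Bs (F : Front) (m : ℕ → K) (x : K) : Prop :=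
  x = 0 ∨ ∃ q < F.n, F.dir q = false ∧ (x = m q ∨ x = -(m q))

theorem Bs.neg {F : Front} {m : ℕ → K} {x : K} (h : Bs F m x) : Bs F m (-x) := by
  rcases h with rfl | ⟨q, hq, hd, rfl | rfl⟩
  · left; exact neg_zero
  · right; exact ⟨q, hq, hd, Or.inr rfl⟩
  · right; exact ⟨q, hq, hd, Or.inl (neg_neg _)⟩

/-- `m` restricted to `{m, 0}` -/
theorem zs_hf {k : ℕ} {F : Front} {T : ℕ → ℕ} {m : ℕ → K} (h : Zs k F T m)
    (p : ℕ) (hp : p < F.n) (hd : F.dir p = true) : Bs F m (m p) := by
  rcases h p hp hd with ⟨j, _, _, h0⟩ | ⟨q, hq, hdq, _, he⟩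
  · exact Or.inl h0
  · exact Or.inr ⟨q, hq, hdq, Or.inr he⟩

theorem zs_birth (k : ℕ) (F : Front) (T : ℕ → ℕ) (i : ℕ) (b : Bool) (x : K) (m : ℕ → K)
    (h : Zs k F T m) (hp : (birth i b).Fits F) :
    Zs k ((birth i b).act F) (exitP (birth i b) F T) (ast (birth i b) x m) ∧
    (∀ y, Bs F m y → Bs ((birth i b).act F) (ast (birth i b) x m) y) ∧
    Bs ((birth i b).act F) (ast (birth i b) x m) x := by
  simp only [Piece.Fits] at hp
  have hn : ((birth i b).act F).n = F.n + 2 := rfl
  refine ⟨?_, ?_, ?_⟩
  · intro p hpn hd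
    rw [hn] at hpn
    rcases pos_cases i p with rfl | rfl | ⟨q', rfl⟩
    · right
      have hb : b = true := by simpa [Piece.act] using hd
      subst hb
      refine ⟨p + 1, by rw [hn]; omega, by simp [Piece.act], by simp [Piece.act], ?_⟩
      simp [ast]
    · right
      have hb : b = false := by simpa [Piece.act] using hd
      subst hb
      refine ⟨i, by rw [hn]; omega, by simp [Piece.act], by simp [Piece.act], ?_⟩
      simp [ast]
    · rw [act_dir_birth] at hd
      have hq' := (up_lt hp q').1 hpn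
      rw [ast_birth_up]
      rcases h q' hq' hd with ⟨j, hj, hT, he⟩ | ⟨q, hq, hdq, hf, he⟩
      · left
        exact ⟨j, hj, by simp only [exitP, hT], he⟩
      · right
        refine ⟨up i q, by rw [hn]; exact (up_lt hp q).2 hq, ?_, ?_, ?_⟩
        · rw [act_dir_birth]; exact hdq
        · rw [act_fin_birth, hf]
        · rw [ast_birth_up]; exact he
  · rintro y (rfl | ⟨q, hq, hdq, he⟩)
    · exact Or.inl rfl
    · right
      refine ⟨up i q, by rw [hn]; exact (up_lt hp q).2 hq, ?_, ?_⟩
      · rw [act_dir_birth]; exact hdq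
      · rw [ast_birth_up]; exact he
  · right
    cases b
    · exact ⟨i, by rw [hn]; omega, by simp [Piece.act], Or.inl (by simp [ast])⟩
    · exact ⟨i + 1, by rw [hn]; omega, by simp [Piece.act], Or.inr (by simp [ast])⟩

theorem zs_cross (k : ℕ) (F F' : Front) (T T' : ℕ → ℕ) (i : ℕ) (m m' : ℕ → K)
    (h : Zs k F T m) (hp : i + 2 ≤ F.n) (hn : F'.n = F.n)
    (hdir : ∀ p, F'.dir p = F.dir (sw i p)) (hfin : ∀ p, F'.fin p = sw i (F.fin (sw i p)))
    (hT : ∀ j, T' j = sw i (T j))
    (hm : ∀ p, m' p = m (sw i p)) :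
    Zs k F' T' m' ∧ (∀ y, Bs F m y → Bs F' m' y) := by
  constructor
  · intro p hpn hd
    rw [hn] at hpn
    rw [hdir] at hd
    rcases h (sw i p) ((sw_lt hp p).2 hpn) hd with ⟨j, hj, hTj, he⟩ | ⟨q, hq, hdq, hf, he⟩
    · left
      exact ⟨j, hj, by rw [hT, hTj, sw_sw], by rw [hm]; exact he⟩
    · right
      refine ⟨sw i q, by rw [hn]; exact (sw_lt hp q).2 hq, ?_, ?_, ?_⟩
      · rw [hdir, sw_sw]; exact hdq
      · rw [hfin, sw_sw, hf, sw_sw]
      · rw [hm, hm, sw_sw]; exact he
  · rintro y (rfl | ⟨q, hq, hdq, he⟩)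
    · exact Or.inl rfl
    · right
      refine ⟨sw i q, by rw [hn]; exact (sw_lt hp q).2 hq, ?_, ?_⟩
      · rw [hdir, sw_sw]; exact hdq
      · rw [hm, sw_sw]; exact he

theorem zs_death (k : ℕ) (F : Front) (T : ℕ → ℕ) (i : ℕ) (x : K) (m : ℕ → K)
    (h : Zs k F T m) (hp : (death i).Fits F) (hc : (death i).closes F = false)
    (hr : ad (death i) m = 0) :
    Zs k ((death i).act F) (exitP (death i) F T) (ast (death i) x m) ∧
    (∀ y, Bs F m y → Bs ((death i).act F) (ast (death i) x m) y) := by
  simp only [Piece.Fits] at hp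
  obtain ⟨hn, hdd⟩ := hp
  obtain ⟨ho, hi, hoi⟩ := out_inn F i hdd
  simp only [Piece.closes, decide_eq_false_iff_not] at hc
  have hin : F.inn i < F.n := by rcases hoi with h | h <;> omega
  have hon : F.out i < F.n := by rcases hoi with h | h <;> omega
  have hsum : m (F.out i) + m (F.inn i) = 0 := by
    rw [← hr]
    simp only [ad]
    rcases hoi with ⟨h1, h2⟩ | ⟨h1, h2⟩
    · rw [h1, h2]
    · rw [h1, h2, add_comm]
  have hio : m (F.inn i) = -(m (F.out i)) := (neg_eq_of_add_eq_zero_right hsum).symm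
  have hn' : ((death i).act F).n = F.n - 2 := rfl
  have hold : ∀ q, q ≠ F.out i → q ≠ F.inn i → up i (dn i q) = q := by
    intro q h1 h2
    apply up_dn
    · rintro rfl
      rcases hoi with h | h
      · exact h1 h.1.symm
      · exact h2 h.2.symm
    · rintro rfl
      rcases hoi with h | h
      · exact h2 h.2.symm
      · exact h1 h.1.symm
  constructor
  · intro p hpn hd
    rw [hn'] at hpn
    simp only [Piece.act] at hd
    have hp' : up i p < F.n := (up_lt' hn p).2 hpn
    have hpo : up i p ≠ F.out i := by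
      rcases hoi with h | h
      · rw [h.1]; exact up_ne i p
      · rw [h.1]; exact up_ne' i p
    rcases h (up i p) hp' hd with ⟨j, hj, hT, he⟩ | ⟨q, hq, hdq, hf, he⟩
    · left
      refine ⟨j, hj, ?_, he⟩
      simp only [exitP]
      rw [if_neg (by rw [hT]; exact hpo), hT, dn_up]
    · by_cases hqi : q = F.inn i
      · subst hqi
        rcases h (F.out i) hon ho with ⟨j, hj, hT, he'⟩ | ⟨q2, hq2, hdq2, hf2, he'⟩
        · left
          refine ⟨j, hj, ?_, ?_⟩
          · simp only [exitP]
            rw [if_pos hT, hf, dn_up]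
          · simp only [ast]
            rw [he, hio, he', neg_zero, neg_zero]
        · right
          have hq2i : q2 ≠ F.inn i := by
            rintro rfl
            exact hpo (hf.symm.trans hf2)
          have hq2o : q2 ≠ F.out i := by
            rintro rfl
            rw [ho] at hdq2; cases hdq2
          have hu := hold q2 hq2o hq2i
          refine ⟨dn i q2, ?_, ?_, ?_, ?_⟩
          · rw [hn']; rw [← up_lt' hn, hu]; exact hq2
          · simp only [Piece.act]; rw [hu]; exact hdq2
          · simp only [Piece.act]; rw [hu, if_pos hf2, hf, dn_up]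
          · simp only [ast]; rw [hu, he, hio, he', neg_neg]
      · right
        have hqo : q ≠ F.out i := by
          rintro rfl
          rw [ho] at hdq; cases hdq
        have hu := hold q hqo hqi
        refine ⟨dn i q, ?_, ?_, ?_, ?_⟩
        · rw [hn']; rw [← up_lt' hn, hu]; exact hq
        · simp only [Piece.act]; rw [hu]; exact hdq
        · simp only [Piece.act]; rw [hu, hf, if_neg hpo, dn_up]
        · simp only [ast]; rw [hu]; exact he
  · have key : ∀ q < F.n, F.dir q = false → Bs ((death i).act F) (ast (death i) x m) (m q) := by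
      intro q hq hdq
      by_cases hqi : q = F.inn i
      · subst hqi
        rw [hio]
        rcases h (F.out i) hon ho with ⟨j, hj, hT, he'⟩ | ⟨q2, hq2, hdq2, hf2, he'⟩
        · rw [he', neg_zero]; exact Or.inl rfl
        · have hq2i : q2 ≠ F.inn i := by
            rintro rfl
            exact hc hf2
          have hq2o : q2 ≠ F.out i := by
            rintro rfl
            rw [ho] at hdq2; cases hdq2
          have hu := hold q2 hq2o hq2i
          right
          refine ⟨dn i q2, ?_, ?_, Or.inl ?_⟩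
          · rw [hn']; rw [← up_lt' hn, hu]; exact hq2
          · simp only [Piece.act]; rw [hu]; exact hdq2
          · simp only [ast]; rw [hu, he', neg_neg]
      · have hqo : q ≠ F.out i := by
          rintro rfl
          rw [ho] at hdq; cases hdq
        have hu := hold q hqo hqi
        right
        refine ⟨dn i q, ?_, ?_, Or.inl ?_⟩
        · rw [hn']; rw [← up_lt' hn, hu]; exact hq
        · simp only [Piece.act]; rw [hu]; exact hdq
        · simp only [ast]; rw [hu]
    rintro y (rfl | ⟨q, hq, hdq, rfl | rfl⟩)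
    · exact Or.inl rfl
    · exact key q hq hdq
    · exact (key q hq hdq).neg

theorem zs_word (k : ℕ) (w : Word) : ∀ (l : ℕ) (F : Front) (T : ℕ → ℕ) (b m : ℕ → K),
    Zs k F T m → FGd k F T → Fits w F → comps w F = 0 → (∀ n, IsD w l n → adv w l b m n = 0) →
    Zs k (run w F) (exits w F T) (arun w l b m) ∧ FGd k (run w F) (exits w F T) ∧
      (∀ y, Bs F m y → Bs (run w F) (arun w l b m) y) ∧
      (∀ n, IsB w l n → Bs (run w F) (arun w l b m) (b n)) := by
  induction w with
  | nil =>
    intro l F T b m h hg _ _ _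
    exact ⟨h, hg, fun y hy => hy, fun n hn => hn.elim⟩
  | cons p w ih =>
    intro l F T b m h hg hf hc hr
    simp only [comps] at hc
    have hcl : p.closes F = false := by
      by_contra hne
      rw [Bool.not_eq_false] at hne
      rw [if_pos hne] at hc
      omega
    have hc' : comps w (p.act F) = 0 := by
      rw [hcl] at hc; simpa using hc
    have hstep : Zs k (p.act F) (exitP p F T) (ast p (b l) m) ∧
        (∀ y, Bs F m y → Bs (p.act F) (ast p (b l) m) y) ∧
        ((∃ i c, p = birth i c) → Bs (p.act F) (ast p (b l) m) (b l)) := by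
      cases p with
      | birth i c =>
        obtain ⟨h1, h2, h3⟩ := zs_birth k F T i c (b l) m h hf.1
        exact ⟨h1, h2, fun _ => h3⟩
      | death i =>
        have h0 := hr l (Or.inl ⟨rfl, i, rfl⟩)
        simp only [adv, if_true] at h0
        obtain ⟨h1, h2⟩ := zs_death k F T i (b l) m h hf.1 hcl h0
        exact ⟨h1, h2, by simp⟩
      | pos i =>
        obtain ⟨h1, h2⟩ := zs_cross k F ((pos i).act F) T (exitP (pos i) F T) i m
          (ast (pos i) (b l) m) h hf.1 rfl (fun _ => rfl) (fun _ => rfl) (fun _ => rfl) (fun _ => rfl)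
        exact ⟨h1, h2, by simp⟩
      | neg i =>
        obtain ⟨h1, h2⟩ := zs_cross k F ((neg i).act F) T (exitP (neg i) F T) i m
          (ast (neg i) (b l) m) h hf.1 rfl (fun _ => rfl) (fun _ => rfl) (fun _ => rfl) (fun _ => rfl)
        exact ⟨h1, h2, by simp⟩
    obtain ⟨s1, s2, s3⟩ := hstep
    have hr' : ∀ n, IsD w (l + 1) n → adv w (l + 1) b (ast p (b l) m) n = 0 := by
      intro n hn
      have := hr n (Or.inr hn)
      have h1 := hn.le
      simp only [adv] at this
      rwa [if_neg (by omega)] at this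
    obtain ⟨r1, r2, r3, r4⟩ := ih (l + 1) (p.act F) (exitP p F T) b (ast p (b l) m) s1
      (fgd_step k F T p hg hf.1 hcl) hf.2 hc' hr'
    refine ⟨r1, r2, fun y hy => r3 y (s2 y hy), ?_⟩
    rintro n (⟨rfl, hi⟩ | hn)
    · exact r3 _ (s3 hi)
    · exact r4 n hn

/-- If the labels at the top and the sums at the minima are zero, then so are all labels. -/
theorem ab_unique {k : ℕ} {D : Word} (h : IsStringLink k D) (b m : ℕ → K)
    (hm : ∀ j < k, m j = 0) (hd : ∀ n, IsD D 0 n → adv D 0 b m n = 0) :
    (∀ n, IsB D 0 n → b n = 0) ∧ ∀ p < k, arun D 0 b m p = 0 := by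
  have h0 : Zs k (start k) (fun j => j) m := fun p hp _ => Or.inl ⟨p, hp, rfl, hm p hp⟩
  obtain ⟨h1, h2, _, h4⟩ := zs_word k D 0 (start k) (fun j => j) b m h0 (fgd_start k) h.fits
    h.no_closed hd
  have hup : ∀ q < (run D (start k)).n, (run D (start k)).dir q = true := by
    intro q hq
    rw [h.bottom] at hq
    have := h2.hT q hq
    rwa [h.ends q hq] at this
  constructor
  · intro n hn
    rcases h4 n hn with h5 | ⟨q, hq, hdq, _⟩
    · exact h5
    · rw [hup q hq] at hdq; cases hdq
  · intro p hp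
    rcases h1 p (by rw [h.bottom]; exact hp) (hup p (by rw [h.bottom]; exact hp)) with
      ⟨_, _, _, h5⟩ | ⟨q, hq, hdq, _⟩
    · exact h5
    · rw [hup q hq] at hdq; cases hdq

end Pool.Agent.Y510.SL
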