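import Pool.Agent.Y510.SL.GpHom

/-!
# Homomorphisms which agree on the meridians
-/

set_option autoImplicit false

namespace Pool.Agent.Y510.SL

/-- a Heisenberg group -/
@[ext] structure Hei (V : Type*) where
  u : ℤ
  v : V
  z : V

namespace Hei

variable {V : Type*} [AddCommGroup V]

instance : Mul (Hei V) := ⟨fun a b => ⟨a.u + b.u, a.v + b.v, a.z + b.z + a.u • b.v⟩⟩
instance : One (Hei V) := ⟨⟨0, 0, 0⟩⟩
instance : Inv (Hei V) := ⟨fun a => ⟨-a.u, -a.v, -a.z + a.u • a.v⟩⟩

@[simp] theorem mul_u (a b : Hei V) : (a * b).u = a.u + b.u := rfl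
@[simp] theorem mul_v (a b : Hei V) : (a * b).v = a.v + b.v := rfl
@[simp] theorem mul_z (a b : Hei V) : (a * b).z = a.z + b.z + a.u • b.v := rfl
@[simp] theorem one_u : (1 : Hei V).u = 0 := rfl
@[simp] theorem one_v : (1 : Hei V).v = 0 := rfl
@[simp] theorem one_z : (1 : Hei V).z = 0 := rfl
@[simp] theorem inv_u (a : Hei V) : (a⁻¹).u = -a.u := rfl
@[simp] theorem inv_v (a : Hei V) : (a⁻¹).v = -a.v := rfl
@[simp] theorem inv_z (a : Hei V) : (a⁻¹).z = -a.z + a.u • a.v := rfl

instance : Group (Hei V) := Group.ofLeftAxioms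
  (by
    intro a b c
    ext
    · simp [add_assoc]
    · simp [add_assoc]
    · simp [add_smul, smul_add]; abel)
  (by
    intro a
    ext <;> simp)
  (by
    intro a
    ext
    · simp
    · simp
    · simp)

def projU : Hei V →* Multiplicative ℤ where
  toFun a := Multiplicative.ofAdd a.u
  map_one' := rfl
  map_mul' _ _ := rfl

def projV : Hei V →* Multiplicative V where
  toFun a := Multiplicative.ofAdd a.v
  map_one' := rfl
  map_mul' _ _ := rfl

theorem conj_z (x l : Hei V) (hx : x.v = 0) : (l⁻¹ * x * l).z = x.z + x.u • l.v ∧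
    (l⁻¹ * x * l).v = 0 ∧ (l⁻¹ * x * l).u = x.u := by
  refine ⟨?_, ?_, ?_⟩
  · simp only [mul_z, inv_z, mul_u, inv_u, hx]
    simp only [add_smul, neg_smul, smul_zero]
    abel
  · simp [hx]
  · simp

end Hei

/-- the relation between the peripheral elements -/
theorem hei_rel {V : Type*} [AddCommGroup V] (x0 x1 l0 l1 : Hei V) (h0 : x0.v = 0) (h1 : x1.v = 0)
    (rel : x0 * x1 = (l0⁻¹ * x0 * l0) * (l1⁻¹ * x1 * l1)) : x0.u • l0.v + x1.u • l1.v = 0 := by
  have h := congrArg Hei.z rel
  obtain ⟨a1, a2, a3⟩ := Hei.conj_z x0 l0 h0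
  obtain ⟨b1, b2, b3⟩ := Hei.conj_z x1 l1 h1
  rw [Hei.mul_z, Hei.mul_z, a1, a3, b1, b2, h1] at h
  simp only [smul_zero, add_zero] at h
  have h2 : x0.z + x1.z + (x0.u • l0.v + x1.u • l1.v) = x0.z + x1.z + 0 := by
    rw [add_zero]
    rw [← sub_eq_zero]
    have h3 := sub_eq_zero.2 h.symm
    rw [← h3]
    abel
  exact add_left_cancel h2

section

variable {G N A : Type*} [Group G] [IsFreeGroup G] [Group N] [Ring A] (X : FG N A)

/-- Let `a` and `b` be homomorphisms from the free group with the generators `x0, x1, l0, l1` to a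
nilpotent group, which factor through a subgroup of a free group in which the peripheral relation
holds. If they agree on `x0` and `x1`, then they are equal. -/
theorem agree {n : ℕ} (hn : X.J n = ⊥) (x0 x1 l0 l1 : G)
    (rel : x0 * x1 = (l0⁻¹ * x0 * l0) * (l1⁻¹ * x1 * l1))
    (ξ η : G →* Multiplicative ℤ) (hξ0 : ξ x0 = Multiplicative.ofAdd 1) (hξ1 : ξ x1 = 1)
    (hη0 : η x0 = 1) (hη1 : η x1 = Multiplicative.ofAdd 1)
    (a b : FreeGroup (Fin 4) →* N)
    (ha : ∀ w, FreeGroup.lift ![x0, x1, l0, l1] w = 1 → a w = 1)
    (hb : ∀ w, FreeGroup.lift ![x0, x1, l0, l1] w = 1 → b w = 1)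
    (h0 : a (FreeGroup.of 0) = b (FreeGroup.of 0)) (h1 : a (FreeGroup.of 1) = b (FreeGroup.of 1)) :
    a = b := by
  let α : FreeGroup (Fin 4) →* G := FreeGroup.lift ![x0, x1, l0, l1]
  have : IsFreeGroup α.range := inferInstance
  -- a section
  have hsurj : ∀ g : IsFreeGroup.Generators α.range, ∃ w, α w = (IsFreeGroup.of g : α.range) :=
    fun g => (IsFreeGroup.of g : α.range).2
  choose s hs using hsurj
  let σ : α.range →* FreeGroup (Fin 4) := IsFreeGroup.lift s
  have hσ : ∀ r : α.range, α (σ r) = r := by
    have : (α.comp σ) = α.range.subtype := by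
      apply IsFreeGroup.ext_hom
      intro g
      simp only [MonoidHom.comp_apply, σ, IsFreeGroup.lift_of]
      rw [hs]
      rfl
    intro r
    exact DFunLike.congr_fun this r
  let e : FreeGroup (Fin 4) →* FreeGroup (Fin 4) := σ.comp α.rangeRestrict
  have he : ∀ w, α (e w) = α w := fun w => hσ _
  have hae : ∀ w, a (e w) = a w := by
    intro w
    have := ha (w⁻¹ * e w) (by change α (w⁻¹ * e w) = 1; rw [map_mul, map_inv, he, inv_mul_cancel])
    rw [map_mul, map_inv, inv_mul_eq_one] at this
    exact this.symm
  have hbe : ∀ w, b (e w) = b w := by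
    intro w
    have := hb (w⁻¹ * e w) (by change α (w⁻¹ * e w) = 1; rw [map_mul, map_inv, he, inv_mul_cancel])
    rw [map_mul, map_inv, inv_mul_eq_one] at this
    exact this.symm
  set f0 : FreeGroup (Fin 4) := FreeGroup.of 0 with hf0
  set f1 : FreeGroup (Fin 4) := FreeGroup.of 1 with hf1
  set f2 : FreeGroup (Fin 4) := FreeGroup.of 2 with hf2
  set f3 : FreeGroup (Fin 4) := FreeGroup.of 3 with hf3
  have hα0 : α f0 = x0 := by simp [α, f0]
  have hα1 : α f1 = x1 := by simp [α, f1]
  have hα2 : α f2 = l0 := by simp [α, f2]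
  have hα3 : α f3 = l1 := by simp [α, f3]
  have her : e f0 * e f1 = ((e f2)⁻¹ * e f0 * e f2) * ((e f3)⁻¹ * e f1 * e f3) := by
    have : α.rangeRestrict (f0 * f1) = α.rangeRestrict ((f2⁻¹ * f0 * f2) * (f3⁻¹ * f1 * f3)) := by
      apply Subtype.ext
      change α (f0 * f1) = α ((f2⁻¹ * f0 * f2) * (f3⁻¹ * f1 * f3))
      simp only [map_mul, map_inv, hα0, hα1, hα2, hα3]
      exact rel
    have := congrArg σ this
    have h2 : e (f0 * f1) = e ((f2⁻¹ * f0 * f2) * (f3⁻¹ * f1 * f3)) := this
    simpa only [map_mul, map_inv] using h2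
  have key : ∀ s, 1 ≤ s → ∀ w, X.val (a w) - X.val (b w) ∈ X.J s := by
    intro s hs
    induction s, hs using Nat.le_induction with
    | base =>
      intro w
      have := (X.J 1).sub_mem (X.mem (a w)) (X.mem (b w))
      convert this using 1
      abel
    | succ s hs ih =>
      let V := A ⧸ X.J (s + 1)
      let d : FreeGroup (Fin 4) →* Multiplicative V :=
        { toFun := fun w => Multiplicative.ofAdd
            (QuotientAddGroup.mk' (X.J (s + 1)) (X.val (a w) - X.val (b w)))
          map_one' := by simp
          map_mul' := by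
            intro w w'
            rw [← ofAdd_add, ← map_add]
            congr 1
            rw [← sub_eq_zero, ← map_sub]
            apply (QuotientAddGroup.eq_zero_iff _).2
            have q1 := X.mul2 hs (a w') (ih w)
            have q2 := X.mul1 hs (b w) (ih w')
            have := (X.J (s + 1)).add_mem q1 q2
            convert this using 1
            rw [map_mul, map_mul, map_mul, map_mul]
            noncomm_ring }
      have hde : ∀ w, d (e w) = d w := by
        intro w
        simp only [d, MonoidHom.coe_mk, OneHom.coe_mk, hae, hbe]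
      have hd0 : d f0 = 1 := by
        simp only [d, MonoidHom.coe_mk, OneHom.coe_mk, h0, sub_self, map_zero, ofAdd_zero]
      have hd1 : d f1 = 1 := by
        simp only [d, MonoidHom.coe_mk, OneHom.coe_mk, h1, sub_self, map_zero, ofAdd_zero]
      -- the Heisenberg group
      have main : ∀ ζ : G →* Multiplicative ℤ,
          (Multiplicative.toAdd (ζ x0)) • (Multiplicative.toAdd (d f2)) +
          (Multiplicative.toAdd (ζ x1)) • (Multiplicative.toAdd (d f3)) = 0 := by
        intro ζ
        let H : FreeGroup (Fin 4) →* Hei V := FreeGroup.lift fun i =>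
          ⟨Multiplicative.toAdd (ζ (α (FreeGroup.of i))), Multiplicative.toAdd (d (FreeGroup.of i)), 0⟩
        have hu : ∀ w, (H w).u = Multiplicative.toAdd (ζ (α w)) := by
          have : (Hei.projU (V := V)).comp H = ζ.comp α := by
            apply FreeGroup.ext_hom
            intro i
            simp only [MonoidHom.comp_apply, H, FreeGroup.lift_apply_of]
            rfl
          intro w
          have := DFunLike.congr_fun this w
          exact congrArg Multiplicative.toAdd this
        have hv : ∀ w, (H w).v = Multiplicative.toAdd (d w) := by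
          have : (Hei.projV (V := V)).comp H = d := by
            apply FreeGroup.ext_hom
            intro i
            simp only [MonoidHom.comp_apply, H, FreeGroup.lift_apply_of]
            rfl
          intro w
          have := DFunLike.congr_fun this w
          exact congrArg Multiplicative.toAdd this
        have hrel := congrArg H her
        simp only [map_mul, map_inv] at hrel
        have hr := hei_rel (H (e f0)) (H (e f1)) (H (e f2)) (H (e f3))
          (by rw [hv, hde, hd0]; rfl) (by rw [hv, hde, hd1]; rfl) hrel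
        rw [hu, hu, hv, hv, he, he, hde, hde, hα0, hα1] at hr
        exact hr
      have m0 := main ξ
      rw [hξ0, hξ1] at m0
      simp only [toAdd_ofAdd, one_smul, toAdd_one, zero_zsmul, add_zero] at m0
      have m1 := main η
      rw [hη0, hη1] at m1
      simp only [toAdd_ofAdd, one_smul, toAdd_one, zero_zsmul, zero_add] at m1
      have hd : d = 1 := by
        apply FreeGroup.ext_hom
        intro i
        fin_cases i
        · exact hd0
        · exact hd1
        · exact Multiplicative.toAdd.injective m0
        · exact Multiplicative.toAdd.injective m1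
      intro w
      have := DFunLike.congr_fun hd w
      have h3 : QuotientAddGroup.mk' (X.J (s + 1)) (X.val (a w) - X.val (b w)) = 0 :=
        congrArg Multiplicative.toAdd this
      exact (QuotientAddGroup.eq_zero_iff _).1 h3
  ext w : 1
  have := X.anti n (key (n + 1) (by omega) (FreeGroup.of w))
  rw [hn, AddSubgroup.mem_bot, sub_eq_zero] at this
  exact X.inj this

end

end Pool.Agent.Y510.SL
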