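import Pool.Agent.Y510.SL.Gen

/-!
# Labelings of diagrams in groups, and the local moves
-/

set_option autoImplicit false

namespace Pool.Agent.Y510.SL

open Pool.Agent.H835R2.Knot (Piece Word Front Fits run comps Move up dn sw)
open Pool.Agent.H835R2.Knot.Piece
open Pool.Agent.H838R2.SL

variable {G : Type*} [Group G]

/-- the usual crossing rules -/
def ru : Rule G := fun _ p a b => match p with
  | .neg _ => (a * b * a⁻¹, a)
  | _ => (b, b⁻¹ * a * b)

/-- `m'` are the labels below the word `w` in a labeling of the diagram with labels `m` above it. -/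
def Col : Word → (ℕ → G) → (ℕ → G) → Prop
  | [], m, m' => m' = m
  | p :: w, m, m' => gd p m = 1 ∧ ∃ x, Col w (gst ru 0 p x m) m'

theorem col_append (u w : Word) (m m' : ℕ → G) :
    Col (u ++ w) m m' ↔ ∃ m1, Col u m m1 ∧ Col w m1 m' := by
  induction u generalizing m with
  | nil => simp [Col]
  | cons p u ih =>
    simp only [List.cons_append, Col, ih]
    constructor
    · rintro ⟨h, x, m1, h1, h2⟩; exact ⟨m1, ⟨h, x, h1⟩, h2⟩
    · rintro ⟨m1, ⟨h, x, h1⟩, h2⟩; exact ⟨h, x, m1, h1, h2⟩

/-- the new labels of a piece -/
def nw (p : Piece) (x : G) (m : ℕ → G) : G × G := match p with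
  | .birth _ _ => (x, x⁻¹)
  | .death _ => (1, 1)
  | .pos i => (m (i + 1), (m (i + 1))⁻¹ * m i * m (i + 1))
  | .neg i => (m i * m (i + 1) * (m i)⁻¹, m i)

theorem gst_eq (l : ℕ) (p : Piece) (x : G) (m : ℕ → G) (z : ℕ) :
    gst ru l p x m z = if z < p.index then m z else if z < p.index + p.outs then
      (if z = p.index then (nw p x m).1 else (nw p x m).2) else m (z + p.ins - p.outs) := by
  cases p with
  | birth i b =>
    change (if z < i then m z else if z = i then x else if z = i + 1 then x⁻¹ else m (z - 2)) =
      if z < i then m z else if z < i + 2 then (if z = i then x else x⁻¹) else m (z + 0 - 2)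
    rcases lt_trichotomy z i with h | h | h
    · rw [if_pos h, if_pos h]
    · rw [if_neg (by omega), if_pos h, if_neg (by omega), if_pos (by omega), if_pos h]
    · by_cases h' : z = i + 1
      · rw [if_neg (by omega), if_neg (by omega), if_pos h', if_neg (by omega), if_pos (by omega),
          if_neg (by omega)]
      · rw [if_neg (by omega), if_neg (by omega), if_neg h', if_neg (by omega), if_neg (by omega)]
        exact congrArg m (by omega)
  | death i =>
    change m (if z < i then z else z + 2) =
      if z < i then m z else if z < i + 0 then (if z = i then 1 else 1) else m (z + 2 - 0)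
    by_cases h : z < i
    · rw [if_pos h, if_pos h]
    · rw [if_neg h, if_neg h, if_neg (by omega)]
      exact congrArg m (by omega)
  | pos i =>
    change (if z = i then m (i + 1) else if z = i + 1 then (m (i + 1))⁻¹ * m i * m (i + 1) else m z) =
      if z < i then m z else if z < i + 2 then (if z = i then m (i + 1) else
        (m (i + 1))⁻¹ * m i * m (i + 1)) else m (z + 2 - 2)
    rcases lt_trichotomy z i with h | h | h
    · rw [if_neg (by omega), if_neg (by omega), if_pos h]
    · rw [if_pos h, if_neg (by omega), if_pos (by omega), if_pos h]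
    · by_cases h' : z = i + 1
      · rw [if_neg (by omega), if_pos h', if_neg (by omega), if_pos (by omega),
          if_neg (by omega)]
      · rw [if_neg (by omega), if_neg h', if_neg (by omega), if_neg (by omega)]
        exact congrArg m (by omega)
  | neg i =>
    change (if z = i then m i * m (i + 1) * (m i)⁻¹ else if z = i + 1 then m i else m z) =
      if z < i then m z else if z < i + 2 then (if z = i then m i * m (i + 1) * (m i)⁻¹ else
        m i) else m (z + 2 - 2)
    rcases lt_trichotomy z i with h | h | h
    · rw [if_neg (by omega), if_neg (by omega), if_pos h]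
    · rw [if_pos h, if_neg (by omega), if_pos (by omega), if_pos h]
    · by_cases h' : z = i + 1
      · rw [if_neg (by omega), if_pos h', if_neg (by omega), if_pos (by omega),
          if_neg (by omega)]
      · rw [if_neg (by omega), if_neg h', if_neg (by omega), if_neg (by omega)]
        exact congrArg m (by omega)

theorem nw_congr (p : Piece) (x : G) (m m' : ℕ → G) (h : ∀ e < p.ins, m' (p.index + e) = m (p.index + e)) :
    nw p x m' = nw p x m := by
  cases p <;> simp only [nw]
  all_goals
    simp only [Piece.ins, Piece.index] at h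
    have h0 := h 0 (by omega)
    have h1 := h 1 (by omega)
    simp only [Nat.add_zero] at h0
    rw [h0, h1]

theorem gd_congr (p : Piece) (m m' : ℕ → G) (h : ∀ e < p.ins, m' (p.index + e) = m (p.index + e)) :
    gd p m' = gd p m := by
  cases p <;> simp only [gd]
  simp only [Piece.ins, Piece.index] at h
  have h0 := h 0 (by omega)
  have h1 := h 1 (by omega)
  simp only [Nat.add_zero] at h0
  rw [h0, h1]

theorem nw_moved (p : Piece) (x : G) (m m' : ℕ → G) (j : ℕ)
    (h : ∀ e < p.ins, m' (j + e) = m (p.index + e)) :
    nw (p.moved j) x m' = nw p x m := by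
  cases p <;> simp only [nw, Piece.moved]
  all_goals
    simp only [Piece.ins, Piece.index] at h
    have h0 := h 0 (by omega)
    have h1 := h 1 (by omega)
    simp only [Nat.add_zero] at h0
    rw [h0, h1]

theorem gd_moved (p : Piece) (m m' : ℕ → G) (j : ℕ)
    (h : ∀ e < p.ins, m' (j + e) = m (p.index + e)) :
    gd (p.moved j) m' = gd p m := by
  cases p <;> simp only [gd, Piece.moved]
  simp only [Piece.ins, Piece.index] at h
  have h0 := h 0 (by omega)
  have h1 := h 1 (by omega)
  simp only [Nat.add_zero] at h0
  rw [h0, h1]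

theorem index_moved (p : Piece) (j : ℕ) : (p.moved j).index = j := by cases p <;> rfl
theorem ins_moved (p : Piece) (j : ℕ) : (p.moved j).ins = p.ins := by cases p <;> rfl
theorem outs_moved (p : Piece) (j : ℕ) : (p.moved j).outs = p.outs := by cases p <;> rfl

theorem ins_le (p : Piece) : (p.ins = 0 ∨ p.ins = 2) ∧ (p.outs = 0 ∨ p.outs = 2) := by
  cases p <;> simp [Piece.ins, Piece.outs]

theorem exchange_aux (p q : Piece) (h : p.index + p.ins ≤ q.index) (x y : G) (m : ℕ → G) :
    gst ru 0 (q.moved (q.index + p.outs - p.ins)) y (gst ru 0 p x m) =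
      gst ru 0 p x (gst ru 0 q y m) ∧
    gd (q.moved (q.index + p.outs - p.ins)) (gst ru 0 p x m) = gd q m ∧
    gd p (gst ru 0 q y m) = gd p m := by
  have hp := ins_le p
  have hq := ins_le q
  have e1 : ∀ e, gst ru 0 p x m (q.index + p.outs - p.ins + e) = m (q.index + e) := by
    intro e
    rw [gst_eq, if_neg (by omega), if_neg (by omega)]
    congr 1
    omega
  have e2 : ∀ e < p.ins, gst ru 0 q y m (p.index + e) = m (p.index + e) := by
    intro e he
    rw [gst_eq, if_pos (by omega)]
  refine ⟨?_, gd_moved q _ _ _ (fun e _ => e1 e), gd_congr p _ _ e2⟩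
  have n1 := nw_moved q y m (gst ru 0 p x m) _ (fun e _ => e1 e)
  have n2 := nw_congr p x m (gst ru 0 q y m) e2
  funext z
  rw [gst_eq 0 (q.moved _), gst_eq 0 p x (gst ru 0 q y m), index_moved, ins_moved, outs_moved, n1, n2]
  by_cases c1 : z < p.index
  · rw [if_pos (by omega), if_pos c1, gst_eq, if_pos c1, gst_eq, if_pos (by omega)]
  by_cases c2 : z < p.index + p.outs
  · rw [if_pos (by omega), if_neg c1, if_pos c2, gst_eq, if_neg c1, if_pos c2]
  by_cases c3 : z < q.index + p.outs - p.ins
  · rw [if_pos c3, if_neg c1, if_neg c2, gst_eq, if_neg c1, if_neg c2, gst_eq, if_pos (by omega)]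
  by_cases c4 : z < q.index + p.outs - p.ins + q.outs
  · have k1 : ¬ (z + p.ins - p.outs < q.index) := by omega
    have k2 : z + p.ins - p.outs < q.index + q.outs := by omega
    by_cases c5 : z = q.index + p.outs - p.ins
    · have k3 : z + p.ins - p.outs = q.index := by omega
      rw [if_neg c3, if_pos c4, if_pos c5, if_neg c1, if_neg c2, gst_eq, if_neg k1, if_pos k2,
        if_pos k3]
    · have k3 : ¬ (z + p.ins - p.outs = q.index) := by omega
      rw [if_neg c3, if_pos c4, if_neg c5, if_neg c1, if_neg c2, gst_eq, if_neg k1, if_pos k2,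
        if_neg k3]
  · rw [if_neg c3, if_neg c4, if_neg c1, if_neg c2, gst_eq, if_neg (by omega), if_neg (by omega),
      gst_eq, if_neg (by omega), if_neg (by omega)]
    congr 1
    omega

theorem col_exchange (p q : Piece) (h : p.index + p.ins ≤ q.index) (m m' : ℕ → G) :
    Col [p, q.moved (q.index + p.outs - p.ins)] m m' ↔ Col [q, p] m m' := by
  simp only [Col]
  constructor
  · rintro ⟨h1, x, h2, y, rfl⟩
    obtain ⟨e1, e2, e3⟩ := exchange_aux p q h x y m
    exact ⟨by rw [← e2]; exact h2, y, by rw [e3]; exact h1, x, e1⟩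
  · rintro ⟨h1, y, h2, x, rfl⟩
    obtain ⟨e1, e2, e3⟩ := exchange_aux p q h x y m
    exact ⟨by rw [← e3]; exact h2, x, by rw [e2]; exact h1, y, e1.symm⟩

end Pool.Agent.Y510.SL
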