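import Pool.Agent.Y510.SL.Moves

/-!
# Labels at the bottom of a string link are conjugate to those at the top
-/

set_option autoImplicit false

namespace Pool.Agent.Y510.SL

open Pool.Agent.H835R2.Knot (Piece Word Front Fits run comps Move up dn sw)
open Pool.Agent.H835R2.Knot.Piece
open Pool.Agent.H838R2.SL

variable {G : Type*} [Group G]

theorem gst_place (l l' : ℕ) (p : Piece) (x : G) (m : ℕ → G) : gst ru l p x m = gst ru l' p x m := by
  cases p <;> rfl

theorem col_iff (w : Word) : ∀ (l : ℕ) (m m' : ℕ → G),
    Col w m m' ↔ ∃ b, (∀ n, gdv ru w l b m n = 1) ∧ m' = grun ru w l b m := by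
  induction w with
  | nil =>
    intro l m m'
    simp only [Col, gdv, grun]
    exact ⟨fun h => ⟨fun _ => 1, fun _ => trivial, h⟩, fun ⟨_, _, h⟩ => h⟩
  | cons p w ih =>
    intro l m m'
    simp only [Col]
    constructor
    · rintro ⟨h, x, hx⟩
      rw [gst_place 0 l] at hx
      obtain ⟨b, hb, rfl⟩ := (ih (l + 1) _ _).1 hx
      obtain ⟨e1, e2⟩ := grun_congr ru w (l + 1) b (fun n => if n = l then x else b n)
        (gst ru l p x m) (fun n hn => by have := hn.le; rw [if_neg (by omega)])
      refine ⟨fun n => if n = l then x else b n, fun n => ?_, ?_⟩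
      · simp only [gdv]
        rw [if_pos trivial]
        split_ifs
        · exact h
        · rw [← e2]; exact hb n
      · simp only [grun]
        rw [if_pos trivial]
        exact e1
    · rintro ⟨b, hb, rfl⟩
      refine ⟨?_, b l, ?_⟩
      · have := hb l
        simpa [gdv] using this
      · rw [gst_place 0 l, ih (l + 1)]
        refine ⟨b, fun n => ?_, rfl⟩
        by_cases hn : n = l
        · subst hn
          exact gdv_one ru w _ _ _ _ (fun h => by have := h.le; omega)
        · have := hb n
          simp only [gdv] at this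
          rwa [if_neg hn] at this

/-- For all labels at the top there is exactly one labeling. -/
theorem col_exists {A : Type*} [Ring A] (X : FG G A) {N : ℕ} (hN : X.J N = ⊥) {k : ℕ} {D : Word}
    (h : IsStringLink k D) (t : ℕ → G) : ∃ m', Col D t m' := by
  have hR : ∀ l p, X.RGood (ru l p) := by
    intro l p
    cases p with
    | neg i => exact X.rgood_neg
    | birth i b => exact X.rgood_pos
    | death i => exact X.rgood_pos
    | pos i => exact X.rgood_pos
  obtain ⟨b, hb⟩ := X.gen_exists hN ru hR h t
  exact ⟨_, (col_iff D 0 t _).2 ⟨b, hb, rfl⟩⟩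

theorem col_unique {A : Type*} [Ring A] (X : FG G A) {N : ℕ} (hN : X.J N = ⊥) {k : ℕ} {D : Word}
    (h : IsStringLink k D) {t m m' : ℕ → G} (h1 : Col D t m) (h2 : Col D t m') : m = m' := by
  have hR : ∀ l p, X.RGood (ru l p) := by
    intro l p
    cases p with
    | neg i => exact X.rgood_neg
    | birth i b => exact X.rgood_pos
    | death i => exact X.rgood_pos
    | pos i => exact X.rgood_pos
  obtain ⟨b, hb, rfl⟩ := (col_iff D 0 t _).1 h1
  obtain ⟨b', hb', rfl⟩ := (col_iff D 0 t _).1 h2
  exact X.gen_unique hN ru hR h t b b' hb hb'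

/-! ### conjugacy -/

theorem isConj_inv {a b : G} (h : IsConj a b) : IsConj a⁻¹ b⁻¹ := by
  rw [isConj_iff] at h ⊢
  obtain ⟨c, rfl⟩ := h
  exact ⟨c, by group⟩

def Cs (k : ℕ) (F : Front) (T : ℕ → ℕ) (t m : ℕ → G) : Prop :=
  ∀ p < F.n, F.dir p = true → (∃ j < k, T j = p ∧ IsConj (t j) (m p)) ∨
    (∃ q < F.n, F.dir q = false ∧ F.fin q = p ∧ IsConj (m q)⁻¹ (m p))

theorem gst_birth_up (l i : ℕ) (b : Bool) (x : G) (m : ℕ → G) (p : ℕ) :
    gst ru l (birth i b) x m (up i p) = m p := by
  simp only [gst]
  unfold up
  split_ifs <;> first | rfl | (exfalso; omega)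

theorem cs_birth (k : ℕ) (F : Front) (T : ℕ → ℕ) (t : ℕ → G) (i : ℕ) (b : Bool) (x : G) (m : ℕ → G)
    (h : Cs k F T t m) (hp : (birth i b).Fits F) :
    Cs k ((birth i b).act F) (exitP (birth i b) F T) t (gst ru 0 (birth i b) x m) := by
  simp only [Piece.Fits] at hp
  have hn : ((birth i b).act F).n = F.n + 2 := rfl
  intro p hpn hd
  rw [hn] at hpn
  rcases pos_cases i p with rfl | rfl | ⟨q', rfl⟩
  · right
    have hb : b = true := by simpa [Piece.act] using hd
    subst hb
    refine ⟨p + 1, by rw [hn]; omega, by simp [Piece.act], by simp [Piece.act], ?_⟩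
    rw [b0, b1, inv_inv]
  · right
    have hb : b = false := by simpa [Piece.act] using hd
    subst hb
    refine ⟨i, by rw [hn]; omega, by simp [Piece.act], by simp [Piece.act], ?_⟩
    rw [b0, b1]
  · rw [act_dir_birth] at hd
    have hq' := (up_lt hp q').1 hpn
    rw [gst_birth_up]
    rcases h q' hq' hd with ⟨j, hj, hT, he⟩ | ⟨q, hq, hdq, hf, he⟩
    · left
      exact ⟨j, hj, by simp only [exitP, hT], he⟩
    · right
      refine ⟨up i q, by rw [hn]; exact (up_lt hp q).2 hq, ?_, ?_, ?_⟩
      · rw [act_dir_birth]; exact hdq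
      · rw [act_fin_birth, hf]
      · rw [gst_birth_up]; exact he

theorem cs_cross (k : ℕ) (F F' : Front) (T T' : ℕ → ℕ) (t : ℕ → G) (i : ℕ) (m m' : ℕ → G)
    (h : Cs k F T t m) (hp : i + 2 ≤ F.n) (hn : F'.n = F.n)
    (hdir : ∀ p, F'.dir p = F.dir (sw i p)) (hfin : ∀ p, F'.fin p = sw i (F.fin (sw i p)))
    (hT : ∀ j, T' j = sw i (T j))
    (hm : ∀ p, IsConj (m (sw i p)) (m' p)) :
    Cs k F' T' t m' := by
  intro p hpn hd
  rw [hn] at hpn
  rw [hdir] at hd
  rcases h (sw i p) ((sw_lt hp p).2 hpn) hd with ⟨j, hj, hTj, he⟩ | ⟨q, hq, hdq, hf, he⟩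
  · left
    exact ⟨j, hj, by rw [hT, hTj, sw_sw], he.trans (hm p)⟩
  · right
    refine ⟨sw i q, by rw [hn]; exact (sw_lt hp q).2 hq, ?_, ?_, ?_⟩
    · rw [hdir, sw_sw]; exact hdq
    · rw [hfin, sw_sw, hf, sw_sw]
    · have h1 := hm (sw i q)
      rw [sw_sw] at h1
      exact ((isConj_inv h1).symm.trans he).trans (hm p)

theorem cs_death (k : ℕ) (F : Front) (T : ℕ → ℕ) (t : ℕ → G) (i : ℕ) (x : G) (m : ℕ → G)
    (h : Cs k F T t m) (hp : (death i).Fits F) (hc : (death i).closes F = false)
    (hr : gd (death i) m = 1) :
    Cs k ((death i).act F) (exitP (death i) F T) t (gst ru 0 (death i) x m) := by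
  simp only [Piece.Fits] at hp
  obtain ⟨hn, hdd⟩ := hp
  obtain ⟨ho, hi, hoi⟩ := out_inn F i hdd
  simp only [Piece.closes, decide_eq_false_iff_not] at hc
  have hin : F.inn i < F.n := by rcases hoi with h | h <;> omega
  have hon : F.out i < F.n := by rcases hoi with h | h <;> omega
  simp only [gd] at hr
  have hio : m (F.inn i) = (m (F.out i))⁻¹ := by
    rcases hoi with ⟨h1, h2⟩ | ⟨h1, h2⟩
    · rw [h1, h2]; exact eq_inv_of_mul_eq_one_right hr
    · rw [h1, h2]; exact eq_inv_of_mul_eq_one_left hr
  have hn' : ((death i).act F).n = F.n - 2 := rfl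
  have hold : ∀ q, q ≠ F.out i → q ≠ F.inn i → up i (dn i q) = q := by
    intro q h1 h2
    apply up_dn
    · rintro rfl
      rcases hoi with h | h
      · exact h1 h.1.symm
      · exact h2 h.2.symm
    · rintro rfl
      rcases hoi with h | h
      · exact h2 h.2.symm
      · exact h1 h.1.symm
  intro p hpn hd
  rw [hn'] at hpn
  simp only [Piece.act] at hd
  have hp' : up i p < F.n := (up_lt' hn p).2 hpn
  have hpo : up i p ≠ F.out i := by
    rcases hoi with h | h
    · rw [h.1]; exact up_ne i p
    · rw [h.1]; exact up_ne' i p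
  rcases h (up i p) hp' hd with ⟨j, hj, hT, he⟩ | ⟨q, hq, hdq, hf, he⟩
  · left
    refine ⟨j, hj, ?_, he⟩
    simp only [exitP]
    rw [if_neg (by rw [hT]; exact hpo), hT, dn_up]
  · by_cases hqi : q = F.inn i
    · subst hqi
      rw [hio, inv_inv] at he
      rcases h (F.out i) hon ho with ⟨j, hj, hT, he'⟩ | ⟨q2, hq2, hdq2, hf2, he'⟩
      · left
        refine ⟨j, hj, ?_, ?_⟩
        · simp only [exitP]
          rw [if_pos hT, hf, dn_up]
        · simp only [gst]
          exact he'.trans he
      · right
        have hq2i : q2 ≠ F.inn i := by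
          rintro rfl
          exact hpo (hf.symm.trans hf2)
        have hq2o : q2 ≠ F.out i := by
          rintro rfl
          rw [ho] at hdq2; cases hdq2
        have hu := hold q2 hq2o hq2i
        refine ⟨dn i q2, ?_, ?_, ?_, ?_⟩
        · rw [hn']; rw [← up_lt' hn, hu]; exact hq2
        · simp only [Piece.act]; rw [hu]; exact hdq2
        · simp only [Piece.act]; rw [hu, if_pos hf2, hf, dn_up]
        · simp only [gst]; rw [hu]; exact he'.trans he
    · right
      have hqo : q ≠ F.out i := by
        rintro rfl
        rw [ho] at hdq; cases hdq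
      have hu := hold q hqo hqi
      refine ⟨dn i q, ?_, ?_, ?_, ?_⟩
      · rw [hn']; rw [← up_lt' hn, hu]; exact hq
      · simp only [Piece.act]; rw [hu]; exact hdq
      · simp only [Piece.act]; rw [hu, hf, if_neg hpo, dn_up]
      · simp only [gst]; rw [hu]; exact he

theorem cs_word (k : ℕ) (t : ℕ → G) (w : Word) : ∀ (F : Front) (T : ℕ → ℕ) (m m' : ℕ → G),
    Cs k F T t m → Fits w F → comps w F = 0 → Col w m m' →
    Cs k (run w F) (exits w F T) t m' := by
  induction w with
  | nil =>
    intro F T m m' h _ _ hc
    simp only [Col] at hc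
    subst hc
    exact h
  | cons p w ih =>
    intro F T m m' h hf hc hr
    simp only [comps] at hc
    have hcl : p.closes F = false := by
      by_contra hne
      rw [Bool.not_eq_false] at hne
      rw [if_pos hne] at hc
      omega
    have hc' : comps w (p.act F) = 0 := by
      rw [hcl] at hc; simpa using hc
    simp only [Col] at hr
    obtain ⟨hg, x, hx⟩ := hr
    refine ih (p.act F) (exitP p F T) _ m' ?_ hf.2 hc' hx
    cases p with
    | birth i b => exact cs_birth k F T t i b x m h hf.1
    | death i => exact cs_death k F T t i x m h hf.1 hcl hg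
    | pos i =>
      refine cs_cross k F ((pos i).act F) T (exitP (pos i) F T) t i m
        (gst ru 0 (pos i) x m) h hf.1 rfl (fun _ => rfl) (fun _ => rfl) (fun _ => rfl) ?_
      intro q
      by_cases h1 : q = i
      · subst h1
        rw [p0]
        unfold sw
        rw [if_pos rfl]
      by_cases h2 : q = i + 1
      · subst h2
        rw [p1]
        unfold sw
        rw [if_neg (by omega), if_pos rfl]
        exact isConj_iff.2 ⟨(m (i + 1))⁻¹, by group⟩
      · rw [pl _ _ _ h1 h2]
        unfold sw
        rw [if_neg h1, if_neg h2]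
    | neg i =>
      refine cs_cross k F ((neg i).act F) T (exitP (neg i) F T) t i m
        (gst ru 0 (neg i) x m) h hf.1 rfl (fun _ => rfl) (fun _ => rfl) (fun _ => rfl) ?_
      intro q
      by_cases h1 : q = i
      · subst h1
        rw [n0]
        unfold sw
        rw [if_pos rfl]
        exact isConj_iff.2 ⟨m q, by group⟩
      by_cases h2 : q = i + 1
      · subst h2
        rw [n1]
        unfold sw
        rw [if_neg (by omega), if_pos rfl]
      · rw [nl _ _ _ h1 h2]
        unfold sw
        rw [if_neg h1, if_neg h2]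

/-- The labels at the bottom of a string link are conjugate to those at the top. -/
theorem col_conj {k : ℕ} {D : Word} (h : IsStringLink k D) {t m : ℕ → G} (hc : Col D t m)
    {j : ℕ} (hj : j < k) : IsConj (t j) (m j) := by
  have h0 : Cs k (start k) (fun j => j) t t := fun p hp _ => Or.inl ⟨p, hp, rfl, IsConj.refl _⟩
  have h1 := cs_word k t D (start k) (fun j => j) t m h0 h.fits h.no_closed hc
  -- front facts
  have h2 : FGd k (run D (start k)) (exits D (start k) (fun j => j)) := by
    have aux : ∀ (w : Word) (F : Front) (T : ℕ → ℕ), FGd k F T → Fits w F → comps w F = 0 →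
        FGd k (run w F) (exits w F T) := by
      intro w
      induction w with
      | nil => intro F T h _ _; exact h
      | cons p w ih =>
        intro F T h hf hc
        simp only [comps] at hc
        have hcl : p.closes F = false := by
          by_contra hne
          rw [Bool.not_eq_false] at hne
          rw [if_pos hne] at hc
          omega
        have hc' : comps w (p.act F) = 0 := by
          rw [hcl] at hc; simpa using hc
        exact ih _ _ (fgd_step k F T p h hf.1 hcl) hf.2 hc'
    exact aux D _ _ (fgd_start k) h.fits h.no_closed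
  have hup : ∀ q < (run D (start k)).n, (run D (start k)).dir q = true := by
    intro q hq
    rw [h.bottom] at hq
    have := h2.hT q hq
    rwa [h.ends q hq] at this
  have hjn : j < (run D (start k)).n := by rw [h.bottom]; exact hj
  rcases h1 j hjn (hup j hjn) with ⟨j', hj', hT, he⟩ | ⟨q, hq, hdq, _⟩
  · rw [h.ends j' hj'] at hT
    subst hT
    exact he
  · rw [hup q hq] at hdq; cases hdq

/-! ### the product of all labels -/

/-- the product of the first `n` labels -/
def prd (m : ℕ → G) : ℕ → G
  | 0 => 1
  | n + 1 => prd m n * m n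

theorem prd_congr {m m' : ℕ → G} {n : ℕ} (h : ∀ z < n, m z = m' z) : prd m n = prd m' n := by
  induction n with
  | zero => rfl
  | succ n ih =>
    simp only [prd]
    rw [ih (fun z hz => h z (by omega)), h n (by omega)]

/-- comparison of products after a local change -/
theorem prd_shift {m m' : ℕ → G} {a b : ℕ} (h0 : prd m a = prd m' b) (h : ∀ z, m (a + z) = m' (b + z))
    (n : ℕ) : prd m (a + n) = prd m' (b + n) := by
  induction n with
  | zero => exact h0
  | succ n ih =>
    change prd m (a + n) * m (a + n) = prd m' (b + n) * m' (b + n)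
    rw [ih, h n]

theorem prd_step (F : Front) (p : Piece) (hp : p.Fits F) (x : G) (m : ℕ → G) (hg : gd p m = 1) :
    prd (gst ru 0 p x m) (p.act F).n = prd m F.n := by
  cases p with
  | birth i b =>
    simp only [Piece.Fits] at hp
    have hn : ((birth i b).act F).n = F.n + 2 := rfl
    obtain ⟨c, hc⟩ := Nat.exists_eq_add_of_le hp
    rw [hn, hc, show i + c + 2 = i + 2 + c by omega]
    apply prd_shift
    · change prd _ i * _ * _ = _
      rw [b0, b1, prd_congr (fun z hz => bl x m i b hz)]
      group
    · intro z
      rw [show i + 2 + z = i + z + 2 by omega, bg _ _ _ _ (by omega)]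
  | death i =>
    simp only [Piece.Fits] at hp
    have hn : ((death i).act F).n = F.n - 2 := rfl
    obtain ⟨c, hc⟩ := Nat.exists_eq_add_of_le hp.1
    rw [hn, hc, show i + 2 + c - 2 = i + c by omega]
    apply prd_shift
    · change _ = prd m i * m i * m (i + 1)
      rw [mul_assoc]
      simp only [gd] at hg
      rw [hg, mul_one, prd_congr (fun z hz => dl x m i hz)]
    · intro z
      rw [dg _ _ _ (by omega)]
      exact congrArg m (by omega)
  | pos i =>
    simp only [Piece.Fits] at hp
    have hn : ((pos i).act F).n = F.n := rfl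
    obtain ⟨c, hc⟩ := Nat.exists_eq_add_of_le hp
    rw [hn, hc]
    apply prd_shift
    · change prd _ i * _ * _ = prd m i * m i * m (i + 1)
      rw [p0, p1, prd_congr (m := gst ru 0 (pos i) x m) (m' := m) (n := i)
        (fun z hz => pl x m i (by omega) (by omega))]
      group
    · intro z
      rw [pl _ _ _ (by omega) (by omega)]
  | neg i =>
    simp only [Piece.Fits] at hp
    have hn : ((neg i).act F).n = F.n := rfl
    obtain ⟨c, hc⟩ := Nat.exists_eq_add_of_le hp
    rw [hn, hc]
    apply prd_shift
    · change prd _ i * _ * _ = prd m i * m i * m (i + 1)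
      rw [n0, n1, prd_congr (m := gst ru 0 (neg i) x m) (m' := m) (n := i)
        (fun z hz => nl x m i (by omega) (by omega))]
      group
    · intro z
      rw [nl _ _ _ (by omega) (by omega)]

theorem prd_word (w : Word) : ∀ (F : Front) (m m' : ℕ → G), Fits w F → Col w m m' →
    prd m' (run w F).n = prd m F.n := by
  induction w with
  | nil =>
    intro F m m' _ h
    simp only [Col] at h
    subst h
    rfl
  | cons p w ih =>
    intro F m m' hf h
    simp only [Col] at h
    obtain ⟨hg, x, hx⟩ := h
    have := ih (p.act F) _ m' hf.2 hx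
    rw [prd_step F p hf.1 x m hg] at this
    exact this

theorem col_prd {k : ℕ} {D : Word} (h : IsStringLink k D) {t m : ℕ → G} (hc : Col D t m) :
    prd m k = prd t k := by
  have := prd_word D (start k) t m h.fits hc
  rwa [h.bottom] at this

end Pool.Agent.Y510.SL
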