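import Mathlib
import Pool.Agent.H139R3.BO.FreeInj

/-!
# Countable free groups embed in `SL₂` of a field
-/

set_option autoImplicit false

namespace Pool.Agent.Y510.SL

open Polynomial Matrix

/-- the shift of the generators of `FreeGroup ℤ` -/
def shiftAut : Multiplicative ℤ →* MulAut (FreeGroup ℤ) where
  toFun n := FreeGroup.freeGroupCongr (Equiv.addRight (Multiplicative.toAdd n))
  map_one' := by
    ext x : 1
    simp [FreeGroup.freeGroupCongr]
  map_mul' a b := by
    ext x : 1
    change FreeGroup.map _ x = FreeGroup.map _ (FreeGroup.map _ x)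
    rw [FreeGroup.map.comp]
    congr 2
    funext i
    simp
    ring

/-- `i ↦ aⁱ b a⁻ⁱ` -/
def jz : FreeGroup ℤ →* FreeGroup (Fin 2) :=
  FreeGroup.lift fun i => FreeGroup.of 0 ^ i * FreeGroup.of 1 * (FreeGroup.of 0 ^ i)⁻¹

theorem jz_injective : Function.Injective jz := by
  let q : FreeGroup (Fin 2) →* SemidirectProduct (FreeGroup ℤ) (Multiplicative ℤ) shiftAut :=
    FreeGroup.lift ![SemidirectProduct.inr (Multiplicative.ofAdd 1), SemidirectProduct.inl (FreeGroup.of 0)]
  have h : q.comp jz = SemidirectProduct.inl := by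
    apply FreeGroup.ext_hom
    intro i
    simp only [MonoidHom.comp_apply, jz, FreeGroup.lift_apply_of, map_mul, map_inv, map_zpow, q]
    change (SemidirectProduct.inr (Multiplicative.ofAdd 1)) ^ i * SemidirectProduct.inl (FreeGroup.of 0) *
      ((SemidirectProduct.inr (Multiplicative.ofAdd 1)) ^ i)⁻¹ = _
    rw [← map_zpow, ← map_inv, ← SemidirectProduct.inl_aut]
    congr 1
    change FreeGroup.map _ (FreeGroup.of 0) = _
    rw [FreeGroup.map.of]
    congr 1
    simp
  intro x y hxy
  have := congrArg q hxy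
  have e : ∀ z, q (jz z) = SemidirectProduct.inl z := fun z => DFunLike.congr_fun h z
  rw [e, e] at this
  exact SemidirectProduct.inl_injective this

/-- the two generators in `SL₂(ℤ[X])` -/
noncomputable def sl2gen : Fin 2 → Matrix.SpecialLinearGroup (Fin 2) ℤ[X] :=
  ![⟨!![1, X; 0, 1], by simp [Matrix.det_fin_two]⟩, ⟨!![1, 0; X, 1], by simp [Matrix.det_fin_two]⟩]

noncomputable def rhoS : FreeGroup (Fin 2) →* Matrix.SpecialLinearGroup (Fin 2) ℤ[X] :=
  FreeGroup.lift sl2gen

open Pool.Agent.H139R3.BO in
theorem rhoS_injective : Function.Injective rhoS := by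
  have h : ∀ w, ((rhoS w : Matrix.SpecialLinearGroup (Fin 2) ℤ[X]) : Matrix (Fin 2) (Fin 2) ℤ[X]) =
      (rho w : MM) := by
    have : (Matrix.SpecialLinearGroup.toGL.comp rhoS : FreeGroup (Fin 2) →* (Matrix (Fin 2) (Fin 2) ℤ[X])ˣ) =
        rho := by
      apply FreeGroup.ext_hom
      intro i
      apply Units.ext
      fin_cases i
      · simp only [MonoidHom.comp_apply, rhoS, rho, FreeGroup.lift_apply_of]
        change (!![1, X; 0, 1] : Matrix (Fin 2) (Fin 2) ℤ[X]) = 1 + (1 : ℤ) • N0
        ext i j
        fin_cases i <;> fin_cases j <;> simp [N0]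
      · simp only [MonoidHom.comp_apply, rhoS, rho, FreeGroup.lift_apply_of]
        change (!![1, 0; X, 1] : Matrix (Fin 2) (Fin 2) ℤ[X]) = 1 + (1 : ℤ) • N1
        ext i j
        fin_cases i <;> fin_cases j <;> simp [N1]
    intro w
    have h2 := DFunLike.congr_fun this w
    exact congrArg Units.val h2
  intro x y hxy
  apply rho_injective
  apply Units.ext
  rw [← h, ← h, hxy]

/-- Countable free groups embed in `SL₂` of a field. -/
theorem exists_embedding (G : Type) [Group G] [IsFreeGroup G] [Countable G] :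
    ∃ (K : Type) (_ : Field K) (ρ : G →* Matrix.SpecialLinearGroup (Fin 2) K),
      Function.Injective ρ := by
  have hc : Countable (IsFreeGroup.Generators G) := by
    have : Function.Injective (IsFreeGroup.of : IsFreeGroup.Generators G → G) :=
      (IsFreeGroup.mulEquiv G).injective.comp FreeGroup.of_injective
    exact this.countable
  obtain ⟨ι, hι⟩ := Countable.exists_injective_nat (IsFreeGroup.Generators G)
  let e1 : G →* FreeGroup (IsFreeGroup.Generators G) := (IsFreeGroup.toFreeGroup G).toMonoidHom
  let e2 : FreeGroup (IsFreeGroup.Generators G) →* FreeGroup ℤ := FreeGroup.map (fun z => (ι z : ℤ))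
  let K := FractionRing ℤ[X]
  let e3 : Matrix.SpecialLinearGroup (Fin 2) ℤ[X] →* Matrix.SpecialLinearGroup (Fin 2) K :=
    Matrix.SpecialLinearGroup.map (algebraMap ℤ[X] K)
  refine ⟨K, inferInstance, e3.comp (rhoS.comp (jz.comp (e2.comp e1))), ?_⟩
  have i1 : Function.Injective e1 := (IsFreeGroup.toFreeGroup G).injective
  have i2 : Function.Injective e2 := FreeGroup.map_injective (fun x y h => hι (by exact_mod_cast h))
  have i3 : Function.Injective e3 := by
    intro a b hab
    apply Matrix.SpecialLinearGroup.ext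
    intro i j
    have := congrArg (fun M : Matrix.SpecialLinearGroup (Fin 2) K => (M : Matrix (Fin 2) (Fin 2) K) i j) hab
    exact IsFractionRing.injective ℤ[X] K this
  rw [MonoidHom.coe_comp, MonoidHom.coe_comp, MonoidHom.coe_comp, MonoidHom.coe_comp]
  exact i3.comp (rhoS_injective.comp (jz_injective.comp (i2.comp i1)))

end Pool.Agent.Y510.SL
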