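import Pool.Agent.Y510.SL.Mat

/-!
# A string link with nonzero invariant
-/

set_option autoImplicit false
set_option maxRecDepth 100000

namespace Pool.Agent.Y510.SL

open Pool.Agent.H835R2.Knot (Piece Word Front Fits run comps Move crossingSet switchAt up dn sw)
open Pool.Agent.H835R2.Knot.Piece
open Pool.Agent.H838R2.SL

/-- the string link -/
def D0 : Word := [.neg 0, .birth 2 true, .pos 1, .pos 1, .neg 0, .neg 1, .neg 1, .neg 1, .pos 0, .neg 1, .death 2]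

/-- the identity -/
def idL : LM := [[1, 0, 0, 0, 0, 0, 0, 0, 0, 0], [0, 1, 0, 0, 0, 0, 0, 0, 0, 0], [0, 0, 1, 0, 0, 0, 0, 0, 0, 0], [0, 0, 0, 1, 0, 0, 0, 0, 0, 0], [0, 0, 0, 0, 1, 0, 0, 0, 0, 0], [0, 0, 0, 0, 0, 1, 0, 0, 0, 0], [0, 0, 0, 0, 0, 0, 1, 0, 0, 0], [0, 0, 0, 0, 0, 0, 0, 1, 0, 0], [0, 0, 0, 0, 0, 0, 0, 0, 1, 0], [0, 0, 0, 0, 0, 0, 0, 0, 0, 1]]

/-- the matrices of the arcs -/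
def arcs : List LM := [
  [[1, 0, 0, 0, 0, 0, 0, 0, 0, 0], [0, 1, 1, 0, 0, 0, 0, 0, 0, 0], [0, 0, 1, 0, 0, 0, 0, 0, 0, 0], [0, 0, 0, 1, 0, 0, 0, 0, 0, 0], [0, 0, 0, 0, 1, 0, 0, 0, 0, 0], [0, 0, 0, 0, 0, 1, 0, 0, 0, 0], [0, 0, 0, 0, 0, 0, 1, 1, 0, 0], [0, 0, 0, 0, 0, 0, 0, 1, 1, 0], [0, 0, 0, 0, 0, 0, 0, 0, 1, 1], [0, 0, 0, 0, 0, 0, 0, 0, 0, 1]],
  [[1, 1, 0, 0, 0, 0, 0, 0, 0, 0], [0, 1, 0, 0, 0, 0, 0, 0, 0, 0], [0, 0, 1, 1, 0, 0, 0, 0, 0, 0], [0, 0, 0, 1, 1, 0, 0, 0, 0, 0], [0, 0, 0, 0, 1, 1, 0, 0, 0, 0], [0, 0, 0, 0, 0, 1, 1, 0, 0, 0], [0, 0, 0, 0, 0, 0, 1, 0, 0, 0], [0, 0, 0, 0, 0, 0, 0, 1, 0, 0], [0, 0, 0, 0, 0, 0, 0, 0, 1, 0], [0, 0, 0, 0, 0, 0, 0, 0, 0, 1]],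
  [[1, 1, -1, 0, 0, 0, 0, 0, 0, 0], [0, 1, 0, 1, 0, 0, 0, 0, 0, 0], [0, 0, 1, 1, 0, 0, 0, 0, 0, 0], [0, 0, 0, 1, 1, 0, 0, 0, 0, 0], [0, 0, 0, 0, 1, 1, 0, 0, 0, 0], [0, 0, 0, 0, 0, 1, 1, -1, 1, -1], [0, 0, 0, 0, 0, 0, 1, 0, 0, 0], [0, 0, 0, 0, 0, 0, 0, 1, 0, 0], [0, 0, 0, 0, 0, 0, 0, 0, 1, 0], [0, 0, 0, 0, 0, 0, 0, 0, 0, 1]],
  [[1, 0, 1, -1, 1, -1, 1, -18, 38, -23], [0, 1, 1, -1, 1, -1, 1, -7, 7, 35], [0, 0, 1, 0, 0, 0, 0, 0, 0, 7], [0, 0, 0, 1, 0, 0, 0, 0, -1, 18], [0, 0, 0, 0, 1, 0, 0, 0, -4, 20], [0, 0, 0, 0, 0, 1, 0, 1, -4, 9], [0, 0, 0, 0, 0, 0, 1, 1, 0, 0], [0, 0, 0, 0, 0, 0, 0, 1, 1, 0], [0, 0, 0, 0, 0, 0, 0, 0, 1, 1], [0, 0, 0, 0, 0, 0, 0, 0, 0, 1]],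
  [[1, 0, 0, 0, 0, 0, 0, -1, 17, -37], [0, 1, 1, 0, 0, 0, 0, -1, 6, 1], [0, 0, 1, 0, 0, 0, 0, 0, 0, 0], [0, 0, 0, 1, 0, 0, 0, 0, 0, 1], [0, 0, 0, 0, 1, 0, 0, 0, 0, 4], [0, 0, 0, 0, 0, 1, 0, 0, -1, 4], [0, 0, 0, 0, 0, 0, 1, 1, 0, 0], [0, 0, 0, 0, 0, 0, 0, 1, 1, 0], [0, 0, 0, 0, 0, 0, 0, 0, 1, 1], [0, 0, 0, 0, 0, 0, 0, 0, 0, 1]],
  [[1, 0, 1, -1, 1, -1, 1, -17, 22, -3], [0, 1, 1, -1, 1, -1, 1, -6, 2, 28], [0, 0, 1, 0, 0, 0, 0, 0, 0, 7], [0, 0, 0, 1, 0, 0, 0, 0, -1, 17], [0, 0, 0, 0, 1, 0, 0, 0, -4, 16], [0, 0, 0, 0, 0, 1, 0, 1, -3, 6], [0, 0, 0, 0, 0, 0, 1, 1, 0, 0], [0, 0, 0, 0, 0, 0, 0, 1, 1, 0], [0, 0, 0, 0, 0, 0, 0, 0, 1, 1], [0, 0, 0, 0, 0, 0, 0, 0, 0, 1]],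
  [[1, 0, 1, -1, 1, -1, 1, -3, 24, -37], [0, 1, 1, -1, 1, -1, 1, -2, 7, 1], [0, 0, 1, 0, 0, 0, 0, 0, 0, 1], [0, 0, 0, 1, 0, 0, 0, 0, 0, 5], [0, 0, 0, 0, 1, 0, 0, 0, -1, 8], [0, 0, 0, 0, 0, 1, 0, 1, -2, 5], [0, 0, 0, 0, 0, 0, 1, 1, 0, 0], [0, 0, 0, 0, 0, 0, 0, 1, 1, 0], [0, 0, 0, 0, 0, 0, 0, 0, 1, 1], [0, 0, 0, 0, 0, 0, 0, 0, 0, 1]],
  [[1, 0, 2, -4, 6, -8, 10, -31, 32, 10], [0, 1, 1, -2, 3, -4, 5, -10, 5, 41], [0, 0, 1, 0, 0, 0, 0, 0, -1, 24], [0, 0, 0, 1, 0, 0, 0, 0, -5, 33], [0, 0, 0, 0, 1, 0, 0, 1, -7, 22], [0, 0, 0, 0, 0, 1, 0, 2, -4, 7], [0, 0, 0, 0, 0, 0, 1, 1, 0, 0], [0, 0, 0, 0, 0, 0, 0, 1, 1, 0], [0, 0, 0, 0, 0, 0, 0, 0, 1, 1], [0, 0, 0, 0, 0, 0, 0, 0, 0, 1]],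
  [[1, 1, -2, 4, -7, 10, -13, 18, -22, -11], [0, 1, 0, 2, -2, 3, -4, 4, 0, -39], [0, 0, 1, 1, 0, 0, 0, 0, 5, -38], [0, 0, 0, 1, 1, 0, 0, -1, 8, -30], [0, 0, 0, 0, 1, 1, 0, -2, 6, -13], [0, 0, 0, 0, 0, 1, 1, -2, 3, -4], [0, 0, 0, 0, 0, 0, 1, 0, 0, 0], [0, 0, 0, 0, 0, 0, 0, 1, 0, 0], [0, 0, 0, 0, 0, 0, 0, 0, 1, 0], [0, 0, 0, 0, 0, 0, 0, 0, 0, 1]],
  [[1, 0, 3, -9, 18, -30, 45, -74, 85, -13], [0, 1, 1, -3, 6, -10, 15, -21, 14, 70], [0, 0, 1, 0, 0, 0, 0, 0, -6, 62], [0, 0, 0, 1, 0, 0, 0, 1, -13, 63], [0, 0, 0, 0, 1, 0, 0, 3, -13, 35], [0, 0, 0, 0, 0, 1, 0, 3, -6, 10], [0, 0, 0, 0, 0, 0, 1, 1, 0, 0], [0, 0, 0, 0, 0, 0, 0, 1, 1, 0], [0, 0, 0, 0, 0, 0, 0, 0, 1, 1], [0, 0, 0, 0, 0, 0, 0, 0, 0, 1]],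
  [[1, 1, -3, 6, -9, 12, -15, 29, -40, -38], [0, 1, 0, 3, -3, 4, -5, 6, 1, -87], [0, 0, 1, 1, 0, 0, 0, 0, 6, -62], [0, 0, 0, 1, 1, 0, 0, -1, 13, -63], [0, 0, 0, 0, 1, 1, 0, -3, 13, -35], [0, 0, 0, 0, 0, 1, 1, -3, 6, -10], [0, 0, 0, 0, 0, 0, 1, 0, 0, 0], [0, 0, 0, 0, 0, 0, 0, 1, 0, 0], [0, 0, 0, 0, 0, 0, 0, 0, 1, 0], [0, 0, 0, 0, 0, 0, 0, 0, 0, 1]],
  [[1, 0, -2, 4, -6, 8, -10, 23, -35, -13], [0, 1, -1, 2, -3, 4, -5, 6, -5, -25], [0, 0, 1, 0, 0, 0, 0, 0, 1, -25], [0, 0, 0, 1, 0, 0, 0, 0, 5, -37], [0, 0, 0, 0, 1, 0, 0, -1, 8, -26], [0, 0, 0, 0, 0, 1, 0, -2, 5, -9], [0, 0, 0, 0, 0, 0, 1, -1, 1, -1], [0, 0, 0, 0, 0, 0, 0, 1, -1, 1], [0, 0, 0, 0, 0, 0, 0, 0, 1, -1], [0, 0, 0, 0, 0, 0, 0, 0, 0, 1]],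
  [[1, -1, 3, -6, 12, -20, 30, -53, 65, -21], [0, 1, 0, -3, 6, -10, 15, -21, 20, 8], [0, 0, 1, -1, 1, -1, 1, -1, 0, 24], [0, 0, 0, 1, -1, 1, -1, 1, -6, 38], [0, 0, 0, 0, 1, -1, 1, 0, -7, 25], [0, 0, 0, 0, 0, 1, -1, 3, -6, 10], [0, 0, 0, 0, 0, 0, 1, 0, 0, 0], [0, 0, 0, 0, 0, 0, 0, 1, 0, 0], [0, 0, 0, 0, 0, 0, 0, 0, 1, 0], [0, 0, 0, 0, 0, 0, 0, 0, 0, 1]],
  [[1, -1, 2, -2, 3, -4, 5, -17, 12, 40], [0, 1, 0, -2, 3, -4, 5, -6, 0, 4], [0, 0, 1, -1, 1, -1, 1, -1, 0, 6], [0, 0, 0, 1, -1, 1, -1, 1, -1, 18], [0, 0, 0, 0, 1, -1, 1, -1, -4, 14], [0, 0, 0, 0, 0, 1, -1, 2, -3, 4], [0, 0, 0, 0, 0, 0, 1, 0, 0, 0], [0, 0, 0, 0, 0, 0, 0, 1, 0, 0], [0, 0, 0, 0, 0, 0, 0, 0, 1, 0], [0, 0, 0, 0, 0, 0, 0, 0, 0, 1]],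
  [[1, 0, -1, 1, -1, 1, -1, 18, -33, 15], [0, 1, -1, 1, -1, 1, -1, 7, -1, -37], [0, 0, 1, 0, 0, 0, 0, 0, 0, -7], [0, 0, 0, 1, 0, 0, 0, 0, 1, -19], [0, 0, 0, 0, 1, 0, 0, 0, 4, -22], [0, 0, 0, 0, 0, 1, 0, -1, 5, -10], [0, 0, 0, 0, 0, 0, 1, -1, 1, -1], [0, 0, 0, 0, 0, 0, 0, 1, -1, 1], [0, 0, 0, 0, 0, 0, 0, 0, 1, -1], [0, 0, 0, 0, 0, 0, 0, 0, 0, 1]],
  [[1, 0, -2, 4, -6, 8, -10, 25, -30, -13], [0, 1, -1, 2, -3, 4, -5, 7, 1, -29], [0, 0, 1, 0, 0, 0, 0, 0, 1, -26], [0, 0, 0, 1, 0, 0, 0, 0, 5, -41], [0, 0, 0, 0, 1, 0, 0, -1, 9, -31], [0, 0, 0, 0, 0, 1, 0, -2, 6, -10], [0, 0, 0, 0, 0, 0, 1, -1, 1, -1], [0, 0, 0, 0, 0, 0, 0, 1, -1, 1], [0, 0, 0, 0, 0, 0, 0, 0, 1, -1], [0, 0, 0, 0, 0, 0, 0, 0, 0, 1]],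
  [[1, 0, -1, 1, -1, 1, -1, 16, -34, 24], [0, 1, -1, 1, -1, 1, -1, 6, -5, -25], [0, 0, 1, 0, 0, 0, 0, 0, 0, -6], [0, 0, 0, 1, 0, 0, 0, 0, 1, -15], [0, 0, 0, 0, 1, 0, 0, 0, 3, -16], [0, 0, 0, 0, 0, 1, 0, -1, 4, -8], [0, 0, 0, 0, 0, 0, 1, -1, 1, -1], [0, 0, 0, 0, 0, 0, 0, 1, -1, 1], [0, 0, 0, 0, 0, 0, 0, 0, 1, -1], [0, 0, 0, 0, 0, 0, 0, 0, 0, 1]],
  [[1, 0, -1, 1, -1, 1, -1, 13, -14, -43], [0, 1, -1, 1, -1, 1, -1, 2, 5, -13], [0, 0, 1, 0, 0, 0, 0, 0, 1, -8], [0, 0, 0, 1, 0, 0, 0, 0, 0, -17], [0, 0, 0, 0, 1, 0, 0, 0, 5, -19], [0, 0, 0, 0, 0, 1, 0, -1, 3, -4], [0, 0, 0, 0, 0, 0, 1, -1, 1, -1], [0, 0, 0, 0, 0, 0, 0, 1, -1, 1], [0, 0, 0, 0, 0, 0, 0, 0, 1, -1], [0, 0, 0, 0, 0, 0, 0, 0, 0, 1]],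
  [[1, 0, 0, 0, 0, 0, 0, 9, -16, 17], [0, 1, -1, 0, 0, 0, 0, 4, -3, -16], [0, 0, 1, 0, 0, 0, 0, 0, 0, -1], [0, 0, 0, 1, 0, 0, 0, 0, 0, -4], [0, 0, 0, 0, 1, 0, 0, 0, 1, -6], [0, 0, 0, 0, 0, 1, 0, 0, 1, -2], [0, 0, 0, 0, 0, 0, 1, -1, 1, -1], [0, 0, 0, 0, 0, 0, 0, 1, -1, 1], [0, 0, 0, 0, 0, 0, 0, 0, 1, -1], [0, 0, 0, 0, 0, 0, 0, 0, 0, 1]],
  [[1, -1, 1, -2, 3, -4, 5, -8, -3, 37], [0, 1, 0, -1, 2, -3, 4, -1, -4, 1], [0, 0, 1, -1, 1, -1, 1, 0, -1, 6], [0, 0, 0, 1, -1, 1, -1, 0, 0, 13], [0, 0, 0, 0, 1, -1, 1, 0, -4, 9], [0, 0, 0, 0, 0, 1, -1, 1, -1, 1], [0, 0, 0, 0, 0, 0, 1, 0, 0, 0], [0, 0, 0, 0, 0, 0, 0, 1, 0, 0], [0, 0, 0, 0, 0, 0, 0, 0, 1, 0], [0, 0, 0, 0, 0, 0, 0, 0, 0, 1]],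
  [[1, 0, 1, 1, 0, 0, 0, 0, 0, 1], [0, 1, -1, -1, 0, 0, 0, 0, 0, 0], [0, 0, 1, 0, 0, 0, 0, -1, 1, -1], [0, 0, 0, 1, 0, 0, 0, 1, -1, 1], [0, 0, 0, 0, 1, 0, 0, -1, 1, -1], [0, 0, 0, 0, 0, 1, 0, 1, -1, 1], [0, 0, 0, 0, 0, 0, 1, -1, 1, -1], [0, 0, 0, 0, 0, 0, 0, 1, -1, 1], [0, 0, 0, 0, 0, 0, 0, 0, 1, -1], [0, 0, 0, 0, 0, 0, 0, 0, 0, 1]],
  [[1, -1, 0, 0, 0, 0, 0, 0, 0, -1], [0, 1, 0, 0, 0, 0, 0, 0, 0, 0], [0, 0, 1, -1, 1, -1, 1, 0, 0, 0], [0, 0, 0, 1, -1, 1, -1, 0, 0, 0], [0, 0, 0, 0, 1, -1, 1, 0, 0, 0], [0, 0, 0, 0, 0, 1, -1, 0, 0, 0], [0, 0, 0, 0, 0, 0, 1, 0, 0, 0], [0, 0, 0, 0, 0, 0, 0, 1, 0, 0], [0, 0, 0, 0, 0, 0, 0, 0, 1, 0], [0, 0, 0, 0, 0, 0, 0, 0, 0, 1]],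
  [[1, 0, -1, 1, -1, 1, -1, 0, 0, 0], [0, 1, 0, 1, -1, 1, -1, 0, 0, 0], [0, 0, 1, 0, 0, 0, 0, 0, 0, 0], [0, 0, 0, 1, 0, 0, 0, 0, 0, 0], [0, 0, 0, 0, 1, 0, 0, 0, 0, 0], [0, 0, 0, 0, 0, 1, 0, -1, 1, -1], [0, 0, 0, 0, 0, 0, 1, 0, 0, 0], [0, 0, 0, 0, 0, 0, 0, 1, 0, 0], [0, 0, 0, 0, 0, 0, 0, 0, 1, 0], [0, 0, 0, 0, 0, 0, 0, 0, 0, 1]],
  [[1, 0, 1, -1, 1, -1, 1, 0, 0, 0], [0, 1, 0, -1, 1, -1, 1, 0, 0, 0], [0, 0, 1, 0, 0, 0, 0, 0, 0, 0], [0, 0, 0, 1, 0, 0, 0, 0, 0, 0], [0, 0, 0, 0, 1, 0, 0, 0, 0, 0], [0, 0, 0, 0, 0, 1, 0, 1, 0, 0], [0, 0, 0, 0, 0, 0, 1, 0, 0, 0], [0, 0, 0, 0, 0, 0, 0, 1, 0, 0], [0, 0, 0, 0, 0, 0, 0, 0, 1, 0], [0, 0, 0, 0, 0, 0, 0, 0, 0, 1]],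
  [[1, 0, 0, 0, 0, 0, 0, 0, 0, -1], [0, 1, 0, 0, 0, 0, 0, 0, 0, 0], [0, 0, 1, 0, 0, 0, 0, 0, 0, 0], [0, 0, 0, 1, 0, 0, 0, 0, 0, 0], [0, 0, 0, 0, 1, 0, 0, 0, 0, 0], [0, 0, 0, 0, 0, 1, 0, 0, 0, 0], [0, 0, 0, 0, 0, 0, 1, 0, 0, 0], [0, 0, 0, 0, 0, 0, 0, 1, 0, 0], [0, 0, 0, 0, 0, 0, 0, 0, 1, 0], [0, 0, 0, 0, 0, 0, 0, 0, 0, 1]]]

def top1 : List SLab := [(0, true), (1, true)]
def cer1 : List SLab := [(2, true), (3, true), (4, true), (5, true), (6, true), (7, true), (8, true), (9, true), (3, true), (10, true), (0, true)]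
def bo1 : List SLab := [(9, true), (10, true)]
def top2 : List SLab := [(11, true), (12, true)]
def cer2 : List SLab := [(13, true), (14, true), (15, true), (16, true), (17, true), (18, true), (19, true), (20, true), (14, true), (21, true), (0, true)]
def bo2 : List SLab := [(20, true), (21, true)]

-- s0=0 s1=1 y0=9 y1=10 z0=11 z1=12 w0=20 w1=21 e1=22 e2=23 d=24
/-- the matrices as a function -/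
def A0 (k : ℕ) : LM := arcs.getD k idL

theorem arcs_uni : arcs.all (uni 10) = true := by decide +kernel

theorem idL_uni : uni 10 idL = true := by decide +kernel

theorem A0_uni (k : ℕ) : uni 10 (A0 k) = true := by
  unfold A0
  rw [List.getD_eq_getElem?_getD]
  cases h : arcs[k]? with
  | none => exact idL_uni
  | some r =>
    have := List.all_eq_true.1 arcs_uni r (List.mem_of_getElem? h)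
    exact this

theorem run1 : crun 10 A0 D0 cer1 top1 = some bo1 := by decide +kernel

theorem run2 : crun 10 A0 D0 cer2 top2 = some bo2 := by decide +kernel

theorem D0_link : IsStringLink 2 D0 where
  fits := by decide +kernel
  no_closed := by decide +kernel
  bottom := by decide +kernel
  ends := by decide +kernel

/-! ### the value -/

theorem ten : 1 ≤ 10 := by norm_num

/-- the elements of the group of unitriangular matrices -/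
noncomputable def uA (k : ℕ) : (FM 10 ten).U := toU 10 ten (A0 k)

theorem uA_val (k : ℕ) : (FM 10 ten).fg.val (uA k) = toMat 10 (A0 k) := toU_val ten (A0_uni k)

theorem uA_mul {a b c : ℕ} (h : mulL (A0 a) (A0 b) = A0 c) : uA a * uA b = uA c :=
  toU_mul_eq1 ten (A0_uni a) (A0_uni b) (A0_uni c) h

theorem mulL_len (A B : LM) : (mulL A B).length = A.length := by simp [mulL]

theorem uA_mul3 {a b c d e : ℕ} (h : mulL (A0 a) (mulL (A0 b) (A0 c)) = mulL (A0 d) (A0 e)) :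
    uA a * (uA b * uA c) = uA d * uA e := by
  apply (FM 10 ten).fg.inj
  rw [map_mul, map_mul, map_mul, uA_val, uA_val, uA_val, uA_val, uA_val,
    ← toMat_mul _ _ (uni_len (A0_uni c)).le, ← toMat_mul _ _ (uni_len (A0_uni e)).le,
    ← toMat_mul _ _ (by rw [mulL_len]; exact (uni_len (A0_uni b)).le), h]

theorem uA_one : uA 25 = 1 := by
  have : uA 25 * uA 0 = uA 0 := uA_mul (by decide +kernel)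
  exact mul_eq_right.1 this

theorem col1 : ∃ m, Col D0 (tops (uA 0) (uA 1)) m ∧ m 0 = uA 9 ∧ m 1 = uA 10 := by
  obtain ⟨m, h1, h2⟩ := crun_spec ten A0_uni D0 cer1 top1 bo1 (tops (uA 0) (uA 1))
    (by
      intro z a ha
      rcases z with _ | _ | z
      · simp only [top1, List.getElem?_cons_zero, Option.some.injEq] at ha
        rw [← ha]; rfl
      · simp only [top1, List.getElem?_cons_succ, List.getElem?_cons_zero, Option.some.injEq] at ha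
        rw [← ha]; rfl
      · simp [top1] at ha) run1
  refine ⟨m, h1, ?_, ?_⟩
  · exact h2 0 (9, true) rfl
  · exact h2 1 (10, true) rfl

theorem col2 : ∃ m, Col D0 (tops (uA 11) (uA 12)) m ∧ m 0 = uA 20 ∧ m 1 = uA 21 := by
  obtain ⟨m, h1, h2⟩ := crun_spec ten A0_uni D0 cer2 top2 bo2 (tops (uA 11) (uA 12))
    (by
      intro z a ha
      rcases z with _ | _ | z
      · simp only [top2, List.getElem?_cons_zero, Option.some.injEq] at ha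
        rw [← ha]; rfl
      · simp only [top2, List.getElem?_cons_succ, List.getElem?_cons_zero, Option.some.injEq] at ha
        rw [← ha]; rfl
      · simp [top2] at ha) run2
  refine ⟨m, h1, ?_, ?_⟩
  · exact h2 0 (20, true) rfl
  · exact h2 1 (21, true) rfl

theorem val_D0 : val2 (FM 10 ten) (uA 0) (uA 1) D0 D0_link = uA 24 := by
  obtain ⟨m, h1, h2, h3⟩ := col1
  obtain ⟨m', h4, h5, h6⟩ := col2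
  have e1 : uA 12 = (m 1)⁻¹ := by
    rw [h3]
    have := uA_mul (a := 12) (b := 10) (c := 25) (by decide +kernel)
    rw [uA_one] at this
    exact eq_inv_of_mul_eq_one_left this
  have e0 : uA 11 = (m 1)⁻¹ * (m 0)⁻¹ * m 1 := by
    rw [h2, h3]
    have := uA_mul3 (a := 9) (b := 10) (c := 11) (d := 10) (e := 25) (by decide +kernel)
    rw [uA_one, mul_one] at this
    rw [mul_assoc, eq_inv_mul_iff_mul_eq, eq_inv_mul_iff_mul_eq]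
    exact this
  rw [e0, e1] at h4
  rw [val2_eq (FM 10 ten) (uA 0) (uA 1) D0_link h1 h4, h6]
  exact uA_mul (by decide +kernel)

/-- the entry in the corner -/
def corner : Matrix (Fin 10) (Fin 10) ℚ →+ ℚ where
  toFun := fun M => M 0 9
  map_zero' := rfl
  map_add' := fun _ _ => rfl

theorem corner_one : corner 1 = 0 := by
  change (1 : Matrix (Fin 10) (Fin 10) ℚ) 0 9 = 0
  exact Matrix.one_apply_ne (by decide)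

theorem value : inv2 (FM 10 ten) (uA 0) (uA 1) corner (mk D0 D0_link) = -1 := by
  rw [inv2_mk, val_D0, uA_val]
  change ((((A0 24).getD 0 []).getD 9 0 : ℤ) : ℚ) = -1
  have : ((A0 24).getD 0 []).getD 9 0 = -1 := by decide +kernel
  rw [this]
  norm_num

theorem noncomm : (uA 0 * uA 1 * (uA 0)⁻¹ * (uA 1)⁻¹) * ((uA 0)⁻¹ * uA 1 * uA 0 * (uA 1)⁻¹) ≠
    ((uA 0)⁻¹ * uA 1 * uA 0 * (uA 1)⁻¹) * (uA 0 * uA 1 * (uA 0)⁻¹ * (uA 1)⁻¹) := by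
  have e1 : uA 0 * uA 1 * (uA 0)⁻¹ * (uA 1)⁻¹ = uA 22 := by
    have := uA_mul3 (a := 22) (b := 1) (c := 0) (d := 0) (e := 1) (by decide +kernel)
    rw [← this]
    group
  have e2 : (uA 0)⁻¹ * uA 1 * uA 0 * (uA 1)⁻¹ = uA 23 := by
    have := uA_mul3 (a := 0) (b := 23) (c := 1) (d := 1) (e := 0) (by decide +kernel)
    rw [mul_assoc (uA 0)⁻¹, ← this]
    group
  rw [e1, e2]
  intro h
  have h1 := congrArg (FM 10 ten).fg.val h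
  rw [map_mul, map_mul, uA_val, uA_val, ← toMat_mul _ _ (uni_len (A0_uni _)).le,
    ← toMat_mul _ _ (uni_len (A0_uni _)).le] at h1
  have h2 := congrFun (congrFun h1 0) 8
  change ((((mulL (A0 22) (A0 23)).getD 0 []).getD 8 0 : ℤ) : ℚ) =
    ((((mulL (A0 23) (A0 22)).getD 0 []).getD 8 0 : ℤ) : ℚ) at h2
  have h3 := Int.cast_injective h2
  revert h3
  decide +kernel

theorem nonzero (n : ℕ) (hn : 8 ≤ n) : N 2 n ≠ ⊥ := by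
  intro h
  have h1 := inv2_mem_N (FM 10 ten) (FM 10 ten).fg (FM 10 ten).bot (uA 0) (uA 1) noncomm
    (uA 0) (uA 1) corner corner_one (n := n) (by change 10 ≤ n + 2; omega)
  rw [h, Submodule.mem_bot] at h1
  have h2 := congrFun h1 (mk D0 D0_link)
  rw [value] at h2
  norm_num at h2

end Pool.Agent.Y510.SL
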