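import Mathlib

/-!
# Trace identities and the hyperelliptic involution

If `x0 x1 = (l0⁻¹ x0 l0) (l1⁻¹ x1 l1)` in `SL₂(K)` and `x0`, `x1` generate the matrix algebra, then
there is an automorphism of the matrix algebra with the following effect on `x0, x1, l0, l1`:
`x1 ↦ y1⁻¹`, `x0 ↦ y1⁻¹ y0⁻¹ y1`, `l1 ↦ l1⁻¹`, `l0 ↦ y1⁻¹ l0⁻¹ x1`, where `yi = li⁻¹ xi li`.
-/

set_option autoImplicit false

namespace Pool.Agent.Y510.SL

open Matrix

section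

variable {K : Type*} [Field K]


/-- the trace of an element of `SL₂` -/
def tau (g : (Matrix.SpecialLinearGroup (Fin 2) K)) : K := Matrix.trace (g : (Matrix (Fin 2) (Fin 2) K))

theorem tau_mul_comm (g h : (Matrix.SpecialLinearGroup (Fin 2) K)) : tau (g * h) = tau (h * g) := by
  simp only [tau, Matrix.SpecialLinearGroup.coe_mul]
  exact Matrix.trace_mul_comm _ _

theorem tau_inv (g : (Matrix.SpecialLinearGroup (Fin 2) K)) : tau g⁻¹ = tau g := by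
  simp only [tau, Matrix.SpecialLinearGroup.coe_inv, Matrix.adjugate_fin_two]
  rw [Matrix.trace_fin_two, Matrix.trace_fin_two]
  simp [add_comm]

/-- `g + g⁻¹` is the trace -/
theorem add_inv_eq (g : (Matrix.SpecialLinearGroup (Fin 2) K)) : (g : (Matrix (Fin 2) (Fin 2) K)) + ((g⁻¹ : (Matrix.SpecialLinearGroup (Fin 2) K)) : (Matrix (Fin 2) (Fin 2) K)) = tau g • (1 : (Matrix (Fin 2) (Fin 2) K)) := by
  simp only [tau, Matrix.SpecialLinearGroup.coe_inv, Matrix.adjugate_fin_two]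
  rw [Matrix.trace_fin_two]
  ext i j
  fin_cases i <;> fin_cases j <;> simp [add_comm]

theorem tau_mul_inv (g h : (Matrix.SpecialLinearGroup (Fin 2) K)) : tau (g * h⁻¹) = tau g * tau h - tau (g * h) := by
  have h1 := add_inv_eq h
  have h2 : (g : (Matrix (Fin 2) (Fin 2) K)) * ((h⁻¹ : (Matrix.SpecialLinearGroup (Fin 2) K)) : (Matrix (Fin 2) (Fin 2) K)) = tau h • (g : (Matrix (Fin 2) (Fin 2) K)) - (g : (Matrix (Fin 2) (Fin 2) K)) * (h : (Matrix (Fin 2) (Fin 2) K)) := by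
    rw [← Matrix.mul_one (g : (Matrix (Fin 2) (Fin 2) K)), ← Matrix.mul_smul, ← h1, Matrix.mul_one, Matrix.mul_add]
    abel
  simp only [tau, Matrix.SpecialLinearGroup.coe_mul]
  rw [h2, Matrix.trace_sub, Matrix.trace_smul, smul_eq_mul, mul_comm (Matrix.trace (g : (Matrix (Fin 2) (Fin 2) K)))]
  rfl

theorem sq_eq (g : (Matrix.SpecialLinearGroup (Fin 2) K)) : (g : (Matrix (Fin 2) (Fin 2) K)) * (g : (Matrix (Fin 2) (Fin 2) K)) = tau g • (g : (Matrix (Fin 2) (Fin 2) K)) - 1 := by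
  have h1 := add_inv_eq g
  have h2 : (g : (Matrix (Fin 2) (Fin 2) K)) * ((g⁻¹ : (Matrix.SpecialLinearGroup (Fin 2) K)) : (Matrix (Fin 2) (Fin 2) K)) = 1 := by
    rw [← Matrix.SpecialLinearGroup.coe_mul, mul_inv_cancel, Matrix.SpecialLinearGroup.coe_one]
  have h3 : (g : (Matrix (Fin 2) (Fin 2) K)) * ((g : (Matrix (Fin 2) (Fin 2) K)) + ((g⁻¹ : (Matrix.SpecialLinearGroup (Fin 2) K)) : (Matrix (Fin 2) (Fin 2) K))) = tau g • (g : (Matrix (Fin 2) (Fin 2) K)) := by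
    rw [h1, Matrix.mul_smul, Matrix.mul_one]
  rw [Matrix.mul_add, h2] at h3
  exact eq_sub_of_add_eq h3

/-- the anticommutator -/
theorem anti_eq (g h : (Matrix.SpecialLinearGroup (Fin 2) K)) : (h : (Matrix (Fin 2) (Fin 2) K)) * (g : (Matrix (Fin 2) (Fin 2) K)) = -((g : (Matrix (Fin 2) (Fin 2) K)) * (h : (Matrix (Fin 2) (Fin 2) K))) + tau h • (g : (Matrix (Fin 2) (Fin 2) K)) +
    tau g • (h : (Matrix (Fin 2) (Fin 2) K)) + (tau (g * h) - tau g * tau h) • (1 : (Matrix (Fin 2) (Fin 2) K)) := by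
  simp only [tau, Matrix.SpecialLinearGroup.coe_mul]
  generalize (g : (Matrix (Fin 2) (Fin 2) K)) = A
  generalize (h : (Matrix (Fin 2) (Fin 2) K)) = B
  rw [Matrix.trace_fin_two, Matrix.trace_fin_two, Matrix.trace_fin_two]
  ext i j
  fin_cases i <;> fin_cases j <;> simp [Matrix.mul_apply, Fin.sum_univ_two] <;> ring

theorem det_comm (g h : (Matrix.SpecialLinearGroup (Fin 2) K)) : ((g : (Matrix (Fin 2) (Fin 2) K)) * (h : (Matrix (Fin 2) (Fin 2) K)) - (h : (Matrix (Fin 2) (Fin 2) K)) * (g : (Matrix (Fin 2) (Fin 2) K))).det =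
    4 - tau g ^ 2 - tau h ^ 2 - tau (g * h) ^ 2 + tau g * tau h * tau (g * h) := by
  simp only [tau, Matrix.SpecialLinearGroup.coe_mul]
  have hg := g.2
  have hh := h.2
  rw [Matrix.det_fin_two] at hg hh
  generalize (g : (Matrix (Fin 2) (Fin 2) K)) = A at hg ⊢
  generalize (h : (Matrix (Fin 2) (Fin 2) K)) = B at hh ⊢
  rw [Matrix.trace_fin_two, Matrix.trace_fin_two, Matrix.trace_fin_two, Matrix.det_fin_two]
  simp only [Matrix.sub_apply, Matrix.mul_apply, Fin.sum_univ_two]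
  linear_combination (4 * (B 0 0 * B 1 1 - B 0 1 * B 1 0) - (B 0 0 + B 1 1) ^ 2) * hg +
    (4 - (A 0 0 + A 1 1) ^ 2) * hh

/-- the four matrices `1, g, h, g h` -/
def four (g h : (Matrix.SpecialLinearGroup (Fin 2) K)) : Fin 4 → (Matrix (Fin 2) (Fin 2) K) := ![1, (g : (Matrix (Fin 2) (Fin 2) K)), (h : (Matrix (Fin 2) (Fin 2) K)), (g : (Matrix (Fin 2) (Fin 2) K)) * (h : (Matrix (Fin 2) (Fin 2) K))]

theorem four_li (g h : (Matrix.SpecialLinearGroup (Fin 2) K)) (hC : ((g : (Matrix (Fin 2) (Fin 2) K)) * (h : (Matrix (Fin 2) (Fin 2) K)) - (h : (Matrix (Fin 2) (Fin 2) K)) * (g : (Matrix (Fin 2) (Fin 2) K))).det ≠ 0) :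
    LinearIndependent K (four g h) := by
  rw [Fintype.linearIndependent_iff]
  intro c hc
  simp only [four, Fin.sum_univ_four, Matrix.cons_val_zero, Matrix.cons_val_one,
    Matrix.cons_val] at hc
  set A : (Matrix (Fin 2) (Fin 2) K) := (g : (Matrix (Fin 2) (Fin 2) K)) with hA
  set B : (Matrix (Fin 2) (Fin 2) K) := (h : (Matrix (Fin 2) (Fin 2) K)) with hB
  set C : (Matrix (Fin 2) (Fin 2) K) := A * B - B * A with hCdef
  have hCu : IsUnit C := (Matrix.isUnit_iff_isUnit_det C).2 (isUnit_iff_ne_zero.2 hC)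
  have hC0 : C ≠ 0 := by rintro h0; rw [h0] at hC; simp at hC
  -- brackets
  have e1 : (c 2 • (1 : (Matrix (Fin 2) (Fin 2) K)) + c 3 • A) * C = 0 := by
    have : (c 2 • (1 : (Matrix (Fin 2) (Fin 2) K)) + c 3 • A) * C =
        A * (c 0 • (1 : (Matrix (Fin 2) (Fin 2) K)) + c 1 • A + c 2 • B + c 3 • (A * B)) -
        (c 0 • (1 : (Matrix (Fin 2) (Fin 2) K)) + c 1 • A + c 2 • B + c 3 • (A * B)) * A := by
      rw [hCdef]
      simp only [mul_add, add_mul, mul_sub, smul_mul_assoc, mul_smul_comm, one_mul, mul_one,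
        mul_assoc]
      abel
    rw [this, hc, mul_zero, zero_mul, sub_zero]
  have e2 : C * (c 1 • (1 : (Matrix (Fin 2) (Fin 2) K)) + c 3 • B) = 0 := by
    have : C * (c 1 • (1 : (Matrix (Fin 2) (Fin 2) K)) + c 3 • B) =
        (c 0 • (1 : (Matrix (Fin 2) (Fin 2) K)) + c 1 • A + c 2 • B + c 3 • (A * B)) * B -
        B * (c 0 • (1 : (Matrix (Fin 2) (Fin 2) K)) + c 1 • A + c 2 • B + c 3 • (A * B)) := by
      rw [hCdef]
      simp only [mul_add, add_mul, sub_mul, smul_mul_assoc, mul_smul_comm, one_mul, mul_one,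
        smul_sub, mul_assoc]
      abel
    rw [this, hc, mul_zero, zero_mul, sub_zero]
  have f1 : c 2 • (1 : (Matrix (Fin 2) (Fin 2) K)) + c 3 • A = 0 := (IsUnit.mul_left_eq_zero hCu).1 e1
  have f2 : c 1 • (1 : (Matrix (Fin 2) (Fin 2) K)) + c 3 • B = 0 := (IsUnit.mul_right_eq_zero hCu).1 e2
  have g3 : c 3 = 0 := by
    by_contra h3
    have hAs : A = (-(c 2) / c 3) • (1 : (Matrix (Fin 2) (Fin 2) K)) := by
      have : c 3 • A = -(c 2 • (1 : (Matrix (Fin 2) (Fin 2) K))) := eq_neg_of_add_eq_zero_right f1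
      have h4 : A = (c 3)⁻¹ • (c 3 • A) := by rw [smul_smul, inv_mul_cancel₀ h3, one_smul]
      rw [h4, this, ← neg_smul, smul_smul]
      congr 1
      field_simp
    apply hC0
    rw [hCdef, hAs]
    simp
  rw [g3, zero_smul, add_zero] at f1 f2
  have one_ne : (1 : (Matrix (Fin 2) (Fin 2) K)) ≠ 0 := one_ne_zero
  have g2 : c 2 = 0 := (smul_eq_zero.1 f1).resolve_right one_ne
  have g1 : c 1 = 0 := (smul_eq_zero.1 f2).resolve_right one_ne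
  have g0 : c 0 = 0 := by
    rw [g1, g2, g3] at hc
    simp only [zero_smul, add_zero] at hc
    exact (smul_eq_zero.1 hc).resolve_right one_ne
  intro i
  fin_cases i
  · exact g0
  · exact g1
  · exact g2
  · exact g3

/-- the basis `1, g, h, g h` -/
noncomputable def fb (g h : (Matrix.SpecialLinearGroup (Fin 2) K)) (hC : ((g : (Matrix (Fin 2) (Fin 2) K)) * (h : (Matrix (Fin 2) (Fin 2) K)) - (h : (Matrix (Fin 2) (Fin 2) K)) * (g : (Matrix (Fin 2) (Fin 2) K))).det ≠ 0) :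
    Module.Basis (Fin 4) K (Matrix (Fin 2) (Fin 2) K) :=
  basisOfLinearIndependentOfCardEqFinrank (four_li g h hC)
    (by rw [Module.finrank_matrix]; simp)

theorem fb_apply (g h : (Matrix.SpecialLinearGroup (Fin 2) K)) (hC : ((g : (Matrix (Fin 2) (Fin 2) K)) * (h : (Matrix (Fin 2) (Fin 2) K)) - (h : (Matrix (Fin 2) (Fin 2) K)) * (g : (Matrix (Fin 2) (Fin 2) K))).det ≠ 0) (i : Fin 4) :
    fb g h hC i = four g h i := by
  simp [fb]

/-- the algebra homomorphism between two pairs with the same traces -/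
theorem exists_phi (g h g' h' : (Matrix.SpecialLinearGroup (Fin 2) K))
    (hC : ((g : (Matrix (Fin 2) (Fin 2) K)) * (h : (Matrix (Fin 2) (Fin 2) K)) - (h : (Matrix (Fin 2) (Fin 2) K)) * (g : (Matrix (Fin 2) (Fin 2) K))).det ≠ 0)
    (t1 : tau g' = tau g) (t2 : tau h' = tau h) (t3 : tau (g' * h') = tau (g * h)) :
    ∃ Φ : (Matrix (Fin 2) (Fin 2) K) →ₗ[K] (Matrix (Fin 2) (Fin 2) K), Φ 1 = 1 ∧ Φ g = g' ∧ Φ h = h' ∧ (∀ X Y, Φ (X * Y) = Φ X * Φ Y) ∧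
      ∀ X, Matrix.trace (Φ X) = Matrix.trace X := by
  let b := fb g h hC
  let Φ : (Matrix (Fin 2) (Fin 2) K) →ₗ[K] (Matrix (Fin 2) (Fin 2) K) := b.constr K (four g' h')
  have hb : ∀ i, Φ (four g h i) = four g' h' i := by
    intro i
    rw [← fb_apply g h hC i]
    exact b.constr_basis K _ i
  have b0 : Φ 1 = 1 := hb 0
  have b1 : Φ g = g' := hb 1
  have b2 : Φ h = h' := hb 2
  have b3 : Φ ((g : (Matrix (Fin 2) (Fin 2) K)) * (h : (Matrix (Fin 2) (Fin 2) K))) = (g' : (Matrix (Fin 2) (Fin 2) K)) * (h' : (Matrix (Fin 2) (Fin 2) K)) := hb 3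
  -- multiplicativity
  have m1 : ∀ X, Φ ((g : (Matrix (Fin 2) (Fin 2) K)) * X) = (g' : (Matrix (Fin 2) (Fin 2) K)) * Φ X := by
    have : Φ ∘ₗ (LinearMap.mulLeft K (g : (Matrix (Fin 2) (Fin 2) K))) = (LinearMap.mulLeft K (g' : (Matrix (Fin 2) (Fin 2) K))) ∘ₗ Φ := by
      apply b.ext
      intro i
      rw [fb_apply]
      simp only [LinearMap.comp_apply, LinearMap.mulLeft_apply, hb]
      fin_cases i
      · simp [four, b1]
      · change Φ ((g : (Matrix (Fin 2) (Fin 2) K)) * (g : (Matrix (Fin 2) (Fin 2) K))) = (g' : (Matrix (Fin 2) (Fin 2) K)) * (g' : (Matrix (Fin 2) (Fin 2) K))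
        rw [sq_eq, sq_eq, map_sub, map_smul, b0, b1, t1]
      · simp [four, b3]
      · change Φ ((g : (Matrix (Fin 2) (Fin 2) K)) * ((g : (Matrix (Fin 2) (Fin 2) K)) * (h : (Matrix (Fin 2) (Fin 2) K)))) = (g' : (Matrix (Fin 2) (Fin 2) K)) * ((g' : (Matrix (Fin 2) (Fin 2) K)) * (h' : (Matrix (Fin 2) (Fin 2) K)))
        rw [← mul_assoc, ← mul_assoc, sq_eq, sq_eq, sub_mul, sub_mul, smul_mul_assoc, one_mul,
          smul_mul_assoc, one_mul, map_sub, map_smul, b2, b3, t1]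
    intro X
    exact LinearMap.congr_fun this X
  have m2 : ∀ X, Φ ((h : (Matrix (Fin 2) (Fin 2) K)) * X) = (h' : (Matrix (Fin 2) (Fin 2) K)) * Φ X := by
    have hg : Φ ((h : (Matrix (Fin 2) (Fin 2) K)) * (g : (Matrix (Fin 2) (Fin 2) K))) = (h' : (Matrix (Fin 2) (Fin 2) K)) * (g' : (Matrix (Fin 2) (Fin 2) K)) := by
      rw [anti_eq g h, anti_eq g' h', map_add, map_add, map_add, map_neg, map_smul, map_smul,
        map_smul, b0, b1, b2, b3, t1, t2, t3]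
    have : Φ ∘ₗ (LinearMap.mulLeft K (h : (Matrix (Fin 2) (Fin 2) K))) = (LinearMap.mulLeft K (h' : (Matrix (Fin 2) (Fin 2) K))) ∘ₗ Φ := by
      apply b.ext
      intro i
      rw [fb_apply]
      simp only [LinearMap.comp_apply, LinearMap.mulLeft_apply, hb]
      fin_cases i
      · simp [four, b2]
      · exact hg
      · change Φ ((h : (Matrix (Fin 2) (Fin 2) K)) * (h : (Matrix (Fin 2) (Fin 2) K))) = (h' : (Matrix (Fin 2) (Fin 2) K)) * (h' : (Matrix (Fin 2) (Fin 2) K))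
        rw [sq_eq, sq_eq, map_sub, map_smul, b0, b2, t2]
      · change Φ ((h : (Matrix (Fin 2) (Fin 2) K)) * ((g : (Matrix (Fin 2) (Fin 2) K)) * (h : (Matrix (Fin 2) (Fin 2) K)))) = (h' : (Matrix (Fin 2) (Fin 2) K)) * ((g' : (Matrix (Fin 2) (Fin 2) K)) * (h' : (Matrix (Fin 2) (Fin 2) K)))
        rw [← mul_assoc, ← mul_assoc, anti_eq g h, anti_eq g' h']
        simp only [add_mul, neg_mul, smul_mul_assoc, one_mul, mul_assoc]
        rw [map_add, map_add, map_add, map_neg, map_smul, map_smul, map_smul, m1, b2, b3, sq_eq,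
          sq_eq, map_sub, map_smul, b0, b2, t1, t2, t3]
    intro X
    exact LinearMap.congr_fun this X
  have mm : ∀ X Y, Φ (X * Y) = Φ X * Φ Y := by
    intro X Y
    have : Φ ∘ₗ (LinearMap.mulRight K Y) = (LinearMap.mulRight K (Φ Y)) ∘ₗ Φ := by
      apply b.ext
      intro i
      rw [fb_apply]
      simp only [LinearMap.comp_apply, LinearMap.mulRight_apply]
      fin_cases i
      · simp [four, b0]
      · change Φ ((g : (Matrix (Fin 2) (Fin 2) K)) * Y) = Φ (g : (Matrix (Fin 2) (Fin 2) K)) * Φ Y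
        rw [m1, b1]
      · change Φ ((h : (Matrix (Fin 2) (Fin 2) K)) * Y) = Φ (h : (Matrix (Fin 2) (Fin 2) K)) * Φ Y
        rw [m2, b2]
      · change Φ ((g : (Matrix (Fin 2) (Fin 2) K)) * (h : (Matrix (Fin 2) (Fin 2) K)) * Y) = Φ ((g : (Matrix (Fin 2) (Fin 2) K)) * (h : (Matrix (Fin 2) (Fin 2) K))) * Φ Y
        rw [mul_assoc, m1, m2, b3, mul_assoc]
    exact LinearMap.congr_fun this X
  have tr : ∀ X, Matrix.trace (Φ X) = Matrix.trace X := by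
    have : (Matrix.traceLinearMap (Fin 2) K K) ∘ₗ Φ = Matrix.traceLinearMap (Fin 2) K K := by
      apply b.ext
      intro i
      rw [fb_apply]
      simp only [LinearMap.comp_apply, Matrix.traceLinearMap_apply, hb]
      fin_cases i
      · rfl
      · exact t1
      · exact t2
      · exact t3
    intro X
    exact LinearMap.congr_fun this X
  exact ⟨Φ, b0, b1, b2, mm, tr⟩

theorem eq_of_traces (g h : (Matrix.SpecialLinearGroup (Fin 2) K)) (hC : ((g : (Matrix (Fin 2) (Fin 2) K)) * (h : (Matrix (Fin 2) (Fin 2) K)) - (h : (Matrix (Fin 2) (Fin 2) K)) * (g : (Matrix (Fin 2) (Fin 2) K))).det ≠ 0)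
    (Z W : (Matrix (Fin 2) (Fin 2) K)) (h0 : Matrix.trace Z = Matrix.trace W)
    (h1 : Matrix.trace (Z * (g : (Matrix (Fin 2) (Fin 2) K))) = Matrix.trace (W * (g : (Matrix (Fin 2) (Fin 2) K))))
    (h2 : Matrix.trace (Z * (h : (Matrix (Fin 2) (Fin 2) K))) = Matrix.trace (W * (h : (Matrix (Fin 2) (Fin 2) K))))
    (h3 : Matrix.trace (Z * ((g : (Matrix (Fin 2) (Fin 2) K)) * (h : (Matrix (Fin 2) (Fin 2) K)))) = Matrix.trace (W * ((g : (Matrix (Fin 2) (Fin 2) K)) * (h : (Matrix (Fin 2) (Fin 2) K))))) :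
    Z = W := by
  have key : ∀ X : (Matrix (Fin 2) (Fin 2) K), Matrix.trace (Z * X) = Matrix.trace (W * X) := by
    have : (Matrix.traceLinearMap (Fin 2) K K) ∘ₗ (LinearMap.mulLeft K Z) =
        (Matrix.traceLinearMap (Fin 2) K K) ∘ₗ (LinearMap.mulLeft K W) := by
      apply (fb g h hC).ext
      intro i
      rw [fb_apply]
      simp only [LinearMap.comp_apply, Matrix.traceLinearMap_apply, LinearMap.mulLeft_apply]
      fin_cases i
      · simp [four]; exact h0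
      · exact h1
      · exact h2
      · exact h3
    intro X
    exact LinearMap.congr_fun this X
  ext i j
  have := key (Matrix.single j i 1)
  simpa [Matrix.trace_mul_single] using this

theorem tau_eq_of_comm3 (a b c : (Matrix.SpecialLinearGroup (Fin 2) K)) : tau (a * b * c) = tau (b * c * a) := by
  rw [mul_assoc, tau_mul_comm]

/-- the hyperelliptic involution -/
theorem hyper (x0 x1 l0 l1 : (Matrix.SpecialLinearGroup (Fin 2) K))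
    (rel : x0 * x1 = (l0⁻¹ * x0 * l0) * (l1⁻¹ * x1 * l1))
    (hC : ((x0 : (Matrix (Fin 2) (Fin 2) K)) * (x1 : (Matrix (Fin 2) (Fin 2) K)) - (x1 : (Matrix (Fin 2) (Fin 2) K)) * (x0 : (Matrix (Fin 2) (Fin 2) K))).det ≠ 0) :
    ∃ Φ : (Matrix (Fin 2) (Fin 2) K) →ₗ[K] (Matrix (Fin 2) (Fin 2) K), Φ 1 = 1 ∧ (∀ X Y, Φ (X * Y) = Φ X * Φ Y) ∧
      Φ x0 = (((l1⁻¹ * x1 * l1)⁻¹ * (l0⁻¹ * x0 * l0)⁻¹ * (l1⁻¹ * x1 * l1) : (Matrix.SpecialLinearGroup (Fin 2) K)) : (Matrix (Fin 2) (Fin 2) K)) ∧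
      Φ x1 = (((l1⁻¹ * x1 * l1)⁻¹ : (Matrix.SpecialLinearGroup (Fin 2) K)) : (Matrix (Fin 2) (Fin 2) K)) ∧
      Φ l0 = (((l1⁻¹ * x1 * l1)⁻¹ * l0⁻¹ * x1 : (Matrix.SpecialLinearGroup (Fin 2) K)) : (Matrix (Fin 2) (Fin 2) K)) ∧
      Φ l1 = ((l1⁻¹ : (Matrix.SpecialLinearGroup (Fin 2) K)) : (Matrix (Fin 2) (Fin 2) K)) := by
  obtain ⟨y0, hy0⟩ : ∃ y0, y0 = l0⁻¹ * x0 * l0 := ⟨_, rfl⟩
  obtain ⟨y1, hy1⟩ : ∃ y1, y1 = l1⁻¹ * x1 * l1 := ⟨_, rfl⟩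
  rw [← hy0, ← hy1] at rel
  rw [← hy0, ← hy1]
  have ty0 : tau y0 = tau x0 := by
    rw [hy0, tau_mul_comm]; congr 1; group
  have ty1 : tau y1 = tau x1 := by
    rw [hy1, tau_mul_comm]; congr 1; group
  -- traces of the images of `x0`, `x1`
  have t1 : tau (y1⁻¹ * y0⁻¹ * y1) = tau x0 := by
    rw [tau_mul_comm, show y1 * (y1⁻¹ * y0⁻¹) = y0⁻¹ by group, tau_inv, ty0]
  have t2 : tau y1⁻¹ = tau x1 := by rw [tau_inv, ty1]
  have t3 : tau ((y1⁻¹ * y0⁻¹ * y1) * y1⁻¹) = tau (x0 * x1) := by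
    rw [show (y1⁻¹ * y0⁻¹ * y1) * y1⁻¹ = (y0 * y1)⁻¹ by group, tau_inv, ← rel]
  obtain ⟨Φ, h0, h1, h2, hm, ht⟩ := exists_phi x0 x1 (y1⁻¹ * y0⁻¹ * y1) y1⁻¹ hC t1 t2 t3
  -- the images generate
  have hC' : (((y1⁻¹ * y0⁻¹ * y1 : (Matrix.SpecialLinearGroup (Fin 2) K)) : (Matrix (Fin 2) (Fin 2) K)) * ((y1⁻¹ : (Matrix.SpecialLinearGroup (Fin 2) K)) : (Matrix (Fin 2) (Fin 2) K)) -
      ((y1⁻¹ : (Matrix.SpecialLinearGroup (Fin 2) K)) : (Matrix (Fin 2) (Fin 2) K)) * ((y1⁻¹ * y0⁻¹ * y1 : (Matrix.SpecialLinearGroup (Fin 2) K)) : (Matrix (Fin 2) (Fin 2) K))).det ≠ 0 := by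
    rw [det_comm, t1, t2, t3, ← det_comm]
    exact hC
  have hgen : ∀ l l' : (Matrix.SpecialLinearGroup (Fin 2) K), tau l' = tau l → tau (l' * (y1⁻¹ * y0⁻¹ * y1)) = tau (l * x0) →
      tau (l' * y1⁻¹) = tau (l * x1) →
      tau (l' * ((y1⁻¹ * y0⁻¹ * y1) * y1⁻¹)) = tau (l * (x0 * x1)) → Φ l = (l' : (Matrix (Fin 2) (Fin 2) K)) := by
    intro l l' s0 s1 s2 s3
    refine eq_of_traces (y1⁻¹ * y0⁻¹ * y1) y1⁻¹ hC' _ _ ?_ ?_ ?_ ?_
    · rw [ht]; exact s0.symm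
    · rw [← h1, ← hm, ht]
      have := s1.symm
      simp only [tau] at this
      rw [Matrix.SpecialLinearGroup.coe_mul l x0, Matrix.SpecialLinearGroup.coe_mul l'] at this
      rw [h1]
      exact this
    · rw [← h2, ← hm, ht]
      have := s2.symm
      simp only [tau] at this
      rw [Matrix.SpecialLinearGroup.coe_mul l x1, Matrix.SpecialLinearGroup.coe_mul l'] at this
      rw [h2]
      exact this
    · rw [← h1, ← h2, ← hm, ← hm, ht]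
      have := s3.symm
      simp only [tau] at this
      rw [Matrix.SpecialLinearGroup.coe_mul l (x0 * x1), Matrix.SpecialLinearGroup.coe_mul x0 x1,
        Matrix.SpecialLinearGroup.coe_mul l', Matrix.SpecialLinearGroup.coe_mul _ y1⁻¹] at this
      rw [hm, h1, h2]
      exact this
  refine ⟨Φ, h0, hm, h1, h2, ?_, ?_⟩
  · -- the image of `l0`
    have r1 : x1 * y1⁻¹ = x0⁻¹ * y0 := by
      have : x1 = x0⁻¹ * (y0 * y1) := by rw [← rel]; group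
      calc x1 * y1⁻¹ = x0⁻¹ * (y0 * y1) * y1⁻¹ := by rw [← this]
        _ = x0⁻¹ * y0 := by group
    have s0 : tau (y1⁻¹ * l0⁻¹ * x1) = tau l0 := by
      rw [tau_mul_comm, show x1 * (y1⁻¹ * l0⁻¹) = (x1 * y1⁻¹) * l0⁻¹ by group, r1, hy0,
        show x0⁻¹ * (l0⁻¹ * x0 * l0) * l0⁻¹ = (x0⁻¹ * l0⁻¹) * x0 by group, tau_mul_comm,
        show x0 * (x0⁻¹ * l0⁻¹) = l0⁻¹ by group, tau_inv]
    apply hgen
    · exact s0
    · rw [show y1⁻¹ * l0⁻¹ * x1 * (y1⁻¹ * y0⁻¹ * y1) = (y1⁻¹ * l0⁻¹ * (x1 * y1⁻¹) * y0⁻¹) * y1 by group,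
        tau_mul_comm, r1,
        show y1 * (y1⁻¹ * l0⁻¹ * (x0⁻¹ * y0) * y0⁻¹) = (x0 * l0)⁻¹ by group, tau_inv, tau_mul_comm]
    · rw [tau_mul_inv, s0, ty1, tau_mul_comm, show y1 * (y1⁻¹ * l0⁻¹ * x1) = l0⁻¹ * x1 by group,
        tau_mul_comm, tau_mul_inv, tau_mul_comm x1 l0]
      ring
    · have r2 : y1⁻¹ * l0⁻¹ * x1 * ((y1⁻¹ * y0⁻¹ * y1) * y1⁻¹) = y1⁻¹ * l0⁻¹ * x0⁻¹ := by
        calc y1⁻¹ * l0⁻¹ * x1 * ((y1⁻¹ * y0⁻¹ * y1) * y1⁻¹) = y1⁻¹ * l0⁻¹ * x1 * (y0 * y1)⁻¹ := by group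
          _ = y1⁻¹ * l0⁻¹ * x1 * (x0 * x1)⁻¹ := by rw [rel]
          _ = y1⁻¹ * l0⁻¹ * x0⁻¹ := by group
      have r3 : y1⁻¹ = x1⁻¹ * x0⁻¹ * y0 := by
        calc y1⁻¹ = (y0 * y1)⁻¹ * y0 := by group
          _ = (x0 * x1)⁻¹ * y0 := by rw [rel]
          _ = x1⁻¹ * x0⁻¹ * y0 := by group
      rw [r2, r3, hy0, show x1⁻¹ * x0⁻¹ * (l0⁻¹ * x0 * l0) * l0⁻¹ * x0⁻¹ = (l0 * (x0 * x1))⁻¹ by group,
        tau_inv]
  · -- the image of `l1`
    apply hgen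
    · exact tau_inv _
    · rw [← tau_inv, show (l1⁻¹ * (y1⁻¹ * y0⁻¹ * y1))⁻¹ = y1⁻¹ * (y0 * y1 * l1) by group, ← rel,
        tau_mul_comm, hy1,
        show x0 * x1 * l1 * (l1⁻¹ * x1 * l1)⁻¹ = x0 * l1 by group, tau_mul_comm]
    · rw [show l1⁻¹ * y1⁻¹ = (y1 * l1)⁻¹ by group, tau_inv, hy1,
        show l1⁻¹ * x1 * l1 * l1 = l1⁻¹ * (x1 * l1 * l1) by group, tau_mul_comm,
        show x1 * l1 * l1 * l1⁻¹ = x1 * l1 by group, tau_mul_comm]
    · rw [show l1⁻¹ * (y1⁻¹ * y0⁻¹ * y1 * y1⁻¹) = (y0 * y1 * l1)⁻¹ by group, tau_inv, ← rel,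
        tau_mul_comm]

theorem cxc (C X : (Matrix (Fin 2) (Fin 2) K)) : C * X * C = Matrix.trace (C * X) • C - C.det • X.adjugate := by
  rw [Matrix.trace_fin_two, Matrix.det_fin_two, Matrix.adjugate_fin_two]
  ext i j
  fin_cases i <;> fin_cases j <;>
    simp [Matrix.mul_apply, Fin.sum_univ_two] <;> ring

theorem comm_of_det (g h : (Matrix.SpecialLinearGroup (Fin 2) K)) (hC : ((g : (Matrix (Fin 2) (Fin 2) K)) * (h : (Matrix (Fin 2) (Fin 2) K)) - (h : (Matrix (Fin 2) (Fin 2) K)) * (g : (Matrix (Fin 2) (Fin 2) K))).det = 0) :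
    (g * h * g⁻¹ * h⁻¹) * (g⁻¹ * h * g * h⁻¹) = (g⁻¹ * h * g * h⁻¹) * (g * h * g⁻¹ * h⁻¹) := by
  set C : (Matrix (Fin 2) (Fin 2) K) := (g : (Matrix (Fin 2) (Fin 2) K)) * (h : (Matrix (Fin 2) (Fin 2) K)) - (h : (Matrix (Fin 2) (Fin 2) K)) * (g : (Matrix (Fin 2) (Fin 2) K)) with hCdef
  have co : ∀ a b : (Matrix.SpecialLinearGroup (Fin 2) K), ((a * b : (Matrix.SpecialLinearGroup (Fin 2) K)) : (Matrix (Fin 2) (Fin 2) K)) = (a : (Matrix (Fin 2) (Fin 2) K)) * (b : (Matrix (Fin 2) (Fin 2) K)) :=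
    Matrix.SpecialLinearGroup.coe_mul
  have gi : (g : (Matrix (Fin 2) (Fin 2) K)) * ((g⁻¹ : (Matrix.SpecialLinearGroup (Fin 2) K)) : (Matrix (Fin 2) (Fin 2) K)) = 1 := by rw [← co, mul_inv_cancel]; rfl
  have ig : ((g⁻¹ : (Matrix.SpecialLinearGroup (Fin 2) K)) : (Matrix (Fin 2) (Fin 2) K)) * (g : (Matrix (Fin 2) (Fin 2) K)) = 1 := by rw [← co, inv_mul_cancel]; rfl
  have hi : (h : (Matrix (Fin 2) (Fin 2) K)) * ((h⁻¹ : (Matrix.SpecialLinearGroup (Fin 2) K)) : (Matrix (Fin 2) (Fin 2) K)) = 1 := by rw [← co, mul_inv_cancel]; rfl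
  have e1 : ((g * h * g⁻¹ * h⁻¹ : (Matrix.SpecialLinearGroup (Fin 2) K)) : (Matrix (Fin 2) (Fin 2) K)) = 1 + C * (g⁻¹ * h⁻¹ : (Matrix.SpecialLinearGroup (Fin 2) K)) := by
    rw [hCdef, sub_mul, ← co, ← co, ← co, ← co, show h * g * (g⁻¹ * h⁻¹) = 1 by group,
      show g * h * (g⁻¹ * h⁻¹) = g * h * g⁻¹ * h⁻¹ by group]
    change _ = 1 + (_ - 1)
    abel
  have e2 : ((g⁻¹ * h * g * h⁻¹ : (Matrix.SpecialLinearGroup (Fin 2) K)) : (Matrix (Fin 2) (Fin 2) K)) = 1 - (g⁻¹ : (Matrix.SpecialLinearGroup (Fin 2) K)) * C * (h⁻¹ : (Matrix.SpecialLinearGroup (Fin 2) K)) := by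
    rw [hCdef, mul_sub, sub_mul, ← co, ← co, ← co, ← co, ← co, ← co,
      show g⁻¹ * (g * h) * h⁻¹ = 1 by group, show g⁻¹ * (h * g) * h⁻¹ = g⁻¹ * h * g * h⁻¹ by group]
    change _ = 1 - (1 - _)
    abel
  have z1 : C * (g⁻¹ * h⁻¹ : (Matrix.SpecialLinearGroup (Fin 2) K)) * ((g⁻¹ : (Matrix.SpecialLinearGroup (Fin 2) K)) * C * (h⁻¹ : (Matrix.SpecialLinearGroup (Fin 2) K))) = 0 := by
    have : C * (g⁻¹ * h⁻¹ : (Matrix.SpecialLinearGroup (Fin 2) K)) * ((g⁻¹ : (Matrix.SpecialLinearGroup (Fin 2) K)) * C * (h⁻¹ : (Matrix.SpecialLinearGroup (Fin 2) K))) =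
        C * ((g⁻¹ * h⁻¹ * g⁻¹ : (Matrix.SpecialLinearGroup (Fin 2) K)) : (Matrix (Fin 2) (Fin 2) K)) * C * (h⁻¹ : (Matrix.SpecialLinearGroup (Fin 2) K)) := by
      rw [co (g⁻¹ * h⁻¹) g⁻¹]; noncomm_ring
    rw [this, cxc, hC, zero_smul, sub_zero]
    have ht : Matrix.trace (C * ((g⁻¹ * h⁻¹ * g⁻¹ : (Matrix.SpecialLinearGroup (Fin 2) K)) : (Matrix (Fin 2) (Fin 2) K))) = 0 := by
      rw [hCdef, sub_mul, ← co, ← co, ← co, ← co, Matrix.trace_sub]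
      change tau _ - tau _ = 0
      rw [show h * g * (g⁻¹ * h⁻¹ * g⁻¹) = g⁻¹ by group,
        show g * h * (g⁻¹ * h⁻¹ * g⁻¹) = (g * h * g⁻¹ * h⁻¹) * g⁻¹ by group, tau_mul_comm,
        show g⁻¹ * (g * h * g⁻¹ * h⁻¹) = h * (g⁻¹ * h⁻¹) by group, tau_mul_comm,
        show g⁻¹ * h⁻¹ * h = g⁻¹ by group, sub_self]
    rw [ht, zero_smul, zero_mul]
  have z2 : ((g⁻¹ : (Matrix.SpecialLinearGroup (Fin 2) K)) * C * (h⁻¹ : (Matrix.SpecialLinearGroup (Fin 2) K))) * (C * (g⁻¹ * h⁻¹ : (Matrix.SpecialLinearGroup (Fin 2) K))) = 0 := by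
    have : ((g⁻¹ : (Matrix.SpecialLinearGroup (Fin 2) K)) * C * (h⁻¹ : (Matrix.SpecialLinearGroup (Fin 2) K))) * (C * (g⁻¹ * h⁻¹ : (Matrix.SpecialLinearGroup (Fin 2) K))) =
        (g⁻¹ : (Matrix.SpecialLinearGroup (Fin 2) K)) * (C * ((h⁻¹ : (Matrix.SpecialLinearGroup (Fin 2) K)) : (Matrix (Fin 2) (Fin 2) K)) * C) * (g⁻¹ * h⁻¹ : (Matrix.SpecialLinearGroup (Fin 2) K)) := by
      noncomm_ring
    rw [this, cxc, hC, zero_smul, sub_zero]
    have ht : Matrix.trace (C * ((h⁻¹ : (Matrix.SpecialLinearGroup (Fin 2) K)) : (Matrix (Fin 2) (Fin 2) K))) = 0 := by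
      rw [hCdef, sub_mul, ← co, ← co, ← co, ← co, Matrix.trace_sub]
      change tau _ - tau _ = 0
      rw [show g * h * h⁻¹ = g by group, tau_mul_comm (h * g) h⁻¹,
        show h⁻¹ * (h * g) = g by group, sub_self]
    rw [ht, zero_smul, mul_zero, zero_mul]
  apply Matrix.SpecialLinearGroup.ext
  have : (((g * h * g⁻¹ * h⁻¹) * (g⁻¹ * h * g * h⁻¹) : (Matrix.SpecialLinearGroup (Fin 2) K)) : (Matrix (Fin 2) (Fin 2) K)) =
      (((g⁻¹ * h * g * h⁻¹) * (g * h * g⁻¹ * h⁻¹) : (Matrix.SpecialLinearGroup (Fin 2) K)) : (Matrix (Fin 2) (Fin 2) K)) := by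
    rw [co, co (g⁻¹ * h * g * h⁻¹), e1, e2]
    have a1 : (1 + C * (g⁻¹ * h⁻¹ : (Matrix.SpecialLinearGroup (Fin 2) K))) * (1 - (g⁻¹ : (Matrix.SpecialLinearGroup (Fin 2) K)) * C * (h⁻¹ : (Matrix.SpecialLinearGroup (Fin 2) K))) =
        1 + C * (g⁻¹ * h⁻¹ : (Matrix.SpecialLinearGroup (Fin 2) K)) - (g⁻¹ : (Matrix.SpecialLinearGroup (Fin 2) K)) * C * (h⁻¹ : (Matrix.SpecialLinearGroup (Fin 2) K)) -
          C * (g⁻¹ * h⁻¹ : (Matrix.SpecialLinearGroup (Fin 2) K)) * ((g⁻¹ : (Matrix.SpecialLinearGroup (Fin 2) K)) * C * (h⁻¹ : (Matrix.SpecialLinearGroup (Fin 2) K))) := by noncomm_ring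
    have a2 : (1 - (g⁻¹ : (Matrix.SpecialLinearGroup (Fin 2) K)) * C * (h⁻¹ : (Matrix.SpecialLinearGroup (Fin 2) K))) * (1 + C * (g⁻¹ * h⁻¹ : (Matrix.SpecialLinearGroup (Fin 2) K))) =
        1 + C * (g⁻¹ * h⁻¹ : (Matrix.SpecialLinearGroup (Fin 2) K)) - (g⁻¹ : (Matrix.SpecialLinearGroup (Fin 2) K)) * C * (h⁻¹ : (Matrix.SpecialLinearGroup (Fin 2) K)) -
          ((g⁻¹ : (Matrix.SpecialLinearGroup (Fin 2) K)) * C * (h⁻¹ : (Matrix.SpecialLinearGroup (Fin 2) K))) * (C * (g⁻¹ * h⁻¹ : (Matrix.SpecialLinearGroup (Fin 2) K))) := by noncomm_ring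
    rw [a1, a2, z1, z2]
  intro i j
  rw [this]

/-- In a group which embeds in `SL₂(K)`: every relation between `x0, x1, l0, l1` is also a relation
between their images under the hyperelliptic involution. -/
theorem kernel_le {G : Type*} [Group G] (ρ : G →* (Matrix.SpecialLinearGroup (Fin 2) K)) (hρ : Function.Injective ρ)
    (x0 x1 l0 l1 : G) (rel : x0 * x1 = (l0⁻¹ * x0 * l0) * (l1⁻¹ * x1 * l1))
    (hnc : (x0 * x1 * x0⁻¹ * x1⁻¹) * (x0⁻¹ * x1 * x0 * x1⁻¹) ≠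
      (x0⁻¹ * x1 * x0 * x1⁻¹) * (x0 * x1 * x0⁻¹ * x1⁻¹)) (w : FreeGroup (Fin 4))
    (hw : FreeGroup.lift ![x0, x1, l0, l1] w = 1) :
    FreeGroup.lift ![(l1⁻¹ * x1 * l1)⁻¹ * (l0⁻¹ * x0 * l0)⁻¹ * (l1⁻¹ * x1 * l1),
      (l1⁻¹ * x1 * l1)⁻¹, (l1⁻¹ * x1 * l1)⁻¹ * l0⁻¹ * x1, l1⁻¹] w = 1 := by
  have hC : ((ρ x0 : (Matrix (Fin 2) (Fin 2) K)) * (ρ x1 : (Matrix (Fin 2) (Fin 2) K)) - (ρ x1 : (Matrix (Fin 2) (Fin 2) K)) * (ρ x0 : (Matrix (Fin 2) (Fin 2) K))).det ≠ 0 := by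
    intro h0
    apply hnc
    apply hρ
    have := comm_of_det (ρ x0) (ρ x1) h0
    simpa only [map_mul, map_inv] using this
  have rel' : ρ x0 * ρ x1 = ((ρ l0)⁻¹ * ρ x0 * ρ l0) * ((ρ l1)⁻¹ * ρ x1 * ρ l1) := by
    have := congrArg ρ rel
    simpa only [map_mul, map_inv] using this
  obtain ⟨Φ, h1, hm, f0, f1, f2, f3⟩ := hyper (ρ x0) (ρ x1) (ρ l0) (ρ l1) rel' hC
  have co : ∀ a b : (Matrix.SpecialLinearGroup (Fin 2) K), ((a * b : (Matrix.SpecialLinearGroup (Fin 2) K)) : (Matrix (Fin 2) (Fin 2) K)) = (a : (Matrix (Fin 2) (Fin 2) K)) * (b : (Matrix (Fin 2) (Fin 2) K)) :=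
    Matrix.SpecialLinearGroup.coe_mul
  have key : ∀ w : FreeGroup (Fin 4), Φ (ρ (FreeGroup.lift ![x0, x1, l0, l1] w) : (Matrix (Fin 2) (Fin 2) K)) =
      (ρ (FreeGroup.lift ![(l1⁻¹ * x1 * l1)⁻¹ * (l0⁻¹ * x0 * l0)⁻¹ * (l1⁻¹ * x1 * l1),
      (l1⁻¹ * x1 * l1)⁻¹, (l1⁻¹ * x1 * l1)⁻¹ * l0⁻¹ * x1, l1⁻¹] w) : (Matrix (Fin 2) (Fin 2) K)) := by
    intro w
    induction w using FreeGroup.induction_on with
    | C1 => simp [h1]
    | of i =>
      rw [FreeGroup.lift_apply_of, FreeGroup.lift_apply_of]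
      fin_cases i
      · change Φ (ρ x0 : (Matrix (Fin 2) (Fin 2) K)) =
          (ρ ((l1⁻¹ * x1 * l1)⁻¹ * (l0⁻¹ * x0 * l0)⁻¹ * (l1⁻¹ * x1 * l1)) : (Matrix (Fin 2) (Fin 2) K))
        simpa only [map_mul, map_inv] using f0
      · change Φ (ρ x1 : (Matrix (Fin 2) (Fin 2) K)) = (ρ ((l1⁻¹ * x1 * l1)⁻¹) : (Matrix (Fin 2) (Fin 2) K))
        simpa only [map_mul, map_inv] using f1
      · change Φ (ρ l0 : (Matrix (Fin 2) (Fin 2) K)) = (ρ ((l1⁻¹ * x1 * l1)⁻¹ * l0⁻¹ * x1) : (Matrix (Fin 2) (Fin 2) K))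
        simpa only [map_mul, map_inv] using f2
      · change Φ (ρ l1 : (Matrix (Fin 2) (Fin 2) K)) = (ρ (l1⁻¹) : (Matrix (Fin 2) (Fin 2) K))
        simpa only [map_mul, map_inv] using f3
    | inv_of i hi =>
      rw [map_inv, map_inv, map_inv, map_inv]
      generalize hA : FreeGroup.lift ![x0, x1, l0, l1] (FreeGroup.of i) = A at hi ⊢
      generalize hB : FreeGroup.lift ![(l1⁻¹ * x1 * l1)⁻¹ * (l0⁻¹ * x0 * l0)⁻¹ * (l1⁻¹ * x1 * l1),
        (l1⁻¹ * x1 * l1)⁻¹, (l1⁻¹ * x1 * l1)⁻¹ * l0⁻¹ * x1, l1⁻¹] (FreeGroup.of i) = B at hi ⊢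
      have e1 : Φ (((ρ A)⁻¹ : (Matrix.SpecialLinearGroup (Fin 2) K)) : (Matrix (Fin 2) (Fin 2) K)) * (ρ B : (Matrix (Fin 2) (Fin 2) K)) = 1 := by
        rw [← hi, ← hm, ← co, inv_mul_cancel]
        exact h1
      have e2 : (ρ B : (Matrix (Fin 2) (Fin 2) K)) * (((ρ B)⁻¹ : (Matrix.SpecialLinearGroup (Fin 2) K)) : (Matrix (Fin 2) (Fin 2) K)) = 1 := by rw [← co, mul_inv_cancel]; rfl
      calc Φ (((ρ A)⁻¹ : (Matrix.SpecialLinearGroup (Fin 2) K)) : (Matrix (Fin 2) (Fin 2) K)) = Φ (((ρ A)⁻¹ : (Matrix.SpecialLinearGroup (Fin 2) K)) : (Matrix (Fin 2) (Fin 2) K)) * ((ρ B : (Matrix (Fin 2) (Fin 2) K)) * (((ρ B)⁻¹ : (Matrix.SpecialLinearGroup (Fin 2) K)) : (Matrix (Fin 2) (Fin 2) K))) := by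
            rw [e2, mul_one]
        _ = (((ρ B)⁻¹ : (Matrix.SpecialLinearGroup (Fin 2) K)) : (Matrix (Fin 2) (Fin 2) K)) := by rw [← mul_assoc, e1, one_mul]
    | mul u v hu hv =>
      rw [map_mul, map_mul, map_mul, map_mul, co, co, hm, hu, hv]
  have := key w
  rw [hw, map_one] at this
  have h2 : ((1 : (Matrix.SpecialLinearGroup (Fin 2) K)) : (Matrix (Fin 2) (Fin 2) K)) = 1 := rfl
  rw [h2, h1] at this
  apply hρ
  rw [map_one]
  apply Matrix.SpecialLinearGroup.ext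
  intro i j
  rw [← this]
  rfl

end

end Pool.Agent.Y510.SL
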