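import Pool.Agent.Y510.SL.Agree
import Pool.Agent.Y510.SL.SL2
import Pool.Agent.Y510.SL.Embed

/-!
# Two-strand string links with free group

Let `D` be a string link with two strands and free group, and let `A` be its action on pairs of
elements of a nilpotent group.  Then `A (J (A x)) = J x`, where `J (x0, x1) = (x1⁻¹ x0⁻¹ x1, x1⁻¹)`.
-/

set_option autoImplicit false

namespace Pool.Agent.Y510.SL

open Pool.Agent.H835R2.Knot (Piece Word Front Fits run comps Move up dn sw)
open Pool.Agent.H835R2.Knot.Piece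
open Pool.Agent.H838R2.SL

section AbCol

variable {K : Type*} [AddCommGroup K]

theorem gst_ab (p : Piece) (x : K) (m : ℕ → K) :
    gst ru 0 p (Multiplicative.ofAdd x) (fun z => Multiplicative.ofAdd (m z)) =
      fun z => Multiplicative.ofAdd (ast p x m z) := by
  funext z
  cases p with
  | birth i b =>
    simp only [gst, ast]
    split_ifs <;> rfl
  | death i => rfl
  | pos i =>
    simp only [gst, ast, ru, sw]
    split_ifs with h1 h2
    · rfl
    · rw [mul_comm, mul_inv_cancel_left]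
    · rfl
  | neg i =>
    simp only [gst, ast, ru, sw]
    split_ifs with h1 h2
    · rw [mul_comm, inv_mul_cancel_left]
    · rfl
    · rfl

theorem col_ab (w : Word) : ∀ (l : ℕ) (b m : ℕ → K), (∀ n, adv w l b m n = 0) →
    Col w (fun z => Multiplicative.ofAdd (m z)) (fun z => Multiplicative.ofAdd (arun w l b m z)) := by
  induction w with
  | nil => intro l b m _; rfl
  | cons p w ih =>
    intro l b m h
    refine ⟨?_, Multiplicative.ofAdd (b l), ?_⟩
    · have h0 := h l
      simp only [adv, if_true] at h0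
      cases p with
      | death i =>
        simp only [gd, ad] at h0 ⊢
        rw [← ofAdd_add, h0]; rfl
      | birth i b => rfl
      | pos i => rfl
      | neg i => rfl
    · rw [gst_ab]
      by_cases hl : ∀ n, adv w (l + 1) b (ast p (b l) m) n = 0
      · exact ih (l + 1) b _ hl
      · exfalso
        apply hl
        intro n
        by_cases hn : n = l
        · subst hn
          -- the places of `w` are larger
          have : ∀ (w : Word) (l : ℕ) (b m : ℕ → K) (n : ℕ), n < l → adv w l b m n = 0 := by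
            intro w
            induction w with
            | nil => intro l b m n _; rfl
            | cons q w ih2 =>
              intro l b m n hn
              simp only [adv]
              rw [if_neg (by omega)]
              exact ih2 _ _ _ _ (by omega)
          exact this _ _ _ _ _ (by omega)
        · have := h n
          simp only [adv] at this
          rwa [if_neg hn] at this

theorem adv_zero (w : Word) : ∀ (l : ℕ) (b m : ℕ → K) (n : ℕ), ¬ IsD w l n → adv w l b m n = 0 := by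
  induction w with
  | nil => intro l b m n _; rfl
  | cons p w ih =>
    intro l b m n h
    simp only [adv]
    split_ifs with hn
    · cases p with
      | birth i c => rfl
      | death i => exact absurd (Or.inl ⟨hn, i, rfl⟩) h
      | pos i => rfl
      | neg i => rfl
    · exact ih _ _ _ _ (fun h' => h (Or.inr h'))

theorem col_ab_exists {k : ℕ} {D : Word} (h : IsStringLink k D) (t : ℕ → K) :
    ∃ m : ℕ → K, Col D (fun z => Multiplicative.ofAdd (t z)) (fun z => Multiplicative.ofAdd (m z)) := by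
  obtain ⟨b, hb⟩ := ab_solve h t (fun _ => 0)
  refine ⟨_, col_ab D 0 b t (fun n => ?_)⟩
  by_cases hn : IsD D 0 n
  · exact hb n hn
  · exact adv_zero D 0 b t n hn

end AbCol

/-- labels at the top: `a`, `b`, then trivial -/
def tops {G : Type*} [Group G] (a b : G) : ℕ → G
  | 0 => a
  | 1 => b
  | _ + 2 => 1

theorem tops_one {G : Type*} [Group G] (a b : G) (j : ℕ) (hj : 2 ≤ j) : tops a b j = 1 := by
  obtain ⟨c, rfl⟩ := Nat.exists_eq_add_of_le hj
  rw [add_comm]; rfl

theorem gp_countable (k : ℕ) (D : Word) : Countable (Gp k D) := by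
  have h1 : Countable Lab := by
    have : Countable (List ((ℕ ⊕ ℕ) × Bool)) := inferInstance
    exact inferInstanceAs (Countable (Quot _))
  exact inferInstanceAs (Countable (Quotient _))

theorem free_case {N A N' A' : Type*} [Group N] [Ring A] (X : FG N A) {n : ℕ} (hn : X.J n = ⊥)
    [Group N'] [Ring A'] (X' : FG N' A') {n' : ℕ} (hn' : X'.J n' = ⊥)
    (a' b' : N') (hnc : (a' * b' * a'⁻¹ * b'⁻¹) * (a'⁻¹ * b' * a' * b'⁻¹) ≠
      (a'⁻¹ * b' * a' * b'⁻¹) * (a' * b' * a'⁻¹ * b'⁻¹))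
    {D : Word} (h : IsStringLink 2 D) (hfree : IsFreeGroup (Gp 2 D)) (s0 s1 : N) (m m' : ℕ → N)
    (hm : Col D (tops s0 s1) m)
    (hm' : Col D (tops ((m 1)⁻¹ * (m 0)⁻¹ * m 1) (m 1)⁻¹) m') : m' 1 = s1⁻¹ := by
  obtain ⟨f, hf, hf'⟩ := hom_of_col (k := 2) (tops_one s0 s1) hm
  obtain ⟨g, hg, hg'⟩ := hom_of_col (k := 2) (tops_one ((m 1)⁻¹ * (m 0)⁻¹ * m 1) (m 1)⁻¹) hm'
  -- peripheral elements
  set x0 := el 2 D (top 0) with hx0
  set x1 := el 2 D (top 1) with hx1
  set y0 := el 2 D (flab D 0 top 0) with hy0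
  set y1 := el 2 D (flab D 0 top 1) with hy1
  have hcol := col_of_hom (MonoidHom.id (Gp 2 D))
  simp only [MonoidHom.id_apply] at hcol
  have c0 := col_conj h hcol (j := 0) (by omega)
  have c1 := col_conj h hcol (j := 1) (by omega)
  have cp := col_prd h hcol
  simp only [prd, one_mul] at cp
  rw [isConj_iff] at c0 c1
  obtain ⟨k0, hk0⟩ := c0
  obtain ⟨k1, hk1⟩ := c1
  obtain ⟨l0, rfl⟩ : ∃ l, k0 = l⁻¹ := ⟨k0⁻¹, (inv_inv _).symm⟩
  obtain ⟨l1, rfl⟩ : ∃ l, k1 = l⁻¹ := ⟨k1⁻¹, (inv_inv _).symm⟩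
  rw [inv_inv] at hk0 hk1
  have hk0' : l0⁻¹ * x0 * l0 = y0 := hk0
  have hk1' : l1⁻¹ * x1 * l1 = y1 := hk1
  have rel : x0 * x1 = (l0⁻¹ * x0 * l0) * (l1⁻¹ * x1 * l1) := by
    rw [hk0', hk1']
    exact cp.symm
  -- embedding
  have hcount := gp_countable 2 D
  obtain ⟨K, _, ρ, hρ⟩ := exists_embedding (Gp 2 D)
  -- the meridians do not commute
  obtain ⟨m2, hm2⟩ := col_exists X' hn' h (tops a' b')
  obtain ⟨f2, hf2, _⟩ := hom_of_col (k := 2) (tops_one a' b') hm2
  have hnc' : (x0 * x1 * x0⁻¹ * x1⁻¹) * (x0⁻¹ * x1 * x0 * x1⁻¹) ≠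
      (x0⁻¹ * x1 * x0 * x1⁻¹) * (x0 * x1 * x0⁻¹ * x1⁻¹) := by
    intro he
    apply hnc
    have := congrArg f2 he
    simp only [map_mul, map_inv] at this
    rw [hx0, hx1, hf2, hf2] at this
    exact this
  have hker := kernel_le ρ hρ x0 x1 l0 l1 rel hnc'
  -- two homomorphisms to `ℤ`
  obtain ⟨ma, hma⟩ := col_ab_exists h (K := ℤ) (fun j => if j = 0 then 1 else 0)
  obtain ⟨mb, hmb⟩ := col_ab_exists h (K := ℤ) (fun j => if j = 1 then 1 else 0)
  obtain ⟨ξ, hξ, _⟩ := hom_of_col (k := 2) (fun j hj => by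
    rw [if_neg (by omega)]; rfl) hma
  obtain ⟨η, hη, _⟩ := hom_of_col (k := 2) (fun j hj => by
    rw [if_neg (by omega)]; rfl) hmb
  let α : FreeGroup (Fin 4) →* Gp 2 D := FreeGroup.lift ![x0, x1, l0, l1]
  let β : FreeGroup (Fin 4) →* Gp 2 D :=
    FreeGroup.lift ![(l1⁻¹ * x1 * l1)⁻¹ * (l0⁻¹ * x0 * l0)⁻¹ * (l1⁻¹ * x1 * l1),
      (l1⁻¹ * x1 * l1)⁻¹, (l1⁻¹ * x1 * l1)⁻¹ * l0⁻¹ * x1, l1⁻¹]
  have hβ0 : β (FreeGroup.of 0) = y1⁻¹ * y0⁻¹ * y1 := by
    simp only [β, FreeGroup.lift_apply_of]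
    rw [hk0', hk1']
    rfl
  have hβ1 : β (FreeGroup.of 1) = y1⁻¹ := by
    simp only [β, FreeGroup.lift_apply_of]
    rw [hk0', hk1']
    rfl
  have hβ3 : β (FreeGroup.of 3) = l1⁻¹ := by
    simp only [β, FreeGroup.lift_apply_of]
    rfl
  have hα0 : α (FreeGroup.of 0) = x0 := by simp [α]
  have hα1 : α (FreeGroup.of 1) = x1 := by simp [α]
  have hα3 : α (FreeGroup.of 3) = l1 := by simp [α]
  have hab := agree X hn x0 x1 l0 l1 rel ξ η
    (by rw [hx0, hξ]; rfl) (by rw [hx1, hξ]; rfl) (by rw [hx0, hη]; rfl) (by rw [hx1, hη]; rfl)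
    (f.comp β) (g.comp α)
    (fun w hw => by
      have := hker w hw
      change f (β w) = 1
      rw [show β w = 1 from this, map_one])
    (fun w hw => by
      change g (α w) = 1
      rw [show α w = 1 from hw, map_one])
    (by
      change f (β (FreeGroup.of 0)) = g (α (FreeGroup.of 0))
      rw [hβ0, hα0, hx0, hg]
      simp only [map_mul, map_inv]
      rw [hy0, hy1, hf', hf']
      rfl)
    (by
      change f (β (FreeGroup.of 1)) = g (α (FreeGroup.of 1))
      rw [hβ1, hα1, hx1, hg]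
      simp only [map_inv]
      rw [hy1, hf']
      rfl)
  -- conclusion
  have e1 : g y1 = g (α ((FreeGroup.of 3)⁻¹ * FreeGroup.of 1 * FreeGroup.of 3)) := by
    simp only [map_mul, map_inv, hα1, hα3]
    rw [← hk1']
    simp only [map_mul, map_inv]
  have e2 := DFunLike.congr_fun hab ((FreeGroup.of 3)⁻¹ * FreeGroup.of 1 * FreeGroup.of 3)
  have e3 : f (β ((FreeGroup.of 3)⁻¹ * FreeGroup.of 1 * FreeGroup.of 3)) = f x1⁻¹ := by
    congr 1
    simp only [map_mul, map_inv, hβ1, hβ3]
    rw [← hk1']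
    group
  rw [← hg' 1]
  change g y1 = _
  rw [e1]
  have e4 : g (α ((FreeGroup.of 3)⁻¹ * FreeGroup.of 1 * FreeGroup.of 3)) =
      f (β ((FreeGroup.of 3)⁻¹ * FreeGroup.of 1 * FreeGroup.of 3)) := e2.symm
  rw [e4, e3, map_inv, hx1, hf]
  rfl

end Pool.Agent.Y510.SL
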