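import Pool.Agent.Y510.SL.Flt
import Pool.Agent.Y510.SL.FreeCase

/-!
# Labelings of all diagrams which arise by switching crossings
-/

set_option autoImplicit false

namespace Pool.Agent.Y510.SL

open Pool.Agent.H835R2.Knot (Piece Word Front Fits run comps Move crossingSet switchAt up dn sw)
open Pool.Agent.H835R2.Knot.Piece
open Pool.Agent.H838R2.SL

variable {R : Type*} [Ring R] (F : Flt R)

/-- evaluation of functions at `T` -/
def evT (T : Finset ℕ) : (FW F).U →* F.U :=
  ((Units.map (Pi.evalRingHom (fun _ : Finset ℕ => R) T).toMonoidHom).comp (FW F).U.subtype).codRestrict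
    F.U (fun u => u.2.2 T)

theorem evT_val (T : Finset ℕ) (u : (FW F).U) : F.fg.val (evT F T u) = (FW F).fg.val u T := rfl

/-- mixing two functions: the second one if `l ∈ T` -/
theorem mix_exists (l : ℕ) (u v : (FW F).U)
    (h : (FW F).fg.val v - (FW F).fg.val u ∈ W F 2) :
    ∃ g : (FW F).U, ∀ T, evT F T g = if l ∈ T then evT F T v else evT F T u := by
  have hW : (fun T => if l ∈ T then ((FW F).fg.val v - (FW F).fg.val u) T else 0) ∈ W F 1 :=
    W_flip F h l
  have hmem : (fun T => if l ∈ T then (FW F).fg.val v T else (FW F).fg.val u T) - 1 ∈ (FW F).fg.J 1 := by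
    refine ⟨?_, fun T => ?_⟩
    · have := (W F 1).add_mem hW ((FW F).fg.mem u).1
      convert this using 1
      funext T
      simp only [Pi.sub_apply, Pi.add_apply, Pi.one_apply]
      split_ifs <;> abel
    · simp only [Pi.sub_apply, Pi.one_apply]
      split_ifs
      · exact ((FW F).fg.mem v).2 T
      · exact ((FW F).fg.mem u).2 T
  obtain ⟨g, hg⟩ := (FW F).fg.surj _ hmem
  refine ⟨g, fun T => ?_⟩
  apply F.fg.inj
  rw [evT_val, hg]
  by_cases hl : l ∈ T
  · simp only [hl, if_true]; rfl
  · simp only [hl, if_false]; rfl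

/-- the two sides of a crossing differ by commutators -/
theorem ru_diff (l : ℕ) (p : Piece) (a b : (FW F).U) :
    (FW F).fg.val (ru l p.switch a b).1 - (FW F).fg.val (ru l p a b).1 ∈ W F 2 ∧
    (FW F).fg.val (ru l p.switch a b).2 - (FW F).fg.val (ru l p a b).2 ∈ W F 2 := by
  set X := (FW F).fg
  have hc : X.val a * X.val b - X.val b * X.val a ∈ W F 2 := by
    have h1 := W_mul F le_rfl le_rfl (X.mem a).1 (X.mem b).1
    have h2 := W_mul F le_rfl le_rfl (X.mem b).1 (X.mem a).1
    have := (W F (1 + 1)).sub_mem h1 h2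
    convert this using 1
    noncomm_ring
  have hR : ∀ (z : Finset ℕ → R) (u : (FW F).U), z ∈ W F 2 → z * X.val u ∈ W F 2 := by
    intro z u hz
    have h1 := W_anti F (by omega : 2 ≤ 2 + 1) (W_mul F (by omega) le_rfl hz (X.mem u).1)
    have := (W F 2).add_mem h1 hz
    convert this using 1
    noncomm_ring
  have hL : ∀ (z : Finset ℕ → R) (u : (FW F).U), z ∈ W F 2 → X.val u * z ∈ W F 2 := by
    intro z u hz
    have h1 := W_anti F (by omega : 2 ≤ 1 + 2) (W_mul F le_rfl (by omega) (X.mem u).1 hz)
    have := (W F 2).add_mem h1 hz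
    convert this using 1
    noncomm_ring
  have k1 : X.val (a * b * a⁻¹) - X.val b ∈ W F 2 := by
    have := hR _ a⁻¹ hc
    convert this using 1
    rw [sub_mul, mul_assoc (X.val b), X.val_inv, mul_one, map_mul, map_mul]
  have k2 : X.val a - X.val (b⁻¹ * a * b) ∈ W F 2 := by
    have := (W F 2).neg_mem (hL _ b⁻¹ hc)
    convert this using 1
    rw [mul_sub, ← mul_assoc, ← mul_assoc, X.inv_val, one_mul, map_mul, map_mul]
    abel
  have z : (0 : Finset ℕ → R) ∈ W F 2 := (W F 2).zero_mem
  cases p with
  | birth i c => simp only [Piece.switch, ru, sub_self]; exact ⟨z, z⟩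
  | death i => simp only [Piece.switch, ru, sub_self]; exact ⟨z, z⟩
  | pos i => simp only [Piece.switch, ru]; exact ⟨k1, k2⟩
  | neg i =>
    simp only [Piece.switch, ru]
    refine ⟨?_, ?_⟩
    · have := (W F 2).neg_mem k1; rwa [neg_sub] at this
    · have := (W F 2).neg_mem k2; rwa [neg_sub] at this

/-- the mixed crossing rule -/
noncomputable def mixR : Rule (FW F).U := fun l p a b =>
  (Classical.choose (mix_exists F l (ru l p a b).1 (ru l p.switch a b).1 (ru_diff F l p a b).1),
    Classical.choose (mix_exists F l (ru l p a b).2 (ru l p.switch a b).2 (ru_diff F l p a b).2))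

theorem mixR_1 (l : ℕ) (p : Piece) (a b : (FW F).U) (T : Finset ℕ) :
    evT F T (mixR F l p a b).1 = if l ∈ T then evT F T (ru l p.switch a b).1
      else evT F T (ru l p a b).1 :=
  Classical.choose_spec (mix_exists F l (ru l p a b).1 (ru l p.switch a b).1
    (ru_diff F l p a b).1) T

theorem mixR_2 (l : ℕ) (p : Piece) (a b : (FW F).U) (T : Finset ℕ) :
    evT F T (mixR F l p a b).2 = if l ∈ T then evT F T (ru l p.switch a b).2
      else evT F T (ru l p a b).2 :=
  Classical.choose_spec (mix_exists F l (ru l p a b).2 (ru l p.switch a b).2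
    (ru_diff F l p a b).2) T

theorem ru_good {G A : Type*} [Group G] [Ring A] (X : FG G A) (l : ℕ) (p : Piece) :
    X.RGood (ru l p) := by
  cases p with
  | neg i => exact X.rgood_neg
  | birth i b => exact X.rgood_pos
  | death i => exact X.rgood_pos
  | pos i => exact X.rgood_pos

theorem mixR_good (l : ℕ) (p : Piece) : (FW F).fg.RGood (mixR F l p) := by
  intro s hs a a' b b' ha hb
  set X := (FW F).fg with hX
  have g0 := ru_good X l p s hs a a' b b' ha hb
  have g1 := ru_good X l p.switch s hs a a' b b' ha hb
  have hv : ∀ (u : (FW F).U) (T : Finset ℕ), X.val u T = F.fg.val (evT F T u) := fun u T => rfl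
  have hw : ∀ (u v x y : (FW F).U), X.val u - X.val v - (X.val x - X.val y) ∈ W F 1 := by
    intro u v x y
    have := (W F 1).sub_mem ((W F 1).sub_mem (X.mem u).1 (X.mem v).1)
      ((W F 1).sub_mem (X.mem x).1 (X.mem y).1)
    convert this using 1
    abel
  constructor
  · refine ⟨hw _ _ _ _, fun T => ?_⟩
    have e0 := g0.1.2 T
    have e1 := g1.1.2 T
    simp only [Pi.sub_apply, hv, mixR_1] at e0 e1 ⊢
    split_ifs
    · exact e1
    · exact e0
  · refine ⟨hw _ _ _ _, fun T => ?_⟩
    have e0 := g0.2.2 T
    have e1 := g1.2.2 T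
    simp only [Pi.sub_apply, hv, mixR_2] at e0 e1 ⊢
    split_ifs
    · exact e1
    · exact e0

theorem ru_ev {G H : Type*} [Group G] [Group H] (f : G →* H) (l : ℕ) (p : Piece) (a b : G) :
    ru l p (f a) (f b) = (f (ru l p a b).1, f (ru l p a b).2) := by
  cases p <;> simp [ru]

/-- labels at `T` -/
theorem gst_ev (T : Finset ℕ) (l : ℕ) (p : Piece) (x : (FW F).U) (m : ℕ → (FW F).U) :
    gst ru 0 (if l ∈ T then p.switch else p) (evT F T x) (fun z => evT F T (m z)) =
      fun z => evT F T (gst (mixR F) l p x m z) := by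
  funext z
  cases p with
  | birth i b =>
    have : (if l ∈ T then (birth i b).switch else birth i b) = birth i b := by split_ifs <;> rfl
    rw [this]
    simp only [gst]
    split_ifs <;> simp
  | death i =>
    have : (if l ∈ T then (death i).switch else death i) = death i := by split_ifs <;> rfl
    rw [this]
    rfl
  | pos i =>
    have h1 := mixR_1 F l (pos i) (m i) (m (i + 1)) T
    have h2 := mixR_2 F l (pos i) (m i) (m (i + 1)) T
    by_cases hl : l ∈ T
    · rw [if_pos hl] at h1 h2 ⊢
      simp only [Piece.switch, gst] at h1 h2 ⊢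
      by_cases hz : z = i
      · rw [if_pos hz, if_pos hz, h1]; simp [ru]
      · by_cases hz' : z = i + 1
        · rw [if_neg hz, if_pos hz', if_neg hz, if_pos hz', h2]; simp [ru]
        · rw [if_neg hz, if_neg hz', if_neg hz, if_neg hz']
    · rw [if_neg hl] at h1 h2 ⊢
      simp only [gst] at h1 h2 ⊢
      by_cases hz : z = i
      · rw [if_pos hz, if_pos hz, h1]; simp [ru]
      · by_cases hz' : z = i + 1
        · rw [if_neg hz, if_pos hz', if_neg hz, if_pos hz', h2]; simp [ru]
        · rw [if_neg hz, if_neg hz', if_neg hz, if_neg hz']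
  | neg i =>
    have h1 := mixR_1 F l (neg i) (m i) (m (i + 1)) T
    have h2 := mixR_2 F l (neg i) (m i) (m (i + 1)) T
    by_cases hl : l ∈ T
    · rw [if_pos hl] at h1 h2 ⊢
      simp only [Piece.switch, gst] at h1 h2 ⊢
      by_cases hz : z = i
      · rw [if_pos hz, if_pos hz, h1]; simp [ru]
      · by_cases hz' : z = i + 1
        · rw [if_neg hz, if_pos hz', if_neg hz, if_pos hz', h2]; simp [ru]
        · rw [if_neg hz, if_neg hz', if_neg hz, if_neg hz']
    · rw [if_neg hl] at h1 h2 ⊢
      simp only [gst] at h1 h2 ⊢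
      by_cases hz : z = i
      · rw [if_pos hz, if_pos hz, h1]; simp [ru]
      · by_cases hz' : z = i + 1
        · rw [if_neg hz, if_pos hz', if_neg hz, if_pos hz', h2]; simp [ru]
        · rw [if_neg hz, if_neg hz', if_neg hz, if_neg hz']

theorem gd_ev (T : Finset ℕ) (l : ℕ) (p : Piece) (m : ℕ → (FW F).U) (h : gd p m = 1) :
    gd (if l ∈ T then p.switch else p) (fun z => evT F T (m z)) = 1 := by
  cases p with
  | birth i b => split_ifs <;> rfl
  | death i =>
    have : (if l ∈ T then (death i).switch else death i) = death i := by split_ifs <;> rfl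
    rw [this]
    simp only [gd] at h ⊢
    rw [← map_mul, h, map_one]
  | pos i => split_ifs <;> rfl
  | neg i => split_ifs <;> rfl

theorem col_ev (T : Finset ℕ) (w : Word) : ∀ (l : ℕ) (b m : ℕ → (FW F).U),
    (∀ n, gdv (mixR F) w l b m n = 1) →
    Col (w.mapIdx fun k p => if l + k ∈ T then p.switch else p) (fun z => evT F T (m z))
      (fun z => evT F T (grun (mixR F) w l b m z)) := by
  induction w with
  | nil => intro l b m _; rfl
  | cons p w ih =>
    intro l b m h
    rw [List.mapIdx_cons]
    refine ⟨?_, evT F T (b l), ?_⟩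
    · have := h l
      simp only [gdv, if_true] at this
      exact gd_ev F T l p m this
    · rw [show (l + 0) = l from rfl, gst_ev]
      have h' : ∀ n, gdv (mixR F) w (l + 1) b (gst (mixR F) l p (b l) m) n = 1 := by
        intro n
        by_cases hn : n = l
        · subst hn
          exact gdv_one (mixR F) w _ _ _ _ (fun h => by have := h.le; omega)
        · have := h n
          simp only [gdv] at this
          rwa [if_neg hn] at this
      have := ih (l + 1) b (gst (mixR F) l p (b l) m) h'
      have e : (fun (k : ℕ) (p : Piece) => if l + 1 + k ∈ T then p.switch else p) =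
          fun k p => if l + (k + 1) ∈ T then p.switch else p := by
        funext k p
        rw [show l + 1 + k = l + (k + 1) by omega]
      rw [e] at this
      exact this

/-- There is a labeling of all diagrams which arise by switching crossings, which depends on the
crossings like a polynomial. -/
theorem mixed {k : ℕ} {D : Word} (h : IsStringLink k D) (t : ℕ → (FW F).U) :
    ∃ m : ℕ → (FW F).U, ∀ T : Finset ℕ, Col (switchAt T D) (fun z => evT F T (t z))
      (fun z => evT F T (m z)) := by
  obtain ⟨b, hb⟩ := (FW F).fg.gen_exists (N := F.n) (FW F).bot (mixR F) (mixR_good F) h t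
  refine ⟨grun (mixR F) D 0 b t, fun T => ?_⟩
  have := col_ev F T D 0 b t hb
  simp only [Nat.zero_add] at this
  exact this

end Pool.Agent.Y510.SL
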