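import Pool.Agent.Y510.SL.Conj

/-!
# Filtered rings and functions on finite sets
-/

set_option autoImplicit false

namespace Pool.Agent.Y510.SL

/-- a ring with a terminating filtration by additive subgroups -/
structure Flt (A : Type*) [Ring A] where
  J : ℕ → AddSubgroup A
  anti : ∀ s, J (s + 1) ≤ J s
  mul : ∀ s t a b, 1 ≤ s → 1 ≤ t → a ∈ J s → b ∈ J t → a * b ∈ J (s + t)
  n : ℕ
  pos : 1 ≤ n
  bot : J n = ⊥

namespace Flt

variable {A : Type*} [Ring A] (F : Flt A)

theorem le {s t : ℕ} (h : s ≤ t) : F.J t ≤ F.J s := by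
  induction h with
  | refl => exact le_rfl
  | step _ ih => exact (F.anti _).trans ih

theorem pow_mem {x : A} (hx : x ∈ F.J 1) (k : ℕ) : x ^ (k + 1) ∈ F.J (k + 1) := by
  induction k with
  | zero => simpa using hx
  | succ k ih =>
    rw [pow_succ]
    exact F.mul (k + 1) 1 _ _ (by omega) le_rfl ih hx

theorem nilp {x : A} (hx : x ∈ F.J 1) : IsNilpotent x := by
  obtain ⟨k, hk⟩ : ∃ k, F.n = k + 1 := ⟨F.n - 1, by have := F.pos; omega⟩
  refine ⟨k + 1, ?_⟩
  have := F.pow_mem hx k
  rw [← hk, F.bot, AddSubgroup.mem_bot] at this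
  rw [← hk]
  exact this

theorem inv_mul_mem (u : Aˣ) (hu : (u : A) - 1 ∈ F.J 1) : ∀ k s, 1 ≤ s → F.n ≤ s + k →
    ∀ z ∈ F.J s, ((u⁻¹ : Aˣ) : A) * z ∈ F.J s := by
  intro k
  induction k with
  | zero =>
    intro s hs hn z hz
    have : z ∈ F.J F.n := F.le (by omega : F.n ≤ s) hz
    rw [F.bot, AddSubgroup.mem_bot] at this
    rw [this, mul_zero]
    exact (F.J s).zero_mem
  | succ k ih =>
    intro s hs hn z hz
    have h1 : ((u : A) - 1) * z ∈ F.J (1 + s) := F.mul 1 s _ _ le_rfl hs hu hz
    have h2 := ih (1 + s) (by omega) (by omega) _ h1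
    have h3 := F.le (by omega : s ≤ 1 + s) h2
    have e : ((u⁻¹ : Aˣ) : A) * z = z - ((u⁻¹ : Aˣ) : A) * (((u : A) - 1) * z) := by
      rw [sub_mul, mul_sub, ← mul_assoc, Units.inv_mul, one_mul]
      abel
    rw [e]
    exact (F.J s).sub_mem hz h3

/-- the group `1 + J 1` -/
def U : Subgroup Aˣ where
  carrier := {u | (u : A) - 1 ∈ F.J 1}
  one_mem' := by
    change ((1 : Aˣ) : A) - 1 ∈ F.J 1
    rw [Units.val_one, sub_self]
    exact (F.J 1).zero_mem
  mul_mem' := by
    intro a b ha hb
    change ((a * b : Aˣ) : A) - 1 ∈ F.J 1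
    have h1 := F.anti 1 (F.mul 1 1 _ _ le_rfl le_rfl ha hb)
    have := (F.J 1).add_mem ((F.J 1).add_mem h1 ha) hb
    convert this using 1
    rw [Units.val_mul]
    noncomm_ring
  inv_mem' := by
    intro a ha
    change ((a⁻¹ : Aˣ) : A) - 1 ∈ F.J 1
    have h1 := F.inv_mul_mem a ha F.n 1 le_rfl (by omega) _ ha
    have := (F.J 1).neg_mem h1
    convert this using 1
    rw [mul_sub, Units.inv_mul, mul_one]
    abel

/-- the filtered group -/
def fg : FG F.U A where
  val := (Units.coeHom A).comp F.U.subtype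
  J := F.J
  anti := F.anti
  mulL := fun s a b hs ha hb => by
    have := F.mul 1 s a b le_rfl hs ha hb
    rwa [add_comm] at this
  mulR := fun s a b hs ha hb => F.mul s 1 a b hs le_rfl ha hb
  mem := fun g => g.2
  surj := by
    intro a ha
    have h1 := (F.nilp ha).isUnit_one_add
    rw [add_sub_cancel] at h1
    obtain ⟨u, hu⟩ := h1
    refine ⟨⟨u, ?_⟩, hu⟩
    change (u : A) - 1 ∈ F.J 1
    rw [hu]
    exact ha
  inj := by
    intro a b hab
    apply Subtype.ext
    apply Units.ext
    exact hab

@[simp] theorem fg_J : F.fg.J = F.J := rfl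

theorem fg_val (u : F.U) : F.fg.val u = ((u : Aˣ) : A) := rfl

end Flt

/-! ### functions on finite sets -/

section Fun

variable {R : Type*} [Ring R] (F : Flt R)

/-- the difference with respect to one point -/
def dl1 (l : ℕ) (w : Finset ℕ → R) (T : Finset ℕ) : R := w (T.erase l) - w (insert l T)

/-- iterated differences -/
def Df : List ℕ → (Finset ℕ → R) → Finset ℕ → R
  | [], w => w
  | l :: L, w => Df L (dl1 l w)

theorem dl1_add (l : ℕ) (w w' : Finset ℕ → R) : dl1 l (w + w') = dl1 l w + dl1 l w' := by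
  funext T; simp only [dl1, Pi.add_apply]; abel

theorem dl1_neg (l : ℕ) (w : Finset ℕ → R) : dl1 l (-w) = -dl1 l w := by
  funext T; simp only [dl1, Pi.neg_apply]; abel

theorem dl1_zero (l : ℕ) : dl1 l (0 : Finset ℕ → R) = 0 := by
  funext T; simp [dl1]

theorem Df_add (L : List ℕ) : ∀ (w w' : Finset ℕ → R), Df L (w + w') = Df L w + Df L w' := by
  induction L with
  | nil => intro w w'; rfl
  | cons l L ih => intro w w'; simp only [Df, dl1_add, ih]

theorem Df_neg (L : List ℕ) : ∀ (w : Finset ℕ → R), Df L (-w) = -Df L w := by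
  induction L with
  | nil => intro w; rfl
  | cons l L ih => intro w; simp only [Df, dl1_neg, ih]

theorem Df_zero (L : List ℕ) : Df L (0 : Finset ℕ → R) = 0 := by
  induction L with
  | nil => rfl
  | cons l L ih => simp only [Df, dl1_zero, ih]

/-- functions whose iterated differences are in deeper parts of the filtration -/
def W (s : ℕ) : AddSubgroup (Finset ℕ → R) where
  carrier := {w | ∀ L T, Df L w T ∈ F.J (s + L.length)}
  zero_mem' := by
    intro L T
    rw [Df_zero]
    exact (F.J _).zero_mem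
  add_mem' := by
    intro a b ha hb L T
    rw [Df_add]
    exact (F.J _).add_mem (ha L T) (hb L T)
  neg_mem' := by
    intro a ha L T
    rw [Df_neg]
    exact (F.J _).neg_mem (ha L T)

theorem W_anti {s t : ℕ} (h : s ≤ t) : W F t ≤ W F s := by
  intro w hw L T
  exact F.le (by omega) (hw L T)

theorem W_val {s : ℕ} {w : Finset ℕ → R} (hw : w ∈ W F s) (T : Finset ℕ) : w T ∈ F.J s := hw [] T

theorem W_dl {s : ℕ} {w : Finset ℕ → R} (hw : w ∈ W F s) (l : ℕ) : dl1 l w ∈ W F (s + 1) := by
  intro L T
  have := hw (l :: L) T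
  simp only [Df, List.length_cons] at this
  rwa [show s + (L.length + 1) = s + 1 + L.length by omega] at this

theorem W_comp_aux (l : ℕ) (e : Finset ℕ → Finset ℕ)
    (he1 : ∀ T, e (T.erase l) = e (insert l T))
    (he2 : ∀ l' T, l' ≠ l → e (T.erase l') = (e T).erase l')
    (he3 : ∀ l' T, l' ≠ l → e (insert l' T) = insert l' (e T)) (L : List ℕ) :
    ∀ (s : ℕ) (w : Finset ℕ → R), w ∈ W F s → ∀ T, Df L (fun T => w (e T)) T ∈ F.J (s + L.length) := by
  induction L with
  | nil => intro s w hw T; exact hw [] (e T)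
  | cons l' L ih =>
    intro s w hw T
    simp only [Df, List.length_cons]
    by_cases h : l' = l
    · subst h
      have : dl1 l' (fun T => w (e T)) = 0 := by
        funext T
        simp only [dl1, he1 T, sub_self]
        rfl
      rw [this, Df_zero]
      exact (F.J _).zero_mem
    · have : dl1 l' (fun T => w (e T)) = fun T => dl1 l' w (e T) := by
        funext T
        simp only [dl1, he2 l' T h, he3 l' T h]
      rw [this]
      have := ih (s + 1) (dl1 l' w) (W_dl F hw l') T
      rwa [show s + (L.length + 1) = s + 1 + L.length by omega]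

theorem W_erase {s : ℕ} {w : Finset ℕ → R} (hw : w ∈ W F s) (l : ℕ) :
    (fun T => w (T.erase l)) ∈ W F s := by
  intro L
  refine W_comp_aux F l (fun T => T.erase l) ?_ ?_ ?_ L s w hw
  · intro T; ext x; simp only [Finset.mem_erase, Finset.mem_insert]; tauto
  · intro l' T h; ext x; simp only [Finset.mem_erase]; tauto
  · intro l' T h; ext x; simp only [Finset.mem_erase, Finset.mem_insert]
    constructor
    · rintro ⟨h1, rfl | h2⟩
      · exact Or.inl rfl
      · exact Or.inr ⟨h1, h2⟩
    · rintro (rfl | ⟨h1, h2⟩)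
      · exact ⟨h, Or.inl rfl⟩
      · exact ⟨h1, Or.inr h2⟩

theorem W_insert {s : ℕ} {w : Finset ℕ → R} (hw : w ∈ W F s) (l : ℕ) :
    (fun T => w (insert l T)) ∈ W F s := by
  intro L
  refine W_comp_aux F l (fun T => insert l T) ?_ ?_ ?_ L s w hw
  · intro T; ext x; simp only [Finset.mem_erase, Finset.mem_insert]; tauto
  · intro l' T h; ext x; simp only [Finset.mem_erase, Finset.mem_insert]
    constructor
    · rintro (rfl | ⟨h1, h2⟩)
      · exact ⟨fun e => h e.symm, Or.inl rfl⟩
      · exact ⟨h1, Or.inr h2⟩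
    · rintro ⟨h1, rfl | h2⟩
      · exact Or.inl rfl
      · exact Or.inr ⟨h1, h2⟩
  · intro l' T h; ext x; simp only [Finset.mem_insert]; tauto

theorem W_mul_aux (L : List ℕ) : ∀ (s t : ℕ) (w w' : Finset ℕ → R), 1 ≤ s → 1 ≤ t → w ∈ W F s →
    w' ∈ W F t → ∀ T, Df L (w * w') T ∈ F.J (s + t + L.length) := by
  induction L with
  | nil =>
    intro s t w w' hs ht hw hw' T
    exact F.mul s t _ _ hs ht (hw [] T) (hw' [] T)
  | cons l L ih =>
    intro s t w w' hs ht hw hw' T
    simp only [Df, List.length_cons]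
    have : dl1 l (w * w') = dl1 l w * (fun T => w' (T.erase l)) + (fun T => w (insert l T)) * dl1 l w' := by
      funext T
      simp only [dl1, Pi.mul_apply, Pi.add_apply]
      noncomm_ring
    rw [this, Df_add]
    have h1 := ih (s + 1) t _ _ (by omega) ht (W_dl F hw l) (W_erase F hw' l) T
    have h2 := ih s (t + 1) _ _ hs (by omega) (W_insert F hw l) (W_dl F hw' l) T
    rw [show s + 1 + t + L.length = s + t + (L.length + 1) by omega] at h1
    rw [show s + (t + 1) + L.length = s + t + (L.length + 1) by omega] at h2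
    exact (F.J _).add_mem h1 h2

theorem W_mul {s t : ℕ} {w w' : Finset ℕ → R} (hs : 1 ≤ s) (ht : 1 ≤ t) (hw : w ∈ W F s)
    (hw' : w' ∈ W F t) : w * w' ∈ W F (s + t) := fun L T => W_mul_aux F L s t w w' hs ht hw hw' T

theorem W_flip {s : ℕ} {w : Finset ℕ → R} (hw : w ∈ W F (s + 1)) (l : ℕ) :
    (fun T => if l ∈ T then w T else 0) ∈ W F s := by
  have aux : ∀ (L : List ℕ) (s : ℕ) (w : Finset ℕ → R), w ∈ W F (s + 1) → ∀ T,
      Df L (fun T => if l ∈ T then w T else 0) T ∈ F.J (s + L.length) := by
    intro L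
    induction L with
    | nil =>
      intro s w hw T
      simp only [Df]
      split_ifs
      · exact F.anti s (hw [] T)
      · exact (F.J _).zero_mem
    | cons l' L ih =>
      intro s w hw T
      simp only [Df, List.length_cons]
      by_cases h : l' = l
      · subst h
        have : dl1 l' (fun T => if l' ∈ T then w T else 0) = -(fun T => w (insert l' T)) := by
          funext T
          simp [dl1]
        rw [this, Df_neg]
        have := (F.J _).neg_mem (W_insert F hw l' L T)
        rwa [show s + (L.length + 1) = s + 1 + L.length by omega]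
      · have : dl1 l' (fun T => if l ∈ T then w T else 0) = fun T => if l ∈ T then dl1 l' w T else 0 := by
          funext T
          have h' : ¬ l = l' := fun e => h e.symm
          by_cases hT : l ∈ T
          · simp [dl1, hT, h']
          · simp [dl1, hT, h']
        rw [this]
        have := ih (s + 1) (dl1 l' w) (W_dl F hw l') T
        rwa [show s + (L.length + 1) = s + 1 + L.length by omega]
  exact fun L T => aux L s w hw T

theorem W_const {s : ℕ} {x : R} (hx : x ∈ F.J s) : (fun _ => x) ∈ W F s := by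
  intro L T
  cases L with
  | nil => exact hx
  | cons l L =>
    simp only [Df]
    have : dl1 l (fun _ : Finset ℕ => x) = 0 := by funext T; simp [dl1]
    rw [this, Df_zero]
    exact (F.J _).zero_mem

/-- the alternating sum over all subsets -/
theorem W_sum (S : Finset ℕ) : ∀ (s : ℕ) (w : Finset ℕ → R), w ∈ W F s →
    ∑ T ∈ S.powerset, (-1 : ℤ) ^ T.card • w T ∈ F.J (s + S.card) := by
  induction S using Finset.induction_on with
  | empty =>
    intro s w hw
    have := hw [] ∅
    simp only [Df, List.length_nil] at this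
    simpa using this
  | insert l S hl ih =>
    intro s w hw
    rw [Finset.sum_powerset_insert hl, Finset.card_insert_of_notMem hl]
    have h := ih (s + 1) (dl1 l w) (W_dl F hw l)
    rw [show s + (S.card + 1) = s + 1 + S.card by omega]
    convert h using 1
    rw [← Finset.sum_add_distrib]
    apply Finset.sum_congr rfl
    intro T hT
    have hlT : l ∉ T := fun h' => hl (Finset.mem_powerset.1 hT h')
    rw [Finset.card_insert_of_notMem hlT, pow_succ, dl1, Finset.erase_eq_of_notMem hlT]
    simp only [mul_neg, mul_one, neg_smul, smul_sub]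
    abel

/-- the filtration on the ring of functions -/
def FW : Flt (Finset ℕ → R) where
  J := fun s =>
    { carrier := {w | w ∈ W F 1 ∧ ∀ T, w T ∈ F.J s}
      zero_mem' := ⟨(W F 1).zero_mem, fun T => (F.J s).zero_mem⟩
      add_mem' := fun ha hb => ⟨(W F 1).add_mem ha.1 hb.1, fun T => (F.J s).add_mem (ha.2 T) (hb.2 T)⟩
      neg_mem' := fun ha => ⟨(W F 1).neg_mem ha.1, fun T => (F.J s).neg_mem (ha.2 T)⟩ }
  anti := fun s w hw => ⟨hw.1, fun T => F.anti s (hw.2 T)⟩
  mul := fun s t a b hs ht ha hb =>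
    ⟨W_anti F (by omega : 1 ≤ 1 + 1) (W_mul F le_rfl le_rfl ha.1 hb.1),
      fun T => F.mul s t _ _ hs ht (ha.2 T) (hb.2 T)⟩
  n := F.n
  pos := F.pos
  bot := by
    rw [eq_bot_iff]
    intro w hw
    rw [AddSubgroup.mem_bot]
    funext T
    have := hw.2 T
    rw [F.bot, AddSubgroup.mem_bot] at this
    exact this

theorem mem_FW {s : ℕ} {w : Finset ℕ → R} : w ∈ (FW F).J s ↔ w ∈ W F 1 ∧ ∀ T, w T ∈ F.J s := Iff.rfl

end Fun

end Pool.Agent.Y510.SL
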