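import Pool.Agent.Y510.SL.AbUnique

/-!
# Labels of string link diagrams in nilpotent groups

`G` is a group which is embedded as `1 + J 1` in a filtered ring, whose filtration terminates.
For every choice of labels at the top of a string link there is exactly one labeling of the diagram.
This is shown for general crossing rules.
-/

set_option autoImplicit false

namespace Pool.Agent.Y510.SL

open Pool.Agent.H835R2.Knot (Piece Word Front Fits run comps up dn sw)
open Pool.Agent.H835R2.Knot.Piece
open Pool.Agent.H838R2.SL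

/-- Crossing rules: `R l p a b` are the labels of the strands below the crossing `p` at place `l`,
if `a` and `b` are the labels of the strands above it. -/
abbrev Rule (G : Type*) := ℕ → Piece → G → G → G × G

section Defs

variable {G : Type*} [Group G]

/-- labels below a piece -/
def gst (R : Rule G) (l : ℕ) : Piece → G → (ℕ → G) → ℕ → G
  | .birth i _, b, m => fun p => if p < i then m p else if p = i then b
      else if p = i + 1 then b⁻¹ else m (p - 2)
  | .death i, _, m => fun p => m (up i p)
  | .pos i, _, m => fun p => if p = i then (R l (pos i) (m i) (m (i + 1))).1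
      else if p = i + 1 then (R l (pos i) (m i) (m (i + 1))).2 else m p
  | .neg i, _, m => fun p => if p = i then (R l (neg i) (m i) (m (i + 1))).1
      else if p = i + 1 then (R l (neg i) (m i) (m (i + 1))).2 else m p

/-- the product of the labels at a minimum -/
def gd : Piece → (ℕ → G) → G
  | .death i, m => m i * m (i + 1)
  | _, _ => 1

/-- labels at the bottom -/
def grun (R : Rule G) : Word → ℕ → (ℕ → G) → (ℕ → G) → ℕ → G
  | [], _, _, m => m
  | p :: w, l, b, m => grun R w (l + 1) b (gst R l p (b l) m)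

/-- products at the minima -/
def gdv (R : Rule G) : Word → ℕ → (ℕ → G) → (ℕ → G) → ℕ → G
  | [], _, _, _ => fun _ => 1
  | p :: w, l, b, m => fun n => if n = l then gd p m else gdv R w (l + 1) b (gst R l p (b l) m) n

theorem grun_congr (R : Rule G) (w : Word) : ∀ (l : ℕ) (b b' m : ℕ → G),
    (∀ n, IsB w l n → b n = b' n) →
    grun R w l b m = grun R w l b' m ∧ gdv R w l b m = gdv R w l b' m := by
  induction w with
  | nil => intro l b b' m _; exact ⟨rfl, rfl⟩
  | cons p w ih =>
    intro l b b' m h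
    have h0 : gst R l p (b l) m = gst R l p (b' l) m := by
      cases p with
      | birth i c => rw [h l (Or.inl ⟨rfl, i, c, rfl⟩)]
      | death i => rfl
      | pos i => rfl
      | neg i => rfl
    simp only [grun, gdv]
    rw [h0]
    obtain ⟨h1, h2⟩ := ih (l + 1) b b' (gst R l p (b' l) m) (fun n hn => h n (Or.inr hn))
    rw [h1, h2]
    exact ⟨rfl, rfl⟩

theorem gdv_one (R : Rule G) (w : Word) : ∀ (l : ℕ) (b m : ℕ → G) (n : ℕ), ¬ IsD w l n →
    gdv R w l b m n = 1 := by
  induction w with
  | nil => intro l b m n _; rfl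
  | cons p w ih =>
    intro l b m n h
    simp only [gdv]
    split_ifs with hn
    · cases p with
      | birth i c => rfl
      | death i => exact absurd (Or.inl ⟨hn, i, rfl⟩) h
      | pos i => rfl
      | neg i => rfl
    · exact ih _ _ _ _ (fun h' => h (Or.inr h'))

end Defs

section AbMap

variable {K K' : Type*} [AddCommGroup K] [AddCommGroup K']

theorem ast_map (f : K →+ K') (p : Piece) (x : K) (m : ℕ → K) :
    ast p (f x) (fun n => f (m n)) = fun n => f (ast p x m n) := by
  funext n
  cases p <;> simp only [ast]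
  split_ifs <;> simp

theorem ad_map (f : K →+ K') (p : Piece) (m : ℕ → K) :
    ad p (fun n => f (m n)) = f (ad p m) := by
  cases p <;> simp [ad]

theorem arun_map (f : K →+ K') (w : Word) : ∀ (l : ℕ) (b m : ℕ → K),
    (arun w l (fun n => f (b n)) (fun n => f (m n)) = fun n => f (arun w l b m n)) ∧
      (adv w l (fun n => f (b n)) (fun n => f (m n)) = fun n => f (adv w l b m n)) := by
  induction w with
  | nil => intro l b m; exact ⟨rfl, by funext n; simp [adv]⟩
  | cons p w ih =>
    intro l b m
    simp only [arun, adv]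
    rw [ast_map]
    obtain ⟨h1, h2⟩ := ih (l + 1) b (ast p (b l) m)
    rw [h1, h2]
    refine ⟨rfl, ?_⟩
    funext n
    split_ifs
    · exact ad_map f p m
    · rfl

end AbMap

/-- `G` is the group `1 + J 1` in a filtered ring. -/
structure FG (G A : Type*) [Group G] [Ring A] where
  val : G →* A
  J : ℕ → AddSubgroup A
  anti : ∀ s, J (s + 1) ≤ J s
  mulL : ∀ s a b, 1 ≤ s → a ∈ J 1 → b ∈ J s → a * b ∈ J (s + 1)
  mulR : ∀ s a b, 1 ≤ s → a ∈ J s → b ∈ J 1 → a * b ∈ J (s + 1)
  mem : ∀ g, val g - 1 ∈ J 1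
  surj : ∀ a, a - 1 ∈ J 1 → ∃ g, val g = a
  inj : Function.Injective val

namespace FG

variable {G A : Type*} [Group G] [Ring A] (X : FG G A)

theorem le {s t : ℕ} (h : s ≤ t) : X.J t ≤ X.J s := by
  induction h with
  | refl => exact le_rfl
  | step _ ih => exact (X.anti _).trans ih

theorem mul1 {s : ℕ} (hs : 1 ≤ s) (u : G) {z : A} (hz : z ∈ X.J s) :
    X.val u * z - z ∈ X.J (s + 1) := by
  have : X.val u * z - z = (X.val u - 1) * z := by noncomm_ring
  rw [this]
  exact X.mulL s _ _ hs (X.mem u) hz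

theorem mul2 {s : ℕ} (hs : 1 ≤ s) (u : G) {z : A} (hz : z ∈ X.J s) :
    z * X.val u - z ∈ X.J (s + 1) := by
  have : z * X.val u - z = z * (X.val u - 1) := by noncomm_ring
  rw [this]
  exact X.mulR s _ _ hs hz (X.mem u)

theorem mul1' {s : ℕ} (hs : 1 ≤ s) (u : G) {z : A} (hz : z ∈ X.J s) : X.val u * z ∈ X.J s := by
  have h1 := X.anti s (X.mul1 hs u hz)
  have := (X.J s).add_mem h1 hz
  rwa [sub_add_cancel] at this

theorem mul2' {s : ℕ} (hs : 1 ≤ s) (u : G) {z : A} (hz : z ∈ X.J s) : z * X.val u ∈ X.J s := by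
  have h1 := X.anti s (X.mul2 hs u hz)
  have := (X.J s).add_mem h1 hz
  rwa [sub_add_cancel] at this

theorem val_inv (u : G) : X.val u * X.val u⁻¹ = 1 := by rw [← map_mul, mul_inv_cancel, map_one]

theorem inv_val (u : G) : X.val u⁻¹ * X.val u = 1 := by rw [← map_mul, inv_mul_cancel, map_one]

/-- good crossing rules -/
def RGood (r : G → G → G × G) : Prop :=
  ∀ s, 1 ≤ s → ∀ a a' b b', X.val a' - X.val a ∈ X.J s → X.val b' - X.val b ∈ X.J s →
    X.val (r a' b').1 - X.val (r a b).1 - (X.val b' - X.val b) ∈ X.J (s + 1) ∧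
    X.val (r a' b').2 - X.val (r a b).2 - (X.val a' - X.val a) ∈ X.J (s + 1)

theorem good_inv {s : ℕ} (hs : 1 ≤ s) {x x' : G} (h : X.val x' - X.val x ∈ X.J s) :
    X.val x'⁻¹ - X.val x⁻¹ + (X.val x' - X.val x) ∈ X.J (s + 1) := by
  have e : X.val x'⁻¹ - X.val x⁻¹ = -(X.val x'⁻¹ * (X.val x' - X.val x) * X.val x⁻¹) := by
    rw [mul_sub, sub_mul, X.inv_val, mul_assoc _ (X.val x), X.val_inv]
    noncomm_ring
  have h1 := X.mul1 hs x'⁻¹ h
  have h2 := X.mul2 hs x⁻¹ (X.mul1' hs x'⁻¹ h)
  have := (X.J (s + 1)).neg_mem ((X.J (s + 1)).add_mem h1 h2)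
  rw [e]
  convert this using 1
  abel

theorem good_mul {s : ℕ} (hs : 1 ≤ s) {a a' b b' : G} (ha : X.val a' - X.val a ∈ X.J s)
    (hb : X.val b' - X.val b ∈ X.J s) :
    X.val (a' * b') - X.val (a * b) - ((X.val a' - X.val a) + (X.val b' - X.val b)) ∈ X.J (s + 1) := by
  have h1 := X.mul2 hs b' ha
  have h2 := X.mul1 hs a hb
  have := (X.J (s + 1)).add_mem h1 h2
  rw [map_mul, map_mul]
  convert this using 1
  noncomm_ring

/-- conjugation -/
theorem good_conj {s : ℕ} (hs : 1 ≤ s) {a a' b b' : G} (ha : X.val a' - X.val a ∈ X.J s)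
    (hb : X.val b' - X.val b ∈ X.J s) :
    X.val (b'⁻¹ * a' * b') - X.val (b⁻¹ * a * b) - (X.val a' - X.val a) ∈ X.J (s + 1) := by
  have h0 : X.val b'⁻¹ - X.val b⁻¹ ∈ X.J s := by
    have h1 := X.anti s (X.good_inv hs hb)
    have := (X.J s).sub_mem h1 hb
    rwa [add_sub_cancel_right] at this
  have h1 := X.good_inv hs hb
  have h2 := X.good_mul hs h0 ha
  have h3 : X.val (b'⁻¹ * a') - X.val (b⁻¹ * a) ∈ X.J s := by
    have := (X.J s).add_mem (X.anti s h2) ((X.J s).add_mem h0 ha)
    rwa [sub_add_cancel] at this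
  have h4 := X.good_mul hs h3 hb
  have := (X.J (s + 1)).add_mem ((X.J (s + 1)).add_mem h4 h2) h1
  convert this using 1
  abel

theorem rgood_pos : X.RGood (fun a b => (b, b⁻¹ * a * b)) := by
  intro s hs a a' b b' ha hb
  refine ⟨?_, X.good_conj hs ha hb⟩
  simp only [sub_self]
  exact (X.J (s + 1)).zero_mem

theorem rgood_neg : X.RGood (fun a b => (a * b * a⁻¹, a)) := by
  intro s hs a a' b b' ha hb
  constructor
  · have h0 : X.val a'⁻¹ - X.val a⁻¹ ∈ X.J s := by
      have h1 := X.anti s (X.good_inv hs ha)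
      have := (X.J s).sub_mem h1 ha
      rwa [add_sub_cancel_right] at this
    have := X.good_conj hs hb h0
    simpa using this
  · simp only [sub_self]
    exact (X.J (s + 1)).zero_mem

/-! ### comparison of two labelings -/

theorem cmp_step {s : ℕ} (hs : 1 ≤ s) (R : Rule G) (hR : ∀ l p, X.RGood (R l p)) (l : ℕ) (p : Piece)
    (x x' : G) (ξ : A) (m m' : ℕ → G) (μ : ℕ → A) (hξ : ξ ∈ X.J s)
    (hx : X.val x' - X.val x - ξ ∈ X.J (s + 1)) (hμ : ∀ q, μ q ∈ X.J s)
    (hm : ∀ q, X.val (m' q) - X.val (m q) - μ q ∈ X.J (s + 1)) :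
    (∀ q, X.val (gst R l p x' m' q) - X.val (gst R l p x m q) - ast p ξ μ q ∈ X.J (s + 1)) ∧
    (∀ q, ast p ξ μ q ∈ X.J s) ∧
    X.val (gd p m') - X.val (gd p m) - ad p μ ∈ X.J (s + 1) := by
  have hx0 : X.val x' - X.val x ∈ X.J s := by
    have := (X.J s).add_mem (X.anti s hx) hξ
    rwa [sub_add_cancel] at this
  have hm0 : ∀ q, X.val (m' q) - X.val (m q) ∈ X.J s := fun q => by
    have := (X.J s).add_mem (X.anti s (hm q)) (hμ q)
    rwa [sub_add_cancel] at this
  have hzero : (0 : A) ∈ X.J (s + 1) := (X.J (s + 1)).zero_mem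
  have hcross : ∀ i, (i = i) → ∀ r : G → G → G × G, X.RGood r → ∀ q,
      X.val (if q = i then (r (m' i) (m' (i + 1))).1 else if q = i + 1 then
        (r (m' i) (m' (i + 1))).2 else m' q) -
      X.val (if q = i then (r (m i) (m (i + 1))).1 else if q = i + 1 then
        (r (m i) (m (i + 1))).2 else m q) - μ (sw i q) ∈ X.J (s + 1) := by
    intro i _ r hr q
    obtain ⟨h1, h2⟩ := hr s hs (m i) (m' i) (m (i + 1)) (m' (i + 1)) (hm0 i) (hm0 (i + 1))
    by_cases hq : q = i
    · subst hq
      have hsw : sw q q = q + 1 := by unfold sw; rw [if_pos rfl]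
      rw [if_pos rfl, if_pos rfl, hsw]
      have := (X.J (s + 1)).add_mem h1 (hm (q + 1))
      convert this using 1
      abel
    · by_cases hq' : q = i + 1
      · subst hq'
        have hsw : sw i (i + 1) = i := by unfold sw; rw [if_neg (by omega), if_pos rfl]
        rw [if_neg hq, if_pos rfl, if_neg hq, if_pos rfl, hsw]
        have := (X.J (s + 1)).add_mem h2 (hm i)
        convert this using 1
        abel
      · have hsw : sw i q = q := by unfold sw; rw [if_neg hq, if_neg hq']
        rw [if_neg hq, if_neg hq', if_neg hq, if_neg hq', hsw]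
        exact hm q
  refine ⟨?_, ?_, ?_⟩
  · cases p with
    | birth i c =>
      intro q
      simp only [gst, ast]
      split_ifs
      · exact hm _
      · exact hx
      · have h1 := X.good_inv hs hx0
        have := (X.J (s + 1)).sub_mem h1 hx
        convert this using 1
        abel
      · exact hm _
    | death i => intro q; exact hm _
    | pos i => exact hcross i rfl _ (hR l (pos i))
    | neg i => exact hcross i rfl _ (hR l (neg i))
  · cases p with
    | birth i c =>
      intro q
      simp only [ast]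
      split_ifs
      · exact hμ _
      · exact hξ
      · exact (X.J s).neg_mem hξ
      · exact hμ _
    | death i => intro q; exact hμ _
    | pos i => intro q; exact hμ _
    | neg i => intro q; exact hμ _
  · cases p with
    | birth i c => simpa [gd, ad] using hzero
    | death i =>
      simp only [gd, ad]
      have h1 := X.good_mul hs (hm0 i) (hm0 (i + 1))
      have := (X.J (s + 1)).add_mem h1 ((X.J (s + 1)).add_mem (hm i) (hm (i + 1)))
      convert this using 1
      abel
    | pos i => simpa [gd, ad] using hzero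
    | neg i => simpa [gd, ad] using hzero

theorem cmp_word {s : ℕ} (hs : 1 ≤ s) (R : Rule G) (hR : ∀ l p, X.RGood (R l p)) (w : Word) :
    ∀ (l : ℕ) (b b' : ℕ → G) (κ : ℕ → A) (m m' : ℕ → G) (μ : ℕ → A), (∀ q, κ q ∈ X.J s) →
    (∀ q, X.val (b' q) - X.val (b q) - κ q ∈ X.J (s + 1)) → (∀ q, μ q ∈ X.J s) →
    (∀ q, X.val (m' q) - X.val (m q) - μ q ∈ X.J (s + 1)) →
    (∀ q, X.val (grun R w l b' m' q) - X.val (grun R w l b m q) - arun w l κ μ q ∈ X.J (s + 1)) ∧
    (∀ n, X.val (gdv R w l b' m' n) - X.val (gdv R w l b m n) - adv w l κ μ n ∈ X.J (s + 1)) := by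
  induction w with
  | nil =>
    intro l b b' κ m m' μ _ _ _ hm
    refine ⟨hm, fun n => ?_⟩
    simp only [gdv, adv, sub_self]
    exact (X.J (s + 1)).zero_mem
  | cons p w ih =>
    intro l b b' κ m m' μ hκ hb hμ hm
    obtain ⟨h1, h2, h3⟩ := X.cmp_step hs R hR l p (b l) (b' l) (κ l) m m' μ (hκ l) (hb l) hμ hm
    obtain ⟨h4, h5⟩ := ih (l + 1) b b' κ _ _ _ hκ hb h2 h1
    refine ⟨h4, fun n => ?_⟩
    simp only [gdv, adv]
    split_ifs
    · exact h3
    · exact h5 n

/-- existence of labelings -/
theorem gen_exists {N : ℕ} (hN : X.J N = ⊥) (R : Rule G) (hR : ∀ l p, X.RGood (R l p)) {k : ℕ}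
    {D : Word} (h : IsStringLink k D) (t : ℕ → G) : ∃ b : ℕ → G, ∀ n, gdv R D 0 b t n = 1 := by
  have key : ∀ s, 1 ≤ s → ∃ b : ℕ → G, ∀ n, X.val (gdv R D 0 b t n) - 1 ∈ X.J s := by
    intro s hs
    induction s, hs using Nat.le_induction with
    | base => exact ⟨fun _ => 1, fun n => X.mem _⟩
    | succ s hs ih =>
      obtain ⟨b, hb⟩ := ih
      obtain ⟨κ, hκ⟩ := ab_solve (K := X.J s) h (fun _ => 0)
        (fun n => -⟨X.val (gdv R D 0 b t n) - 1, hb n⟩)
      have hex : ∀ n, ∃ g : G, X.val g = X.val (b n) + (κ n : A) := by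
        intro n
        apply X.surj
        have := (X.J 1).add_mem (X.mem (b n)) (X.le hs (κ n).2)
        convert this using 1
        abel
      choose b' hb' using hex
      refine ⟨b', fun n => ?_⟩
      by_cases hn : IsD D 0 n
      · obtain ⟨_, h2⟩ := X.cmp_word hs R hR D 0 b b' (fun n => (κ n : A)) t t (fun _ => 0)
          (fun q => (κ q).2) (fun q => by rw [hb', add_sub_cancel_left, sub_self]; exact (X.J _).zero_mem)
          (fun _ => (X.J _).zero_mem)
          (fun q => by rw [sub_self, sub_self]; exact (X.J _).zero_mem)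
        have h3 := (arun_map (X.J s).subtype D 0 κ (fun _ => 0)).2
        have h4 := congrFun h3 n
        simp only [AddSubgroup.coe_subtype, AddSubgroup.coe_zero] at h4
        have h5 := h2 n
        rw [h4, hκ n hn] at h5
        simpa using h5
      · rw [gdv_one R D 0 b' t n hn, map_one, sub_self]
        exact (X.J _).zero_mem
  obtain ⟨b, hb⟩ := key (N + 1) (by omega)
  refine ⟨b, fun n => ?_⟩
  have h1 := X.anti N (hb n)
  rw [hN, AddSubgroup.mem_bot, sub_eq_zero, ← map_one X.val] at h1
  exact X.inj h1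

/-- uniqueness of labelings -/
theorem gen_unique {N : ℕ} (hN : X.J N = ⊥) (R : Rule G) (hR : ∀ l p, X.RGood (R l p)) {k : ℕ}
    {D : Word} (h : IsStringLink k D) (t : ℕ → G) (b b' : ℕ → G)
    (hb : ∀ n, gdv R D 0 b t n = 1) (hb' : ∀ n, gdv R D 0 b' t n = 1) :
    grun R D 0 b t = grun R D 0 b' t := by
  classical
  let b2 : ℕ → G := fun n => if IsB D 0 n then b' n else b n
  obtain ⟨e1, e2⟩ := grun_congr R D 0 b2 b' t (fun n hn => by simp only [b2]; rw [if_pos hn])
  have hb2 : ∀ n, gdv R D 0 b2 t n = 1 := fun n => by rw [e2]; exact hb' n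
  have key : ∀ s, 1 ≤ s → ∀ n, X.val (b2 n) - X.val (b n) ∈ X.J s := by
    intro s hs
    induction s, hs using Nat.le_induction with
    | base =>
      intro n
      have := (X.J 1).sub_mem (X.mem (b2 n)) (X.mem (b n))
      convert this using 1
      abel
    | succ s hs ih =>
      obtain ⟨_, h2⟩ := X.cmp_word hs R hR D 0 b b2 (fun n => X.val (b2 n) - X.val (b n)) t t
        (fun _ => 0) ih (fun q => by rw [sub_self]; exact (X.J _).zero_mem)
        (fun _ => (X.J _).zero_mem) (fun q => by rw [sub_self, sub_self]; exact (X.J _).zero_mem)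
      have h3 : ∀ n, adv D 0 (fun n => X.val (b2 n) - X.val (b n)) (fun _ => (0 : A)) n ∈
          X.J (s + 1) := by
        intro n
        have := h2 n
        rw [hb, hb2, sub_self, zero_sub] at this
        have := (X.J _).neg_mem this
        rwa [neg_neg] at this
      let π := QuotientAddGroup.mk' (X.J (s + 1))
      have h4 := (arun_map π D 0 (fun n => X.val (b2 n) - X.val (b n)) (fun _ => (0 : A))).2
      have h5 := (ab_unique h (fun n => π (X.val (b2 n) - X.val (b n))) (fun _ => π 0)
        (fun _ _ => map_zero π) (fun n _ => by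
          rw [h4]
          exact (QuotientAddGroup.eq_zero_iff _).2 (h3 n))).1
      intro n
      by_cases hn : IsB D 0 n
      · exact (QuotientAddGroup.eq_zero_iff _).1 (h5 n hn)
      · have : b2 n = b n := by simp only [b2]; rw [if_neg hn]
        rw [this, sub_self]
        exact (X.J _).zero_mem
  have hbb : b2 = b := by
    funext n
    have := X.anti N (key (N + 1) (by omega) n)
    rw [hN, AddSubgroup.mem_bot, sub_eq_zero] at this
    exact X.inj this
  rw [← e1, hbb]

end FG

end Pool.Agent.Y510.SL
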