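import Pool.Agent.Y510.SL.Conj

/-!
# Labelings and homomorphisms of the group of a string link
-/

set_option autoImplicit false

namespace Pool.Agent.Y510.SL

open Pool.Agent.H835R2.Knot (Piece Word Front Fits run comps Move up dn sw)
open Pool.Agent.H835R2.Knot.Piece
open Pool.Agent.H838R2.SL

/-- the labels at the bottom, as words in the generators -/
def flab : Word → ℕ → (ℕ → Lab) → ℕ → Lab
  | [], _, m => m
  | p :: w, c, m => flab w (c + maxP p) (lab p c m)

variable {H : Type*} [Group H]

theorem lab_gst (f : Lab →* H) (p : Piece) (c : ℕ) (m : ℕ → Lab) :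
    gst ru 0 p (f (left c)) (fun z => f (m z)) = fun z => f (lab p c m z) := by
  funext z
  cases p with
  | birth i b =>
    simp only [gst, lab]
    split_ifs <;> simp
  | death i => rfl
  | pos i =>
    simp only [gst, lab, ru]
    split_ifs <;> simp
  | neg i =>
    simp only [gst, lab, ru]
    split_ifs <;> simp

theorem col_hom (f : Lab →* H) (w : Word) : ∀ (c : ℕ) (m : ℕ → Lab),
    (∀ r ∈ rels w c m, f r = 1) → Col w (fun z => f (m z)) (fun z => f (flab w c m z)) := by
  induction w with
  | nil => intro c m _; rfl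
  | cons p w ih =>
    intro c m h
    simp only [Col]
    refine ⟨?_, f (left c), ?_⟩
    · cases p with
      | death i =>
        simp only [gd]
        rw [← map_mul]
        exact h _ (Or.inl rfl)
      | birth i b => rfl
      | pos i => rfl
      | neg i => rfl
    · rw [lab_gst]
      exact ih _ _ (fun r hr => h r (Or.inr hr))

/-- a homomorphism of the group of a string link gives a labeling -/
theorem col_of_hom {k : ℕ} {D : Word} (f : Gp k D →* H) :
    Col D (fun z => f (el k D (top z))) (fun z => f (el k D (flab D 0 top z))) := by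
  refine col_hom (f.comp (PresentedGroup.mk _)) D 0 top ?_
  intro r hr
  have : (PresentedGroup.mk (rels D 0 top ∪ {g | ∃ j, k ≤ j ∧ g = top j} ∪
      {g | ∃ c, maxs D ≤ c ∧ g = left c}) r : Gp k D) = 1 := by
    apply PresentedGroup.one_of_mem
    exact Or.inl (Or.inl hr)
  rw [MonoidHom.comp_apply, this, map_one]

theorem col_ext (t : ℕ → H) (w : Word) : ∀ (c : ℕ) (m : ℕ → Lab) (μ μ' : ℕ → H) (φ : ℕ → H),
    (∀ φ' : ℕ → H, (∀ x < c, φ' x = φ x) → ∀ p, FreeGroup.lift (Sum.elim t φ') (m p) = μ p) →
    Col w μ μ' →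
    ∃ φ' : ℕ → H, (∀ x < c, φ' x = φ x) ∧
      (∀ r ∈ rels w c m, FreeGroup.lift (Sum.elim t φ') r = 1) ∧
      (∀ p, FreeGroup.lift (Sum.elim t φ') (flab w c m p) = μ' p) ∧
      (∀ x, c + maxs w ≤ x → φ' x = 1) := by
  induction w with
  | nil =>
    intro c m μ μ' φ h hc
    simp only [Col] at hc
    subst hc
    refine ⟨fun x => if x < c then φ x else 1, fun x hx => by simp [hx], ?_, ?_, ?_⟩
    · intro r hr; exact hr.elim
    · intro p
      exact h _ (fun x hx => by simp [hx]) p
    · intro x hx
      have : ¬ x < c := by simp [maxs] at hx; omega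
      simp [this]
  | cons p w ih =>
    intro c m μ μ' φ h hc
    simp only [Col] at hc
    obtain ⟨hg, x, hx⟩ := hc
    -- the new assignment
    let ψ : ℕ → H := fun y => if y = c ∧ maxP p = 1 then x else φ y
    have hψ : ∀ φ' : ℕ → H, (∀ y < c + maxP p, φ' y = ψ y) → ∀ z,
        FreeGroup.lift (Sum.elim t φ') (lab p c m z) = gst ru 0 p x μ z := by
      intro φ' hφ' z
      have h1 : ∀ y < c, φ' y = φ y := fun y hy => by
        rw [hφ' y (by omega)]
        simp only [ψ]
        rw [if_neg (by omega)]
      have h2 := h φ' h1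
      have h3 : (fun z => FreeGroup.lift (Sum.elim t φ') (m z)) = μ := funext h2
      have h4 := congrFun (lab_gst (FreeGroup.lift (Sum.elim t φ')) p c m) z
      rw [h3] at h4
      rw [← h4]
      cases p with
      | birth i b =>
        have h5 : FreeGroup.lift (Sum.elim t φ') (left c) = x := by
          rw [left, FreeGroup.lift_apply_of, Sum.elim_inr, hφ' c (by simp [maxP])]
          simp [ψ, maxP]
        rw [h5]
      | death i => rfl
      | pos i => rfl
      | neg i => rfl
    obtain ⟨φ', h1, h2, h3, h4⟩ := ih (c + maxP p) (lab p c m) _ μ' ψ hψ hx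
    have h1' : ∀ y < c, φ' y = φ y := fun y hy => by
      rw [h1 y (by omega)]
      simp only [ψ]
      rw [if_neg (by omega)]
    refine ⟨φ', h1', ?_, h3, ?_⟩
    · intro r hr
      rcases hr with hr | hr
      · cases p with
        | death i =>
          have hr' : r = m i * m (i + 1) := hr
          rw [hr', map_mul, h φ' h1', h φ' h1']
          exact hg
        | birth i b => exact hr.elim
        | pos i => exact hr.elim
        | neg i => exact hr.elim
      · exact h2 r hr
    · intro y hy
      apply h4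
      simp only [maxs, List.map_cons, List.sum_cons] at hy ⊢
      omega

/-- a labeling gives a homomorphism of the group of a string link -/
theorem hom_of_col {k : ℕ} {D : Word} {t m : ℕ → H} (ht : ∀ j, k ≤ j → t j = 1) (hc : Col D t m) :
    ∃ f : Gp k D →* H, (∀ z, f (el k D (top z)) = t z) ∧
      ∀ z, f (el k D (flab D 0 top z)) = m z := by
  obtain ⟨φ, _, h2, h3, h4⟩ := col_ext t D 0 top t m (fun _ => 1)
    (fun φ' _ p => by rw [top, FreeGroup.lift_apply_of, Sum.elim_inl]) hc
  have hf : ∀ r ∈ rels D 0 top ∪ {g | ∃ j, k ≤ j ∧ g = top j} ∪ {g | ∃ c, maxs D ≤ c ∧ g = left c},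
      FreeGroup.lift (Sum.elim t φ) r = 1 := by
    rintro r ((h | ⟨j, hj, rfl⟩) | ⟨c, hc, rfl⟩)
    · exact h2 r h
    · rw [top, FreeGroup.lift_apply_of, Sum.elim_inl, ht j hj]
    · rw [left, FreeGroup.lift_apply_of, Sum.elim_inr, h4 c (by omega)]
  refine ⟨PresentedGroup.toGroup hf, fun z => ?_, fun z => ?_⟩
  · change FreeGroup.lift (Sum.elim t φ) (top z) = t z
    rw [top, FreeGroup.lift_apply_of, Sum.elim_inl]
  · exact h3 z

end Pool.Agent.Y510.SL
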