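import Pool.Agent.Y510.SL.FT

/-!
# The invariant
-/

set_option autoImplicit false

namespace Pool.Agent.Y510.SL

open Pool.Agent.H835R2.Knot (Piece Word Front Fits run comps Move crossingSet switchAt up dn sw)
open Pool.Agent.H835R2.Knot.Piece
open Pool.Agent.H838R2.SL

theorem step_col {G : Type*} [Group G] {k : ℕ} {D E : Word} (h : Step k D E) (m m' : ℕ → G) :
    Col D m m' ↔ Col E m m' := by
  cases h with
  | mk x l r y hm _ _ => exact col_context hm m m'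

theorem map_tops {G H : Type*} [Group G] [Group H] (f : G →* H) (a b : G) :
    (fun z => f (tops a b z)) = tops (f a) (f b) := by
  funext z
  rcases z with _ | _ | z
  · rfl
  · rfl
  · exact map_one f

variable {R : Type*} [Ring R] (F : Flt R)

/-- the labels at the bottom -/
noncomputable def bot2 (D : Word) (h : IsStringLink 2 D) (a b : F.U) : ℕ → F.U :=
  Classical.choose (col_exists F.fg (N := F.n) F.bot h (tops a b))

theorem bot2_spec (D : Word) (h : IsStringLink 2 D) (a b : F.U) :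
    Col D (tops a b) (bot2 F D h a b) :=
  Classical.choose_spec (col_exists F.fg (N := F.n) F.bot h (tops a b))

theorem bot2_eq {D : Word} (h : IsStringLink 2 D) {a b : F.U} {m : ℕ → F.U}
    (hm : Col D (tops a b) m) : bot2 F D h a b = m :=
  col_unique F.fg (N := F.n) F.bot h (bot2_spec F D h a b) hm

/-- the second component of `A (J (A s))`, times `s1` -/
noncomputable def val2 (s0 s1 : F.U) (D : Word) (h : IsStringLink 2 D) : F.U :=
  bot2 F D h ((bot2 F D h s0 s1 1)⁻¹ * (bot2 F D h s0 s1 0)⁻¹ * bot2 F D h s0 s1 1)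
    (bot2 F D h s0 s1 1)⁻¹ 1 * s1

theorem val2_eq (s0 s1 : F.U) {D : Word} (h : IsStringLink 2 D) {m m' : ℕ → F.U}
    (hm : Col D (tops s0 s1) m) (hm' : Col D (tops ((m 1)⁻¹ * (m 0)⁻¹ * m 1) (m 1)⁻¹) m') :
    val2 F s0 s1 D h = m' 1 * s1 := by
  unfold val2
  rw [bot2_eq F h hm, bot2_eq F h hm']

/-- the invariant -/
noncomputable def inv2 (s0 s1 : F.U) (φ : R →+ ℚ) : StringLink 2 → ℚ :=
  Quot.lift (fun D => φ (F.fg.val (val2 F s0 s1 D.1 D.2))) (by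
    intro D E hDE
    have h1 := bot2_spec F D.1 D.2 s0 s1
    have h2 := bot2_spec F D.1 D.2
      ((bot2 F D.1 D.2 s0 s1 1)⁻¹ * (bot2 F D.1 D.2 s0 s1 0)⁻¹ * bot2 F D.1 D.2 s0 s1 1)
      (bot2 F D.1 D.2 s0 s1 1)⁻¹
    have e := val2_eq F s0 s1 E.2 ((step_col hDE _ _).1 h1) ((step_col hDE _ _).1 h2)
    rw [e]
    rfl)

theorem inv2_mk (s0 s1 : F.U) (φ : R →+ ℚ) {D : Word} (h : IsStringLink 2 D) :
    inv2 F s0 s1 φ (mk D h) = φ (F.fg.val (val2 F s0 s1 D h)) := rfl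

theorem const_exists (x : F.U) : ∃ c : (FW F).U, ∀ T, evT F T c = x := by
  have hmem : (fun _ : Finset ℕ => F.fg.val x) - 1 ∈ (FW F).fg.J 1 := by
    refine ⟨?_, fun T => F.fg.mem x⟩
    exact W_const F (F.fg.mem x)
  obtain ⟨c, hc⟩ := (FW F).fg.surj _ hmem
  refine ⟨c, fun T => ?_⟩
  apply F.fg.inj
  rw [evT_val, hc]

theorem inv2_mem_V (s0 s1 : F.U) (φ : R →+ ℚ) (hφ : φ 1 = 0) {n : ℕ} (hn : F.n ≤ n + 2) :
    inv2 F s0 s1 φ ∈ V 2 n := by
  intro D h S _ hc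
  obtain ⟨c0, hc0⟩ := const_exists F s0
  obtain ⟨c1, hc1⟩ := const_exists F s1
  obtain ⟨m, hm⟩ := mixed F h (tops c0 c1)
  obtain ⟨m', hm'⟩ := mixed F h (tops ((m 1)⁻¹ * (m 0)⁻¹ * m 1) (m 1)⁻¹)
  set g := m' 1 * c1 with hg
  have hval : ∀ T, val2 F s0 s1 (switchAt T D) (switch 2 D T h) = evT F T g := by
    intro T
    have h1 := hm T
    have h2 := hm' T
    rw [map_tops, hc0, hc1] at h1
    rw [map_tops] at h2
    simp only [map_mul, map_inv] at h2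
    rw [val2_eq F s0 s1 (switch 2 D T h) h1 h2, hg, map_mul, hc1]
  have hW := ((FW F).fg.mem g).1
  have hsum := W_sum F S 1 _ hW
  have h0 : F.J (1 + S.card) ≤ ⊥ := by
    rw [← F.bot]
    exact F.le (by omega)
  have hz := h0 hsum
  rw [AddSubgroup.mem_bot] at hz
  have : ∀ T : Finset ℕ, ev (inv2 F s0 s1 φ) (switchAt T D) = φ (((FW F).fg.val g - 1) T) := by
    intro T
    rw [ev_mk _ (switch 2 D T h), inv2_mk, hval, evT_val]
    rw [Pi.sub_apply, map_sub, Pi.one_apply, hφ, sub_zero]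
  simp only [this]
  have h2 := congrArg φ hz
  rw [map_sum, map_zero] at h2
  rw [← h2]
  apply Finset.sum_congr rfl
  intro T _
  rw [map_zsmul, zsmul_eq_mul]
  push_cast
  rfl

theorem inv2_mem_N {N' A' : Type*} [Group N'] [Ring A'] (X' : FG N' A') {n' : ℕ}
    (hn' : X'.J n' = ⊥)
    (a' b' : N') (hnc : (a' * b' * a'⁻¹ * b'⁻¹) * (a'⁻¹ * b' * a' * b'⁻¹) ≠
      (a'⁻¹ * b' * a' * b'⁻¹) * (a' * b' * a'⁻¹ * b'⁻¹))
    (s0 s1 : F.U) (φ : R →+ ℚ) (hφ : φ 1 = 0) {n : ℕ} (hn : F.n ≤ n + 2) :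
    inv2 F s0 s1 φ ∈ N 2 n := by
  refine ⟨inv2_mem_V F s0 s1 φ hφ hn, fun D h hfree => ?_⟩
  rw [inv2_mk]
  have h1 := bot2_spec F D h s0 s1
  have h2 := bot2_spec F D h
    ((bot2 F D h s0 s1 1)⁻¹ * (bot2 F D h s0 s1 0)⁻¹ * bot2 F D h s0 s1 1)
    (bot2 F D h s0 s1 1)⁻¹
  have h3 := free_case F.fg (n := F.n) F.bot X' hn' a' b' hnc h hfree s0 s1 _ _ h1 h2
  rw [val2_eq F s0 s1 h h1 h2, h3, inv_mul_cancel, map_one, hφ]

end Pool.Agent.Y510.SL
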