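import Pool.Agent.Y510.SL.Inv

/-!
# Unitriangular matrices, and a checker for labelings by them
-/

set_option autoImplicit false

namespace Pool.Agent.Y510.SL

open Pool.Agent.H835R2.Knot (Piece Word Front Fits run comps Move crossingSet switchAt up dn sw)
open Pool.Agent.H835R2.Knot.Piece
open Pool.Agent.H838R2.SL

/-- the filtration of the ring of matrices by the distance from the diagonal -/
def FM (n : ℕ) (hn : 1 ≤ n) : Flt (Matrix (Fin n) (Fin n) ℚ) where
  J := fun s =>
    { carrier := {M | ∀ i j : Fin n, (j : ℕ) < i + s → M i j = 0}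
      zero_mem' := fun _ _ _ => rfl
      add_mem' := fun {a b} ha hb i j h => by rw [Matrix.add_apply, ha i j h, hb i j h, add_zero]
      neg_mem' := fun {a} ha i j h => by rw [Matrix.neg_apply, ha i j h, neg_zero] }
  anti := fun s M hM i j h => hM i j (by omega)
  mul := by
    intro s t a b _ _ ha hb i j h
    rw [Matrix.mul_apply]
    apply Finset.sum_eq_zero
    intro k _
    by_cases hk : (k : ℕ) < i + s
    · rw [ha i k hk, zero_mul]
    · rw [hb k j (by omega), mul_zero]
  n := n
  pos := hn
  bot := by
    rw [eq_bot_iff]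
    intro M hM
    rw [AddSubgroup.mem_bot]
    ext i j
    exact hM i j (by have := j.2; omega)

/-! ### matrices as lists -/

abbrev LM : Type := List (List ℤ)

def addL : List ℤ → List ℤ → List ℤ
  | [], v => v
  | u, [] => u
  | a :: u, b :: v => (a + b) :: addL u v

theorem addL_getD (u : List ℤ) : ∀ (v : List ℤ) (j : ℕ),
    (addL u v).getD j 0 = u.getD j 0 + v.getD j 0 := by
  induction u with
  | nil => intro v j; simp [addL]
  | cons a u ih =>
    intro v j
    cases v with
    | nil => simp [addL]
    | cons b v =>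
      cases j with
      | zero => simp [addL]
      | succ j => simpa [addL] using ih v j

/-- linear combination of rows -/
def lin : List ℤ → LM → List ℤ
  | a :: as, r :: rs => addL (r.map (a * ·)) (lin as rs)
  | _, _ => []

theorem map_getD (a : ℤ) (r : List ℤ) (j : ℕ) : (r.map (a * ·)).getD j 0 = a * r.getD j 0 := by
  rw [List.getD_eq_getElem?_getD, List.getD_eq_getElem?_getD, List.getElem?_map]
  cases r[j]? <;> simp

theorem lin_getD (j : ℕ) (as : List ℤ) : ∀ (rs : LM) (n : ℕ), rs.length ≤ n →
    (lin as rs).getD j 0 = ∑ k ∈ Finset.range n, as.getD k 0 * (rs.getD k []).getD j 0 := by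
  induction as with
  | nil => intro rs n _; simp [lin]
  | cons a as ih =>
    intro rs n h
    cases rs with
    | nil => simp [lin]
    | cons r rs =>
      obtain ⟨m, rfl⟩ : ∃ m, n = m + 1 := ⟨n - 1, by simp at h; omega⟩
      rw [Finset.sum_range_succ']
      simp only [lin, addL_getD, map_getD]
      rw [ih rs m (by simpa using h)]
      simp [add_comm]

def mulL (A B : LM) : LM := A.map fun r => lin r B

theorem mulL_getD (A B : LM) (i : ℕ) : (mulL A B).getD i [] = lin (A.getD i []) B := by
  unfold mulL
  rw [List.getD_eq_getElem?_getD, List.getD_eq_getElem?_getD, List.getElem?_map]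
  cases A[i]? with
  | none => simp [lin]
  | some r => simp

/-- the matrix given by a list of rows -/
def toMat (n : ℕ) (A : LM) : Matrix (Fin n) (Fin n) ℚ := fun i j =>
  (((A.getD i []).getD j 0 : ℤ) : ℚ)

theorem toMat_mul {n : ℕ} (A B : LM) (hB : B.length ≤ n) :
    toMat n (mulL A B) = toMat n A * toMat n B := by
  ext i j
  rw [Matrix.mul_apply]
  simp only [toMat]
  rw [mulL_getD, lin_getD j _ B n hB]
  push_cast
  rw [Finset.sum_range]

/-- unitriangular -/
def uni (n : ℕ) (A : LM) : Bool :=
  A.length == n && decide (∀ i j : Fin n, (j : ℕ) < i + 1 → (A.getD i []).getD j 0 = if i = j then 1 else 0)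

theorem uni_len {n : ℕ} {A : LM} (h : uni n A = true) : A.length = n := by
  simp only [uni, Bool.and_eq_true, beq_iff_eq, decide_eq_true_eq] at h
  exact h.1

theorem uni_mem {n : ℕ} (hn : 1 ≤ n) {A : LM} (h : uni n A = true) :
    toMat n A - 1 ∈ (FM n hn).J 1 := by
  simp only [uni, Bool.and_eq_true, beq_iff_eq, decide_eq_true_eq] at h
  intro i j hij
  rw [Matrix.sub_apply, Matrix.one_apply]
  simp only [toMat]
  rw [h.2 i j hij]
  split_ifs <;> simp

/-- the element of the group -/
noncomputable def toU (n : ℕ) (hn : 1 ≤ n) (A : LM) : (FM n hn).U :=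
  if h : uni n A = true then Classical.choose ((FM n hn).fg.surj _ (uni_mem hn h)) else 1

theorem toU_val {n : ℕ} (hn : 1 ≤ n) {A : LM} (h : uni n A = true) :
    (FM n hn).fg.val (toU n hn A) = toMat n A := by
  rw [toU, dif_pos h]
  exact Classical.choose_spec ((FM n hn).fg.surj _ (uni_mem hn h))

theorem toU_mul_eq {n : ℕ} (hn : 1 ≤ n) {A B C D : LM} (hA : uni n A = true) (hB : uni n B = true)
    (hC : uni n C = true) (hD : uni n D = true) (h : mulL A B = mulL C D) :
    toU n hn A * toU n hn B = toU n hn C * toU n hn D := by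
  apply (FM n hn).fg.inj
  rw [map_mul, map_mul, toU_val hn hA, toU_val hn hB, toU_val hn hC, toU_val hn hD,
    ← toMat_mul A B (uni_len hB).le, ← toMat_mul C D (uni_len hD).le, h]

theorem toU_mul_eq1 {n : ℕ} (hn : 1 ≤ n) {A B C : LM} (hA : uni n A = true) (hB : uni n B = true)
    (hC : uni n C = true) (h : mulL A B = C) :
    toU n hn A * toU n hn B = toU n hn C := by
  apply (FM n hn).fg.inj
  rw [map_mul, toU_val hn hA, toU_val hn hB, toU_val hn hC,
    ← toMat_mul A B (uni_len hB).le, h]

/-! ### the checker -/

/-- signed labels: the number of a matrix, and whether it is inverted (`false`) -/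
abbrev SLab : Type := ℕ × Bool

section Sem

variable {G : Type*} [Group G]

def sem (u : ℕ → G) (a : SLab) : G := if a.2 then u a.1 else (u a.1)⁻¹

/-- `x` with `x = b⁻¹ a b` -/
def conjOK (_n : ℕ) (A : ℕ → LM) (x a : ℕ) (b : SLab) : Bool :=
  if b.2 then mulL (A b.1) (A x) == mulL (A a) (A b.1) else mulL (A x) (A b.1) == mulL (A b.1) (A a)

end Sem

/-- One step of the checker. `c` is the number of the new matrix (and the sign at a maximum). -/
def cstep (n : ℕ) (A : ℕ → LM) : Piece → SLab → List SLab → Option (List SLab)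
  | .birth i _, c, σ => if i ≤ σ.length then
      some (σ.take i ++ [c, (c.1, !c.2)] ++ σ.drop i) else none
  | .death i, _, σ => match σ.drop i with
    | a :: b :: ρ => if a.1 = b.1 ∧ b.2 = !a.2 then some (σ.take i ++ ρ) else none
    | _ => none
  | .pos i, c, σ => match σ.drop i with
    | a :: b :: ρ => if conjOK n A c.1 a.1 b then some (σ.take i ++ [b, (c.1, a.2)] ++ ρ) else none
    | _ => none
  | .neg i, c, σ => match σ.drop i with
    | a :: b :: ρ => if conjOK n A c.1 b.1 (a.1, !a.2) then
        some (σ.take i ++ [(c.1, b.2), a] ++ ρ) else none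
    | _ => none

def crun (n : ℕ) (A : ℕ → LM) : Word → List SLab → List SLab → Option (List SLab)
  | [], _, σ => some σ
  | p :: w, c :: cs, σ => match cstep n A p c σ with
    | some σ' => crun n A w cs σ'
    | none => none
  | _ :: _, [], _ => none

theorem conjOK_spec {n : ℕ} (hn : 1 ≤ n) {A : ℕ → LM} (hA : ∀ k, uni n (A k) = true) {x a : ℕ}
    {b : SLab} (h : conjOK n A x a b = true) :
    toU n hn (A x) = (sem (fun k => toU n hn (A k)) b)⁻¹ * toU n hn (A a) *
      sem (fun k => toU n hn (A k)) b := by
  unfold conjOK at h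
  unfold sem
  split_ifs at h with hb
  · rw [if_pos hb]
    have := toU_mul_eq hn (hA _) (hA _) (hA _) (hA _) (beq_iff_eq.1 h)
    rw [mul_assoc, ← this]
    group
  · rw [if_neg hb]
    have := toU_mul_eq hn (hA _) (hA _) (hA _) (hA _) (beq_iff_eq.1 h)
    rw [inv_inv, ← this]
    group

theorem sem_conj {G : Type*} [Group G] {u : ℕ → G} {x a : ℕ} {g : G} (h : u x = g⁻¹ * u a * g)
    (s : Bool) : sem u (x, s) = g⁻¹ * sem u (a, s) * g := by
  unfold sem
  cases s
  · simp [h, mul_assoc]
  · simp [h, mul_assoc]

theorem sem_not {G : Type*} [Group G] (u : ℕ → G) (a : SLab) :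
    sem u (a.1, !a.2) = (sem u a)⁻¹ := by
  unfold sem
  cases h : a.2 <;> simp

/-- the labels `m` are given by the list `σ` -/
def Rep {G : Type*} [Group G] (u : ℕ → G) (σ : List SLab) (m : ℕ → G) : Prop :=
  ∀ z, ∀ a, σ[z]? = some a → m z = sem u a

theorem rep_split {G : Type*} [Group G] {u : ℕ → G} {σ : List SLab} {m : ℕ → G} (h : Rep u σ m)
    {i : ℕ} {a b : SLab} {ρ : List SLab} (hd : σ.drop i = a :: b :: ρ) :
    i + 2 ≤ σ.length ∧ m i = sem u a ∧ m (i + 1) = sem u b ∧
      (∀ z, z < i → ∀ c, σ[z]? = some c → m z = sem u c) ∧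
      ∀ z c, ρ[z]? = some c → m (i + 2 + z) = sem u c := by
  have hl : (σ.drop i).length = ρ.length + 2 := by rw [hd]; simp
  rw [List.length_drop] at hl
  have e : ∀ z, σ[i + z]? = (a :: b :: ρ)[z]? := by
    intro z
    rw [← hd, List.getElem?_drop]
  refine ⟨by omega, ?_, ?_, fun z _ c hc => h z c hc, ?_⟩
  · apply h
    have := e 0
    simpa using this
  · apply h
    have := e 1
    simpa using this
  · intro z c hc
    apply h
    have := e (z + 2)
    rw [show i + 2 + z = i + (z + 2) by omega, this]
    simpa using hc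

theorem rep_cross {G : Type*} [Group G] {u : ℕ → G} {σ : List SLab} {i : ℕ} {a b : SLab}
    {ρ : List SLab} {m' : ℕ → G} (hi : i ≤ σ.length)
    (h1 : ∀ z, z < i → ∀ c, σ[z]? = some c → m' z = sem u c)
    (h2 : m' i = sem u a) (h3 : m' (i + 1) = sem u b)
    (h4 : ∀ z c, ρ[z]? = some c → m' (i + 2 + z) = sem u c) :
    Rep u (σ.take i ++ [a, b] ++ ρ) m' := by
  intro z c hc
  have ht : (σ.take i).length = i := by rw [List.length_take]; omega
  rcases lt_or_ge z i with hz | hz
  · rw [List.append_assoc, List.getElem?_append_left (by omega), List.getElem?_take] at hc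
    rw [if_pos hz] at hc
    exact h1 z hz c hc
  · obtain ⟨y, rfl⟩ := Nat.exists_eq_add_of_le hz
    rw [List.append_assoc, List.getElem?_append_right (by omega), ht, Nat.add_sub_cancel_left] at hc
    rcases y with _ | _ | y
    · simp at hc
      rw [← hc]; exact h2
    · simp at hc
      rw [← hc]; exact h3
    · simp at hc
      have := h4 y c hc
      rw [show i + (y + 1 + 1) = i + 2 + y by omega]
      exact this

theorem cstep_spec {n : ℕ} (hn : 1 ≤ n) {A : ℕ → LM} (hA : ∀ k, uni n (A k) = true) (p : Piece)
    (c : SLab) (σ σ' : List SLab) (m : ℕ → (FM n hn).U)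
    (hm : Rep (fun k => toU n hn (A k)) σ m) (h : cstep n A p c σ = some σ') :
    gd p m = 1 ∧ ∃ x, Rep (fun k => toU n hn (A k)) σ' (gst ru 0 p x m) := by
  set u : ℕ → (FM n hn).U := fun k => toU n hn (A k) with hu
  cases p with
  | birth i b =>
    simp only [cstep] at h
    split_ifs at h with hi
    simp only [Option.some.injEq] at h
    subst h
    refine ⟨rfl, sem u c, ?_⟩
    apply rep_cross hi
    · intro z hz d hd
      rw [bl _ _ _ _ hz]
      exact hm z d hd
    · rw [b0]
    · rw [b1]
      unfold sem
      cases hc : c.2 <;> simp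
    · intro z d hd
      rw [show i + 2 + z = i + z + 2 by omega, bg _ _ _ _ (by omega)]
      apply hm
      rw [List.getElem?_drop] at hd
      exact hd
  | death i =>
    simp only [cstep] at h
    split at h
    · rename_i a b ρ hd
      split_ifs at h with hab
      simp only [Option.some.injEq] at h
      subst h
      obtain ⟨hl, h1, h2, h3, h4⟩ := rep_split hm hd
      refine ⟨?_, 1, ?_⟩
      · simp only [gd]
        rw [h1, h2]
        unfold sem
        rw [hab.2, hab.1]
        cases a.2 <;> simp
      · intro z d hz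
        have ht : (σ.take i).length = i := by rw [List.length_take]; omega
        rcases lt_or_ge z i with hzi | hzi
        · rw [List.getElem?_append_left (by omega), List.getElem?_take, if_pos hzi] at hz
          rw [dl _ _ _ hzi]
          exact hm z d hz
        · obtain ⟨y, rfl⟩ := Nat.exists_eq_add_of_le hzi
          rw [List.getElem?_append_right (by omega), ht, Nat.add_sub_cancel_left] at hz
          rw [dg _ _ _ (by omega), show i + y + 2 = i + 2 + y by omega]
          exact h4 y d hz
    · cases h
  | pos i =>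
    simp only [cstep] at h
    split at h
    · rename_i a b ρ hd
      split_ifs at h with hab
      simp only [Option.some.injEq] at h
      subst h
      obtain ⟨hl, h1, h2, h3, h4⟩ := rep_split hm hd
      refine ⟨rfl, 1, ?_⟩
      apply rep_cross (by omega)
      · intro z hz d hd
        rw [pl _ _ _ (by omega) (by omega)]
        exact hm z d hd
      · rw [p0, h2]
      · rw [p1, h1, h2]
        exact (sem_conj (u := u) (conjOK_spec hn hA hab) a.2).symm
      · intro z d hd
        rw [pl _ _ _ (by omega) (by omega)]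
        exact h4 z d hd
    · cases h
  | neg i =>
    simp only [cstep] at h
    split at h
    · rename_i a b ρ hd
      split_ifs at h with hab
      simp only [Option.some.injEq] at h
      subst h
      obtain ⟨hl, h1, h2, h3, h4⟩ := rep_split hm hd
      refine ⟨rfl, 1, ?_⟩
      apply rep_cross (by omega)
      · intro z hz d hd
        rw [nl _ _ _ (by omega) (by omega)]
        exact hm z d hd
      · rw [n0, h1, h2]
        have := sem_conj (u := u) (conjOK_spec hn hA hab) b.2
        rw [this, sem_not, inv_inv]
      · rw [n1, h1]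
      · intro z d hd
        rw [nl _ _ _ (by omega) (by omega)]
        exact h4 z d hd
    · cases h

theorem crun_spec {n : ℕ} (hn : 1 ≤ n) {A : ℕ → LM} (hA : ∀ k, uni n (A k) = true) (w : Word) :
    ∀ (cs σ σ' : List SLab) (m : ℕ → (FM n hn).U), Rep (fun k => toU n hn (A k)) σ m →
    crun n A w cs σ = some σ' →
    ∃ m', Col w m m' ∧ Rep (fun k => toU n hn (A k)) σ' m' := by
  induction w with
  | nil =>
    intro cs σ σ' m hm h
    simp only [crun, Option.some.injEq] at h
    subst h
    exact ⟨m, rfl, hm⟩
  | cons p w ih =>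
    intro cs σ σ' m hm h
    cases cs with
    | nil => simp [crun] at h
    | cons c cs =>
      simp only [crun] at h
      split at h
      · rename_i σ1 h1
        obtain ⟨g, x, hx⟩ := cstep_spec hn hA p c σ σ1 m hm h1
        obtain ⟨m', h2, h3⟩ := ih cs σ1 σ' _ hx h
        exact ⟨m', ⟨g, x, h2⟩, h3⟩
      · cases h

end Pool.Agent.Y510.SL
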