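import Pool.Agent.Y510.SL.Col

/-!
# The local moves do not change the labels at the bottom
-/

set_option autoImplicit false

namespace Pool.Agent.Y510.SL

open Pool.Agent.H835R2.Knot (Piece Word Front Fits run comps Move up dn sw)
open Pool.Agent.H835R2.Knot.Piece
open Pool.Agent.H838R2.SL

variable {G : Type*} [Group G]

/-- five kinds of positions -/
theorem five (i z : ℕ) (P : ℕ → Prop) (h1 : ∀ z, z < i → P z) (h2 : P i) (h3 : P (i + 1))
    (h4 : P (i + 2)) (h5 : ∀ y, P (i + 3 + y)) : P z := by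
  rcases lt_or_ge z i with h | h
  · exact h1 z h
  · obtain ⟨y, rfl⟩ := Nat.exists_eq_add_of_le h
    rcases y with _ | _ | _ | y
    · exact h2
    · exact h3
    · exact h4
    · have := h5 y
      rwa [show i + 3 + y = i + (y + 1 + 1 + 1) by omega] at this

section Values

variable (x : G) (m : ℕ → G) (i : ℕ) (b : Bool)

theorem bl {z : ℕ} (h : z < i) : gst ru 0 (birth i b) x m z = m z := by
  simp only [gst]; rw [if_pos h]
theorem b0 : gst ru 0 (birth i b) x m i = x := by
  simp only [gst]; rw [if_neg (by omega), if_pos trivial]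
theorem b1 : gst ru 0 (birth i b) x m (i + 1) = x⁻¹ := by
  simp only [gst]; rw [if_neg (by omega), if_neg (by omega), if_pos trivial]
theorem bg {z : ℕ} (h : i ≤ z) : gst ru 0 (birth i b) x m (z + 2) = m z := by
  simp only [gst]; rw [if_neg (by omega), if_neg (by omega), if_neg (by omega)]
  exact congrArg m (by omega)
theorem dl {z : ℕ} (h : z < i) : gst ru 0 (death i) x m z = m z := by
  simp only [gst, up]; rw [if_pos h]
theorem dg {z : ℕ} (h : i ≤ z) : gst ru 0 (death i) x m z = m (z + 2) := by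
  simp only [gst, up]; rw [if_neg (by omega)]
theorem pl {z : ℕ} (h : z ≠ i) (h' : z ≠ i + 1) : gst ru 0 (pos i) x m z = m z := by
  simp only [gst]; rw [if_neg h, if_neg h']
theorem p0 : gst ru 0 (pos i) x m i = m (i + 1) := by
  simp only [gst, ru]; rw [if_pos trivial]
theorem p1 : gst ru 0 (pos i) x m (i + 1) = (m (i + 1))⁻¹ * m i * m (i + 1) := by
  simp only [gst, ru]; rw [if_neg (by omega), if_pos trivial]
theorem nl {z : ℕ} (h : z ≠ i) (h' : z ≠ i + 1) : gst ru 0 (neg i) x m z = m z := by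
  simp only [gst]; rw [if_neg h, if_neg h']
theorem n0 : gst ru 0 (neg i) x m i = m i * m (i + 1) * (m i)⁻¹ := by
  simp only [gst, ru]; rw [if_pos trivial]
theorem n1 : gst ru 0 (neg i) x m (i + 1) = m i := by
  simp only [gst, ru]; rw [if_neg (by omega), if_pos trivial]

end Values

theorem m_second₁ (i : ℕ) (m m' : ℕ → G) : Col [pos i, neg i] m m' ↔ Col [] m m' := by
  simp only [Col]
  have key : ∀ x y : G, gst ru 0 (neg i) y (gst ru 0 (pos i) x m) = m := by
    intro x y
    funext z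
    by_cases h : z = i
    · subst h; rw [n0, p0, p1]; group
    by_cases h' : z = i + 1
    · subst h'; rw [n1, p0]
    rw [nl _ _ _ h h', pl _ _ _ h h']
  constructor
  · rintro ⟨_, x, _, y, rfl⟩; exact key x y
  · rintro rfl; exact ⟨rfl, 1, rfl, 1, (key 1 1).symm⟩

theorem m_second₂ (i : ℕ) (m m' : ℕ → G) : Col [neg i, pos i] m m' ↔ Col [] m m' := by
  simp only [Col]
  have key : ∀ x y : G, gst ru 0 (pos i) y (gst ru 0 (neg i) x m) = m := by
    intro x y
    funext z
    by_cases h : z = i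
    · subst h; rw [p0, n1]
    by_cases h' : z = i + 1
    · subst h'; rw [p1, n1, n0]; group
    rw [pl _ _ _ h h', nl _ _ _ h h']
  constructor
  · rintro ⟨_, x, _, y, rfl⟩; exact key x y
  · rintro rfl; exact ⟨rfl, 1, rfl, 1, (key 1 1).symm⟩

theorem m_zigzag₁ (i : ℕ) (b : Bool) (m m' : ℕ → G) :
    Col [birth i b, death (i + 1)] m m' ↔ Col [] m m' := by
  simp only [Col]
  have hg : ∀ x : G, gd (death (i + 1)) (gst ru 0 (birth i b) x m) = x⁻¹ * m i := by
    intro x
    simp only [gd]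
    rw [b1, bg _ _ _ _ le_rfl]
  have key : ∀ y : G, gst ru 0 (death (i + 1)) y (gst ru 0 (birth i b) (m i) m) = m := by
    intro y
    funext z
    rcases lt_trichotomy z i with h | h | h
    · rw [dl _ _ _ (by omega), bl _ _ _ _ h]
    · subst h; rw [dl _ _ _ (by omega), b0]
    · rw [dg _ _ _ (by omega), bg _ _ _ _ (by omega)]
  constructor
  · rintro ⟨_, x, h, y, rfl⟩
    rw [hg, inv_mul_eq_one] at h
    subst h
    exact key y
  · rintro rfl
    exact ⟨rfl, m' i, by rw [hg, inv_mul_cancel], 1, (key 1).symm⟩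

theorem m_zigzag₂ (i : ℕ) (b : Bool) (m m' : ℕ → G) :
    Col [birth (i + 1) b, death i] m m' ↔ Col [] m m' := by
  simp only [Col]
  have hg : ∀ x : G, gd (death i) (gst ru 0 (birth (i + 1) b) x m) = m i * x := by
    intro x
    simp only [gd]
    rw [bl _ _ _ _ (by omega), b0]
  have key : ∀ y : G, gst ru 0 (death i) y (gst ru 0 (birth (i + 1) b) (m i)⁻¹ m) = m := by
    intro y
    funext z
    rcases lt_trichotomy z i with h | h | h
    · rw [dl _ _ _ (by omega), bl _ _ _ _ (by omega)]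
    · subst h; rw [dg _ _ _ (by omega), show z + 2 = z + 1 + 1 from rfl, b1, inv_inv]
    · rw [dg _ _ _ (by omega), bg _ _ _ _ (by omega)]
  constructor
  · rintro ⟨_, x, h, y, rfl⟩
    rw [hg] at h
    rw [eq_inv_of_mul_eq_one_right h]
    exact key y
  · rintro rfl
    exact ⟨rfl, (m' i)⁻¹, by rw [hg, mul_inv_cancel], 1, (key 1).symm⟩

theorem m_slideBirth₁ (i : ℕ) (b : Bool) (m m' : ℕ → G) :
    Col [birth i b, pos (i + 1)] m m' ↔ Col [birth (i + 1) b, neg i] m m' := by
  simp only [Col]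
  have key : ∀ x y x' y' : G, x = m i * x' * (m i)⁻¹ →
      gst ru 0 (pos (i + 1)) y (gst ru 0 (birth i b) x m) =
      gst ru 0 (neg i) y' (gst ru 0 (birth (i + 1) b) x' m) := by
    intro x y x' y' hx
    funext z
    refine five i z (fun z => gst ru 0 (pos (i + 1)) y (gst ru 0 (birth i b) x m) z =
      gst ru 0 (neg i) y' (gst ru 0 (birth (i + 1) b) x' m) z) ?_ ?_ ?_ ?_ ?_
    · intro z hz
      rw [pl _ _ _ (by omega) (by omega), nl _ _ _ (by omega) (by omega), bl _ _ _ _ hz,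
        bl _ _ _ _ (by omega)]
    · rw [pl _ _ _ (by omega) (by omega), n0, b0, b0, bl _ _ _ _ (by omega), hx]
    · rw [p0, n1, show i + 1 + 1 = i + 2 from rfl, bg _ _ _ _ le_rfl, bl _ _ _ _ (by omega)]
    · rw [show i + 2 = i + 1 + 1 from rfl, p1, nl _ _ _ (by omega) (by omega), b1,
        show i + 1 + 1 = i + 2 from rfl, bg _ _ _ _ le_rfl,
        show i + 2 = i + 1 + 1 from rfl, b1, hx]
      group
    · intro w
      rw [pl _ _ _ (by omega) (by omega), nl _ _ _ (by omega) (by omega),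
        show i + 3 + w = i + 1 + w + 2 by omega, bg _ _ _ _ (by omega), bg _ _ _ _ (by omega)]
  constructor
  · rintro ⟨_, x, _, y, rfl⟩
    exact ⟨rfl, (m i)⁻¹ * x * m i, rfl, 1, key x y _ 1 (by group)⟩
  · rintro ⟨_, x, _, y, rfl⟩
    exact ⟨rfl, m i * x * (m i)⁻¹, rfl, 1, (key _ 1 x y rfl).symm⟩

theorem m_slideBirth₂ (i : ℕ) (b : Bool) (m m' : ℕ → G) :
    Col [birth i b, neg (i + 1)] m m' ↔ Col [birth (i + 1) b, pos i] m m' := by
  simp only [Col]
  -- left: `x, x⁻¹ (m i) x, x⁻¹`; right: `x', x'⁻¹ (m i) x', x'⁻¹`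
  have key : ∀ x y y' : G,
      gst ru 0 (neg (i + 1)) y (gst ru 0 (birth i b) x m) =
      gst ru 0 (pos i) y' (gst ru 0 (birth (i + 1) b) x m) := by
    intro x y y'
    funext z
    refine five i z (fun z => gst ru 0 (neg (i + 1)) y (gst ru 0 (birth i b) x m) z =
      gst ru 0 (pos i) y' (gst ru 0 (birth (i + 1) b) x m) z) ?_ ?_ ?_ ?_ ?_
    · intro z hz
      rw [nl _ _ _ (by omega) (by omega), pl _ _ _ (by omega) (by omega), bl _ _ _ _ hz,
        bl _ _ _ _ (by omega)]
    · rw [nl _ _ _ (by omega) (by omega), p0, b0, b0]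
    · rw [n0, p1, b1, b0, show i + 1 + 1 = i + 2 from rfl, bg _ _ _ _ le_rfl,
        bl _ _ _ _ (by omega)]
      group
    · rw [show i + 2 = i + 1 + 1 from rfl, n1, pl _ _ _ (by omega) (by omega), b1,
        b1]
    · intro w
      rw [nl _ _ _ (by omega) (by omega), pl _ _ _ (by omega) (by omega),
        show i + 3 + w = i + 1 + w + 2 by omega, bg _ _ _ _ (by omega), bg _ _ _ _ (by omega)]
  constructor
  · rintro ⟨_, x, _, y, rfl⟩
    exact ⟨rfl, x, rfl, 1, key x y 1⟩
  · rintro ⟨_, x, _, y, rfl⟩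
    exact ⟨rfl, x, rfl, 1, (key x 1 y).symm⟩

theorem m_slideDeath₁ (i : ℕ) (m m' : ℕ → G) :
    Col [pos (i + 1), death i] m m' ↔ Col [neg i, death (i + 1)] m m' := by
  simp only [Col]
  have g1 : ∀ x : G, gd (death i) (gst ru 0 (pos (i + 1)) x m) = m i * m (i + 2) := by
    intro x
    simp only [gd]
    rw [pl _ _ _ (by omega) (by omega), p0]
  have g2 : ∀ x : G, gd (death (i + 1)) (gst ru 0 (neg i) x m) = m i * m (i + 2) := by
    intro x
    simp only [gd]
    rw [n1, nl _ _ _ (by omega) (by omega)]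
  have key : ∀ x y x' y' : G, m i * m (i + 2) = 1 →
      gst ru 0 (death i) y (gst ru 0 (pos (i + 1)) x m) =
      gst ru 0 (death (i + 1)) y' (gst ru 0 (neg i) x' m) := by
    intro x y x' y' h
    have h' : m (i + 2) = (m i)⁻¹ := eq_inv_of_mul_eq_one_right h
    funext z
    rcases lt_trichotomy z i with hz | hz | hz
    · rw [dl _ _ _ hz, dl _ _ _ (by omega), pl _ _ _ (by omega) (by omega),
        nl _ _ _ (by omega) (by omega)]
    · subst hz
      rw [dg _ _ _ le_rfl, dl _ _ _ (by omega), show z + 2 = z + 1 + 1 from rfl, p1, n0,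
        show z + 1 + 1 = z + 2 from rfl, h']
      group
    · rw [dg _ _ _ (by omega), dg _ _ _ (by omega), pl _ _ _ (by omega) (by omega),
        nl _ _ _ (by omega) (by omega)]
  constructor
  · rintro ⟨_, x, h, y, rfl⟩
    rw [g1] at h
    exact ⟨rfl, 1, by rw [g2]; exact h, 1, key x y 1 1 h⟩
  · rintro ⟨_, x, h, y, rfl⟩
    rw [g2] at h
    exact ⟨rfl, 1, by rw [g1]; exact h, 1, (key 1 1 x y h).symm⟩

theorem m_slideDeath₂ (i : ℕ) (m m' : ℕ → G) :
    Col [neg (i + 1), death i] m m' ↔ Col [pos i, death (i + 1)] m m' := by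
  simp only [Col]
  have g1 : ∀ x : G, gd (death i) (gst ru 0 (neg (i + 1)) x m) =
      m i * (m (i + 1) * m (i + 2) * (m (i + 1))⁻¹) := by
    intro x
    simp only [gd]
    rw [nl _ _ _ (by omega) (by omega), n0]
  have g2 : ∀ x : G, gd (death (i + 1)) (gst ru 0 (pos i) x m) =
      (m (i + 1))⁻¹ * m i * m (i + 1) * m (i + 2) := by
    intro x
    simp only [gd]
    rw [p1, pl _ _ _ (by omega) (by omega)]
  have gg : m i * (m (i + 1) * m (i + 2) * (m (i + 1))⁻¹) = 1 ↔
      (m (i + 1))⁻¹ * m i * m (i + 1) * m (i + 2) = 1 := by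
    rw [mul_eq_one_iff_eq_inv, mul_eq_one_iff_eq_inv]
    constructor
    · intro h; rw [h]; group
    · intro h
      have : m i = m (i + 1) * ((m (i + 1))⁻¹ * m i * m (i + 1)) * (m (i + 1))⁻¹ := by group
      rw [this, h]; group
  have key : ∀ x y x' y' : G,
      gst ru 0 (death i) y (gst ru 0 (neg (i + 1)) x m) =
      gst ru 0 (death (i + 1)) y' (gst ru 0 (pos i) x' m) := by
    intro x y x' y'
    funext z
    rcases lt_trichotomy z i with hz | hz | hz
    · rw [dl _ _ _ hz, dl _ _ _ (by omega), nl _ _ _ (by omega) (by omega),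
        pl _ _ _ (by omega) (by omega)]
    · subst hz
      rw [dg _ _ _ le_rfl, dl _ _ _ (by omega), show z + 2 = z + 1 + 1 from rfl, n1, p0]
    · rw [dg _ _ _ (by omega), dg _ _ _ (by omega), nl _ _ _ (by omega) (by omega),
        pl _ _ _ (by omega) (by omega)]
  constructor
  · rintro ⟨_, x, h, y, rfl⟩
    rw [g1] at h
    exact ⟨rfl, 1, by rw [g2]; exact gg.1 h, 1, key x y 1 1⟩
  · rintro ⟨_, x, h, y, rfl⟩
    rw [g2] at h
    exact ⟨rfl, 1, by rw [g1]; exact gg.2 h, 1, (key 1 1 x y).symm⟩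

theorem m_firstBirthPos (i : ℕ) (b : Bool) (m m' : ℕ → G) :
    Col [birth i b, pos i] m m' ↔ Col [birth i (!b)] m m' := by
  simp only [Col]
  have key : ∀ x y : G, gst ru 0 (pos i) y (gst ru 0 (birth i b) x m) =
      gst ru 0 (birth i (!b)) x⁻¹ m := by
    intro x y
    funext z
    rcases lt_trichotomy z i with h | h | h
    · rw [pl _ _ _ (by omega) (by omega), bl _ _ _ _ h, bl _ _ _ _ h]
    · subst h; rw [p0, b1, b0]
    · by_cases h' : z = i + 1
      · subst h'; rw [p1, b1, b0, b1]; group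
      · obtain ⟨y, rfl⟩ : ∃ y, z = y + 2 := ⟨z - 2, by omega⟩
        rw [pl _ _ _ (by omega) (by omega), bg _ _ _ _ (by omega), bg _ _ _ _ (by omega)]
  constructor
  · rintro ⟨_, x, _, y, rfl⟩; exact ⟨rfl, x⁻¹, key x y⟩
  · rintro ⟨_, x, rfl⟩; exact ⟨rfl, x⁻¹, rfl, 1, by rw [key, inv_inv]⟩

theorem m_firstBirthNeg (i : ℕ) (b : Bool) (m m' : ℕ → G) :
    Col [birth i b, neg i] m m' ↔ Col [birth i (!b)] m m' := by
  simp only [Col]
  have key : ∀ x y : G, gst ru 0 (neg i) y (gst ru 0 (birth i b) x m) =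
      gst ru 0 (birth i (!b)) x⁻¹ m := by
    intro x y
    funext z
    rcases lt_trichotomy z i with h | h | h
    · rw [nl _ _ _ (by omega) (by omega), bl _ _ _ _ h, bl _ _ _ _ h]
    · subst h; rw [n0, b1, b0, b0]; group
    · by_cases h' : z = i + 1
      · subst h'; rw [n1, b0, b1]; group
      · obtain ⟨y, rfl⟩ : ∃ y, z = y + 2 := ⟨z - 2, by omega⟩
        rw [nl _ _ _ (by omega) (by omega), bg _ _ _ _ (by omega), bg _ _ _ _ (by omega)]
  constructor
  · rintro ⟨_, x, _, y, rfl⟩; exact ⟨rfl, x⁻¹, key x y⟩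
  · rintro ⟨_, x, rfl⟩; exact ⟨rfl, x⁻¹, rfl, 1, by rw [key, inv_inv]⟩

theorem m_firstDeathPos (i : ℕ) (m m' : ℕ → G) :
    Col [pos i, death i] m m' ↔ Col [death i] m m' := by
  simp only [Col]
  have g1 : ∀ x : G, gd (death i) (gst ru 0 (pos i) x m) = m i * m (i + 1) := by
    intro x
    simp only [gd]
    rw [p0, p1]; group
  have key : ∀ x y z : G, gst ru 0 (death i) y (gst ru 0 (pos i) x m) = gst ru 0 (death i) z m := by
    intro x y w
    funext z
    rcases lt_or_ge z i with h | h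
    · rw [dl _ _ _ h, dl _ _ _ h, pl _ _ _ (by omega) (by omega)]
    · rw [dg _ _ _ h, dg _ _ _ h, pl _ _ _ (by omega) (by omega)]
  constructor
  · rintro ⟨_, x, h, y, rfl⟩
    rw [g1] at h
    exact ⟨h, 1, key x y 1⟩
  · rintro ⟨h, x, rfl⟩
    exact ⟨rfl, 1, by rw [g1]; exact h, 1, (key 1 1 x).symm⟩

theorem m_firstDeathNeg (i : ℕ) (m m' : ℕ → G) :
    Col [neg i, death i] m m' ↔ Col [death i] m m' := by
  simp only [Col]
  have g1 : ∀ x : G, gd (death i) (gst ru 0 (neg i) x m) = m i * m (i + 1) := by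
    intro x
    simp only [gd]
    rw [n0, n1]; group
  have key : ∀ x y z : G, gst ru 0 (death i) y (gst ru 0 (neg i) x m) = gst ru 0 (death i) z m := by
    intro x y w
    funext z
    rcases lt_or_ge z i with h | h
    · rw [dl _ _ _ h, dl _ _ _ h, nl _ _ _ (by omega) (by omega)]
    · rw [dg _ _ _ h, dg _ _ _ h, nl _ _ _ (by omega) (by omega)]
  constructor
  · rintro ⟨_, x, h, y, rfl⟩
    rw [g1] at h
    exact ⟨h, 1, key x y 1⟩
  · rintro ⟨h, x, rfl⟩
    exact ⟨rfl, 1, by rw [g1]; exact h, 1, (key 1 1 x).symm⟩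

theorem m_third (i : ℕ) (m m' : ℕ → G) :
    Col [pos i, pos (i + 1), pos i] m m' ↔ Col [pos (i + 1), pos i, pos (i + 1)] m m' := by
  simp only [Col]
  have key : ∀ x y w x' y' w' : G,
      gst ru 0 (pos i) w (gst ru 0 (pos (i + 1)) y (gst ru 0 (pos i) x m)) =
      gst ru 0 (pos (i + 1)) w' (gst ru 0 (pos i) y' (gst ru 0 (pos (i + 1)) x' m)) := by
    intro x y w x' y' w'
    funext z
    have a0 : gst ru 0 (pos i) x m i = m (i + 1) := p0 _ _ _
    have a1 : gst ru 0 (pos i) x m (i + 1) = (m (i + 1))⁻¹ * m i * m (i + 1) := p1 _ _ _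
    have a2 : gst ru 0 (pos i) x m (i + 1 + 1) = m (i + 2) := pl _ _ _ (by omega) (by omega)
    have c0 : gst ru 0 (pos (i + 1)) y (gst ru 0 (pos i) x m) i = m (i + 1) := by
      rw [pl _ _ _ (by omega) (by omega), a0]
    have c1 : gst ru 0 (pos (i + 1)) y (gst ru 0 (pos i) x m) (i + 1) = m (i + 2) := by
      rw [p0, a2]
    have c2 : gst ru 0 (pos (i + 1)) y (gst ru 0 (pos i) x m) (i + 1 + 1) =
        (m (i + 2))⁻¹ * ((m (i + 1))⁻¹ * m i * m (i + 1)) * m (i + 2) := by
      rw [p1, a1, a2]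
    have d0 : gst ru 0 (pos (i + 1)) x' m i = m i := pl _ _ _ (by omega) (by omega)
    have d1 : gst ru 0 (pos (i + 1)) x' m (i + 1) = m (i + 2) := p0 _ _ _
    have d2 : gst ru 0 (pos (i + 1)) x' m (i + 1 + 1) = (m (i + 2))⁻¹ * m (i + 1) * m (i + 2) :=
      p1 _ _ _
    have e0 : gst ru 0 (pos i) y' (gst ru 0 (pos (i + 1)) x' m) i = m (i + 2) := by rw [p0, d1]
    have e1 : gst ru 0 (pos i) y' (gst ru 0 (pos (i + 1)) x' m) (i + 1) =
        (m (i + 2))⁻¹ * m i * m (i + 2) := by rw [p1, d0, d1]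
    have e2 : gst ru 0 (pos i) y' (gst ru 0 (pos (i + 1)) x' m) (i + 1 + 1) =
        (m (i + 2))⁻¹ * m (i + 1) * m (i + 2) := by rw [pl _ _ _ (by omega) (by omega), d2]
    refine five i z (fun z => gst ru 0 (pos i) w (gst ru 0 (pos (i + 1)) y (gst ru 0 (pos i) x m)) z =
      gst ru 0 (pos (i + 1)) w' (gst ru 0 (pos i) y' (gst ru 0 (pos (i + 1)) x' m)) z) ?_ ?_ ?_ ?_ ?_
    · intro z hz
      rw [pl _ _ _ (by omega) (by omega), pl _ _ _ (by omega) (by omega),
        pl _ _ _ (by omega) (by omega), pl _ _ _ (by omega) (by omega),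
        pl _ _ _ (by omega) (by omega), pl _ _ _ (by omega) (by omega)]
    · rw [p0, c1, pl _ _ _ (by omega) (by omega), e0]
    · rw [p1, c0, c1, p0, e2]
    · rw [show i + 2 = i + 1 + 1 from rfl, p1, pl _ _ _ (by omega) (by omega), c2, e1, e2]
      group
    · intro y
      rw [pl _ _ _ (by omega) (by omega), pl _ _ _ (by omega) (by omega),
        pl _ _ _ (by omega) (by omega), pl _ _ _ (by omega) (by omega),
        pl _ _ _ (by omega) (by omega), pl _ _ _ (by omega) (by omega)]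
  constructor
  · rintro ⟨_, x, _, y, _, w, rfl⟩; exact ⟨rfl, 1, rfl, 1, rfl, 1, key x y w 1 1 1⟩
  · rintro ⟨_, x, _, y, _, w, rfl⟩; exact ⟨rfl, 1, rfl, 1, rfl, 1, (key 1 1 1 x y w).symm⟩

theorem col_move {l r : Word} (h : Move l r) (m m' : ℕ → G) : Col l m m' ↔ Col r m m' := by
  cases h with
  | exchange p q h => exact col_exchange p q h m m'
  | zigzag₁ i b => exact m_zigzag₁ i b m m'
  | zigzag₂ i b => exact m_zigzag₂ i b m m'
  | slideBirth₁ i b => exact m_slideBirth₁ i b m m'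
  | slideBirth₂ i b => exact m_slideBirth₂ i b m m'
  | slideDeath₁ i => exact m_slideDeath₁ i m m'
  | slideDeath₂ i => exact m_slideDeath₂ i m m'
  | firstBirthPos i b => exact m_firstBirthPos i b m m'
  | firstBirthNeg i b => exact m_firstBirthNeg i b m m'
  | firstDeathPos i => exact m_firstDeathPos i m m'
  | firstDeathNeg i => exact m_firstDeathNeg i m m'
  | second₁ i => exact m_second₁ i m m'
  | second₂ i => exact m_second₂ i m m'
  | third i => exact m_third i m m'

theorem col_context {x l r y : Word} (h : Move l r) (m m' : ℕ → G) :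
    Col (x ++ l ++ y) m m' ↔ Col (x ++ r ++ y) m m' := by
  rw [col_append, col_append]
  constructor
  · rintro ⟨m1, h1, h2⟩
    rw [col_append] at h1
    obtain ⟨m2, h3, h4⟩ := h1
    exact ⟨m1, (col_append _ _ _ _).2 ⟨m2, h3, (col_move h _ _).1 h4⟩, h2⟩
  · rintro ⟨m1, h1, h2⟩
    rw [col_append] at h1
    obtain ⟨m2, h3, h4⟩ := h1
    exact ⟨m1, (col_append _ _ _ _).2 ⟨m2, h3, (col_move h _ _).2 h4⟩, h2⟩

end Pool.Agent.Y510.SL
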